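import Pool.Agent.H88.DF.Defs

/-!
# Q2 : the function eta (Mathlib only)
Paper proof. Put `B = 2 Q ≥ 2` and `C = B log(1 + B²)`, and
`η t = C B^t / log(1 + 1/t)` for `t > 0`, `η 0 = 0`. It is continuous and strictly increasing on
`[0,∞)`, tends to `0` at `0` and to `∞` at `∞`, hence a homeomorphism of `ℝ≥0`
(`StrictMono.orderIsoOfSurjective`, `OrderIso.toHomeomorph`; surjectivity by the intermediate
value theorem). Any other choice of a homeomorphism above the two bounds below is fine.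
Let `dist x a ≤ t dist x b`, `t > 0`; if `x = b` then `x = a`, trivial, so `dist x b > 0`.
Let `p = dist (f x) (f a)`, `q = dist (f x) (f b) > 0` (injective).
(a) `t ≥ 1/B²`: with `m = ⌈t⌉ ≥ 1` the hypothesis on `f` gives
`p ≤ m Q^m q ≤ B^m q ≤ B^(t+1) q` (`m ≤ 2^m`, `m ≤ t + 1`), and `η t ≥ B^(t+1)` because
`log(1+1/t) ≤ log(1+B²)`, so `C/log(1+1/t) ≥ B`.
(b) `t < 1/B²`: if `p = 0` trivial. Let `τ = q/p > 0`, `m = ⌈τ⌉ ≥ 1` (if `τ > 0`). The hypothesis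
on `g` at the points `f x, f b, f a` (`dist (f x) (f b) = τ p ≤ m dist (f x) (f a)`) gives
`dist x b ≤ m Q^m dist x a ≤ B^m t dist x b`, so `1/t ≤ B^m ≤ B^(τ+1)`, i.e.
`τ ≥ log(1/t)/log B - 1 ≥ log(1/t)/(2 log B)` since `log(1/t) > 2 log B`. So
`p = q/τ ≤ q * 2 log B/log(1/t)`, and `η t ≥ C/log(1+1/t) ≥ C/(2 log(1/t)) ≥ 2 log B/log(1/t)`
because `1 + 1/t ≤ (1/t)²` (`1/t > 4`) and `C ≥ B log(B²) = 2 B log B ≥ 4 log B`.
-/

set_option autoImplicit false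

open MeasureTheory Set Metric Filter
open scoped ENNReal Topology NNReal

namespace DF88

/-- the function `eta` -/
noncomputable def Q2_F (B : ℝ) (t : ℝ) : ℝ :=
  B * Real.log (1 + B ^ 2) * B ^ t / Real.log (1 + t⁻¹)

theorem Q2_F_zero (B : ℝ) : Q2_F B 0 = 0 := by simp [Q2_F]

theorem Q2_C_pos {B : ℝ} (hB : 2 ≤ B) : 0 < B * Real.log (1 + B ^ 2) := by
  have : 0 < Real.log (1 + B ^ 2) := Real.log_pos (by nlinarith)
  positivity

theorem Q2_log_pos {t : ℝ} (ht : 0 < t) : 0 < Real.log (1 + t⁻¹) :=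
  Real.log_pos (by have := inv_pos.mpr ht; linarith)

theorem Q2_F_pos {B : ℝ} (hB : 2 ≤ B) {t : ℝ} (ht : 0 < t) : 0 < Q2_F B t := by
  have h1 := Q2_C_pos hB
  have h2 := Q2_log_pos ht
  have h3 : 0 < B ^ t := Real.rpow_pos_of_pos (by linarith) t
  unfold Q2_F
  positivity

theorem Q2_F_lt {B : ℝ} (hB : 2 ≤ B) {s t : ℝ} (hs : 0 ≤ s) (hst : s < t) :
    Q2_F B s < Q2_F B t := by
  rcases hs.eq_or_lt with rfl | hs
  · rw [Q2_F_zero]; exact Q2_F_pos hB hst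
  · have h1 := Q2_C_pos hB
    have h2 := Q2_log_pos hs
    have h2' := Q2_log_pos (hs.trans hst)
    have h3 : B ^ s < B ^ t := Real.rpow_lt_rpow_of_exponent_lt (by linarith) hst
    have h3' : 0 < B ^ s := Real.rpow_pos_of_pos (by linarith) s
    have h4 : Real.log (1 + t⁻¹) ≤ Real.log (1 + s⁻¹) := by
      apply Real.log_le_log
      · have := inv_pos.mpr (hs.trans hst); linarith
      · have := inv_anti₀ hs hst.le; linarith
    unfold Q2_F
    calc B * Real.log (1 + B ^ 2) * B ^ s / Real.log (1 + s⁻¹)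
        ≤ B * Real.log (1 + B ^ 2) * B ^ s / Real.log (1 + t⁻¹) := by
          apply div_le_div_of_nonneg_left _ h2' h4
          positivity
      _ < B * Real.log (1 + B ^ 2) * B ^ t / Real.log (1 + t⁻¹) := by
          apply div_lt_div_of_pos_right _ h2'
          exact mul_lt_mul_of_pos_left h3 h1

theorem Q2_F_tendsto {B : ℝ} (hB : 2 ≤ B) : Tendsto (Q2_F B) (𝓝[>] 0) (𝓝 0) := by
  have h1 : Tendsto (fun t : ℝ => (Real.log (1 + t⁻¹))⁻¹) (𝓝[>] 0) (𝓝 0) :=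
    tendsto_inv_atTop_zero.comp (Real.tendsto_log_atTop.comp
      (tendsto_atTop_add_const_left _ 1 tendsto_inv_nhdsGT_zero))
  have h2 : Tendsto (fun t : ℝ => B * Real.log (1 + B ^ 2) * B ^ t) (𝓝[>] 0)
      (𝓝 (B * Real.log (1 + B ^ 2) * B ^ (0 : ℝ))) := by
    apply Tendsto.mono_left _ nhdsWithin_le_nhds
    have : Continuous (fun t : ℝ => B * Real.log (1 + B ^ 2) * B ^ t) :=
      continuous_const.mul (Real.continuous_const_rpow (by linarith))
    exact this.tendsto 0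
  have h3 := h2.mul h1
  rw [mul_zero] at h3
  refine h3.congr ?_
  intro t
  simp [Q2_F, div_eq_mul_inv]

theorem Q2_F_cont {B : ℝ} (hB : 2 ≤ B) : ContinuousOn (Q2_F B) (Ici 0) := by
  intro t ht
  rcases (mem_Ici.mp ht).eq_or_lt with rfl | ht
  · rw [← continuousWithinAt_Ioi_iff_Ici]
    unfold ContinuousWithinAt
    rw [Q2_F_zero]
    exact Q2_F_tendsto hB
  · apply ContinuousAt.continuousWithinAt
    unfold Q2_F
    apply ContinuousAt.div
    · have : Continuous (fun t : ℝ => B * Real.log (1 + B ^ 2) * B ^ t) :=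
        continuous_const.mul (Real.continuous_const_rpow (by linarith))
      exact this.continuousAt
    · apply ContinuousAt.log
      · exact continuousAt_const.add (continuousAt_inv₀ ht.ne')
      · have := inv_pos.mpr ht
        positivity
    · exact (Q2_log_pos ht).ne'

theorem Q2_F_surj {B : ℝ} (hB : 2 ≤ B) {y : ℝ} (hy : 0 ≤ y) : ∃ t, 0 ≤ t ∧ Q2_F B t = y := by
  obtain ⟨n, hn⟩ := exists_nat_ge y
  have hge : y ≤ Q2_F B (n + 1 : ℕ) := by
    have hlog : Real.log (1 + ((n + 1 : ℕ) : ℝ)⁻¹) ≤ 1 := by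
      have h1 : Real.log (1 + ((n + 1 : ℕ) : ℝ)⁻¹) ≤ (1 + ((n + 1 : ℕ) : ℝ)⁻¹) - 1 :=
        Real.log_le_sub_one_of_pos (by positivity)
      have h2 : ((n + 1 : ℕ) : ℝ)⁻¹ ≤ 1 := by
        apply inv_le_one_of_one_le₀
        push_cast
        have : (0 : ℝ) ≤ n := Nat.cast_nonneg n
        linarith
      linarith
    have hlog0 : 0 < Real.log (1 + ((n + 1 : ℕ) : ℝ)⁻¹) := Q2_log_pos (by positivity)
    have hC : 1 ≤ B * Real.log (1 + B ^ 2) := by
      have h1 : 1 / 2 ≤ Real.log (1 + B ^ 2) := by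
        have h2 : Real.log 2 ≤ Real.log (1 + B ^ 2) :=
          Real.log_le_log (by norm_num) (by nlinarith)
        have := Real.log_two_gt_d9
        linarith
      nlinarith
    have hBn : (n : ℝ) + 1 ≤ B ^ ((n + 1 : ℕ) : ℝ) := by
      rw [Real.rpow_natCast]
      have h1 : (2 : ℝ) ^ (n + 1) ≤ B ^ (n + 1) := pow_le_pow_left₀ (by norm_num) hB _
      have h2 : ((n + 1 : ℕ) : ℝ) < ((2 ^ (n + 1) : ℕ) : ℝ) := by
        exact_mod_cast Nat.lt_two_pow_self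
      push_cast at h2
      linarith
    unfold Q2_F
    rw [le_div_iff₀ hlog0]
    have hn0 : (0 : ℝ) ≤ n := Nat.cast_nonneg n
    have hBp : 0 < B ^ ((n + 1 : ℕ) : ℝ) := Real.rpow_pos_of_pos (by linarith) _
    calc y * Real.log (1 + ((n + 1 : ℕ) : ℝ)⁻¹) ≤ y * 1 := mul_le_mul_of_nonneg_left hlog hy
      _ ≤ 1 * (n + 1) := by linarith
      _ ≤ B * Real.log (1 + B ^ 2) * B ^ ((n + 1 : ℕ) : ℝ) := by
        apply mul_le_mul hC hBn (by positivity) (by linarith)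
  have hivt := intermediate_value_Icc (f := Q2_F B) (a := 0) (b := ((n + 1 : ℕ) : ℝ))
    (by positivity) ((Q2_F_cont hB).mono Icc_subset_Ici_self)
  have hmem : y ∈ Icc (Q2_F B 0) (Q2_F B ((n + 1 : ℕ) : ℝ)) := by
    rw [Q2_F_zero]; exact ⟨hy, hge⟩
  obtain ⟨t, ht, hty⟩ := hivt hmem
  exact ⟨t, ht.1, hty⟩

theorem Q2_F_nonneg {B : ℝ} (hB : 2 ≤ B) {t : ℝ} (ht : 0 ≤ t) : 0 ≤ Q2_F B t := by
  rcases ht.eq_or_lt with rfl | ht
  · rw [Q2_F_zero]
  · exact (Q2_F_pos hB ht).le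

/-- the homeomorphism `eta` -/
theorem Q2_homeo {B : ℝ} (hB : 2 ≤ B) : ∃ η : ℝ≥0 ≃ₜ ℝ≥0, ∀ t : ℝ≥0, ((η t : ℝ≥0) : ℝ) = Q2_F B t := by
  let F : ℝ≥0 → ℝ≥0 := fun t => ⟨Q2_F B t, Q2_F_nonneg hB t.2⟩
  have hmono : StrictMono F := by
    intro s t hst
    have h : Q2_F B s < Q2_F B t := Q2_F_lt hB s.2 (by exact_mod_cast hst)
    exact h
  have hsurj : Function.Surjective F := by
    intro y
    obtain ⟨t, ht, hty⟩ := Q2_F_surj hB y.2
    refine ⟨⟨t, ht⟩, ?_⟩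
    apply NNReal.coe_injective
    exact hty
  refine ⟨(hmono.orderIsoOfSurjective F hsurj).toHomeomorph, ?_⟩
  intro t
  rfl

theorem Q2_mQ {Q : ℝ} (hQ : 1 ≤ Q) (m : ℕ) : (m : ℝ) * Q ^ m ≤ (2 * Q) ^ m := by
  rw [mul_pow]
  apply mul_le_mul_of_nonneg_right _ (by positivity)
  exact_mod_cast (Nat.lt_two_pow_self (n := m)).le

theorem Q2_large {Q : ℝ} (hQ : 1 ≤ Q) {t : ℝ} (ht : 0 < t) (ht2 : t⁻¹ ≤ (2 * Q) ^ 2)
    {m : ℕ} (hm : (m : ℝ) ≤ t + 1) : (m : ℝ) * Q ^ m ≤ Q2_F (2 * Q) t := by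
  have hB : 2 ≤ 2 * Q := by linarith
  have h0 := Q2_log_pos ht
  have hle : Real.log (1 + t⁻¹) ≤ Real.log (1 + (2 * Q) ^ 2) := by
    apply Real.log_le_log
    · have := inv_pos.mpr ht; linarith
    · linarith
  calc (m : ℝ) * Q ^ m ≤ (2 * Q) ^ m := Q2_mQ hQ m
    _ = (2 * Q) ^ (m : ℝ) := (Real.rpow_natCast _ _).symm
    _ ≤ (2 * Q) ^ (t + 1) := Real.rpow_le_rpow_of_exponent_le (by linarith) hm
    _ = (2 * Q) ^ t * (2 * Q) := by rw [Real.rpow_add (by linarith), Real.rpow_one]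
    _ ≤ Q2_F (2 * Q) t := by
      unfold Q2_F
      rw [le_div_iff₀ h0]
      have h3 : 0 < (2 * Q) ^ t := Real.rpow_pos_of_pos (by linarith) t
      calc (2 * Q) ^ t * (2 * Q) * Real.log (1 + t⁻¹)
          ≤ (2 * Q) ^ t * (2 * Q) * Real.log (1 + (2 * Q) ^ 2) := by
            apply mul_le_mul_of_nonneg_left hle
            positivity
        _ = 2 * Q * Real.log (1 + (2 * Q) ^ 2) * (2 * Q) ^ t := by ring

theorem Q2_small {Q : ℝ} (hQ : 1 ≤ Q) {t : ℝ} (ht : 0 < t) (ht2 : (2 * Q) ^ 2 < t⁻¹)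
    {p q : ℝ} (hp : 0 < p) (hq : 0 < q)
    (h : ∀ m : ℕ, 1 ≤ m → q ≤ m * p → 1 ≤ m * Q ^ m * t) : p ≤ Q2_F (2 * Q) t * q := by
  have hB : 2 ≤ 2 * Q := by linarith
  set B : ℝ := 2 * Q with hBdef
  have hB0 : 0 < B := by linarith
  have h0 := Q2_log_pos ht
  have hlogB : 0 < Real.log B := Real.log_pos (by linarith)
  have hti : 0 < t⁻¹ := inv_pos.mpr ht
  have hlogt : 2 * Real.log B < Real.log t⁻¹ := by
    have := Real.log_lt_log (by positivity) ht2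
    rwa [Real.log_pow, Nat.cast_ofNat] at this
  have hτ : 0 < q / p := div_pos hq hp
  have hm1 : 1 ≤ ⌈q / p⌉₊ := Nat.one_le_iff_ne_zero.mpr (Nat.ceil_pos.mpr hτ).ne'
  have hq1 : q ≤ ⌈q / p⌉₊ * p := by
    have := Nat.le_ceil (q / p)
    rwa [div_le_iff₀ hp] at this
  have hmt := h _ hm1 hq1
  have hceil : ((⌈q / p⌉₊ : ℕ) : ℝ) ≤ q / p + 1 := (Nat.ceil_lt_add_one hτ.le).le
  have hB1 : t⁻¹ ≤ B ^ (q / p + 1) := by
    calc t⁻¹ = 1 * t⁻¹ := by ring
      _ ≤ (⌈q / p⌉₊ * Q ^ ⌈q / p⌉₊ * t) * t⁻¹ := mul_le_mul_of_nonneg_right hmt hti.le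
      _ = ⌈q / p⌉₊ * Q ^ ⌈q / p⌉₊ := by field_simp
      _ ≤ B ^ ⌈q / p⌉₊ := Q2_mQ hQ _
      _ = B ^ ((⌈q / p⌉₊ : ℕ) : ℝ) := (Real.rpow_natCast _ _).symm
      _ ≤ B ^ (q / p + 1) := Real.rpow_le_rpow_of_exponent_le (by linarith) hceil
  have hlog2 : Real.log t⁻¹ ≤ (q / p + 1) * Real.log B := by
    have := Real.log_le_log hti hB1
    rwa [Real.log_rpow hB0] at this
  have hkey : p * Real.log t⁻¹ ≤ 2 * Real.log B * q := by
    have h1 : Real.log t⁻¹ ≤ 2 * (q / p) * Real.log B := by nlinarith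
    have h2 := mul_le_mul_of_nonneg_left h1 hp.le
    calc p * Real.log t⁻¹ ≤ p * (2 * (q / p) * Real.log B) := h2
      _ = 2 * Real.log B * q := by field_simp
  -- lower bound of `F`
  have hlog3 : Real.log (1 + t⁻¹) ≤ 2 * Real.log t⁻¹ := by
    have : Real.log (1 + t⁻¹) ≤ Real.log (t⁻¹ ^ 2) := by
      apply Real.log_le_log (by linarith)
      have : 4 < t⁻¹ := by nlinarith
      nlinarith
    rwa [Real.log_pow, Nat.cast_ofNat] at this
  have hlt0 : 0 < Real.log t⁻¹ := by linarith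
  have hC : 4 * Real.log B ≤ B * Real.log (1 + B ^ 2) := by
    have h1 : Real.log (B ^ 2) ≤ Real.log (1 + B ^ 2) :=
      Real.log_le_log (by positivity) (by linarith)
    rw [Real.log_pow, Nat.cast_ofNat] at h1
    nlinarith
  have hBt : 1 ≤ B ^ t := Real.one_le_rpow (by linarith) ht.le
  have hF : 2 * Real.log B / Real.log t⁻¹ ≤ Q2_F B t := by
    unfold Q2_F
    rw [div_le_div_iff₀ hlt0 h0]
    have h5 : 4 * Real.log B * 1 ≤ B * Real.log (1 + B ^ 2) * B ^ t :=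
      mul_le_mul hC hBt zero_le_one (Q2_C_pos hB).le
    calc 2 * Real.log B * Real.log (1 + t⁻¹) ≤ 2 * Real.log B * (2 * Real.log t⁻¹) :=
          mul_le_mul_of_nonneg_left hlog3 (by positivity)
      _ = (4 * Real.log B * 1) * Real.log t⁻¹ := by ring
      _ ≤ (B * Real.log (1 + B ^ 2) * B ^ t) * Real.log t⁻¹ :=
          mul_le_mul_of_nonneg_right h5 hlt0.le
  calc p = p * Real.log t⁻¹ / Real.log t⁻¹ := (mul_div_cancel_right₀ p hlt0.ne').symm
    _ ≤ 2 * Real.log B * q / Real.log t⁻¹ := div_le_div_of_nonneg_right hkey hlt0.le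
    _ = 2 * Real.log B / Real.log t⁻¹ * q := by ring
    _ ≤ Q2_F B t * q := mul_le_mul_of_nonneg_right hF hq.le

theorem exists_eta (Q : ℝ) (hQ : 1 ≤ Q) : ∃ η : ℝ≥0 ≃ₜ ℝ≥0, ∀ (X : Type) [MetricSpace X]
    (f g : X → X), (∀ x, g (f x) = x) →
    (∀ m : ℕ, 1 ≤ m → ∀ x a b : X, dist x a ≤ m * dist x b →
      dist (f x) (f a) ≤ m * Q ^ m * dist (f x) (f b)) →
    (∀ m : ℕ, 1 ≤ m → ∀ x a b : X, dist x a ≤ m * dist x b →
      dist (g x) (g a) ≤ m * Q ^ m * dist (g x) (g b)) → IsQS η f := by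
  have hB : 2 ≤ 2 * Q := by linarith
  obtain ⟨η, hη⟩ := Q2_homeo hB
  refine ⟨η, ?_⟩
  intro X _ f g hgf hf hg t ht x a b hab
  rw [hη t]
  have ht' : (0 : ℝ) < (t : ℝ) := by exact_mod_cast ht
  by_cases hxb : x = b
  · subst hxb
    rw [dist_self, mul_zero] at hab
    have hxa : x = a := dist_le_zero.mp hab
    subst hxa
    simp
  have hdb : 0 < dist x b := dist_pos.mpr hxb
  have hfxb : f x ≠ f b := by
    intro h
    apply hxb
    rw [← hgf x, ← hgf b, h]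
  have hq : 0 < dist (f x) (f b) := dist_pos.mpr hfxb
  by_cases hcase : (t : ℝ)⁻¹ ≤ (2 * Q) ^ 2
  · have hm1 : 1 ≤ ⌈(t : ℝ)⌉₊ := Nat.one_le_iff_ne_zero.mpr (Nat.ceil_pos.mpr ht').ne'
    have h1 : dist x a ≤ ⌈(t : ℝ)⌉₊ * dist x b :=
      hab.trans (mul_le_mul_of_nonneg_right (Nat.le_ceil _) hdb.le)
    have h2 := hf _ hm1 x a b h1
    refine h2.trans (mul_le_mul_of_nonneg_right ?_ hq.le)
    exact Q2_large hQ ht' hcase (Nat.ceil_lt_add_one ht'.le).le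
  · push Not at hcase
    rcases (dist_nonneg : 0 ≤ dist (f x) (f a)).eq_or_lt with hp | hp
    · rw [← hp]
      exact mul_nonneg (Q2_F_nonneg hB ht'.le) hq.le
    · apply Q2_small hQ ht' hcase hp hq
      intro m hm hqm
      have h1 := hg m hm (f x) (f b) (f a) hqm
      rw [hgf, hgf, hgf] at h1
      have hmQ : (0 : ℝ) ≤ m * Q ^ m := by positivity
      have h2 : dist x b ≤ m * Q ^ m * (t * dist x b) :=
        h1.trans (mul_le_mul_of_nonneg_left hab hmQ)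
      have h3 : 1 * dist x b ≤ (m * Q ^ m * t) * dist x b := by
        rw [one_mul]; linarith
      exact le_of_mul_le_mul_right h3 hdb

end DF88
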