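import Pool.Agent.H88.DF.Defs

/-!
# B3 : volume radius
Paper proof. All elementary: `f '' S = g ⁻¹' S` is open if `S` is; `kap` is the volume of a
nonempty open bounded set; `volume (ball z r) = r^n * kap` is `Measure.addHaar_ball` (for `n = 0`
and `r = 0` look at both sides separately: `ball z 0 = ∅` and `0 ^ 0 = 1`, so `1 ≤ n` or `0 < r` is
assumed); `volume_eq_vr`: `vr S ^ n = |S| / kap` because `n ≥ 1`; images of balls are contained in
the compact image of a closed ball, hence have finite volume; monotonicity of `vr` from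
monotonicity of `volume`, `ENNReal.toReal` and `Real.rpow`.
-/

set_option autoImplicit false

open MeasureTheory Set Metric Filter
open scoped ENNReal Topology NNReal

namespace DF88

theorem KQ.isOpen_image {n : ℕ} {K : ℝ} {f g : E n → E n} (h : KQ n K f g) {S : Set (E n)}
    (hS : IsOpen S) : IsOpen (f '' S) := by
  have : f '' S = g ⁻¹' S := by
    rw [Set.image_eq_preimage_of_inverse (g := g) (f := f) h.gf h.fg]
  rw [this]
  exact hS.preimage h.hg.continuous

theorem kap_pos (n : ℕ) : 0 < kap n := measure_ball_pos volume 0 one_pos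

theorem kap_ne_top (n : ℕ) : kap n ≠ ⊤ := measure_ball_lt_top.ne

theorem volume_ball_kap {n : ℕ} (z : E n) {r : ℝ} (hr : 0 < r) :
    volume (ball z r) = ENNReal.ofReal (r ^ n) * kap n := by
  have := Measure.addHaar_ball_of_pos (volume : Measure (E n)) z hr
  rwa [finrank_euclideanSpace_fin] at this

theorem volume_closedBall_kap {n : ℕ} (hn : 1 ≤ n) (z : E n) {r : ℝ} (hr : 0 ≤ r) :
    volume (closedBall z r) = ENNReal.ofReal (r ^ n) * kap n := by
  have := Measure.addHaar_closedBall (volume : Measure (E n)) z hr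
  rwa [finrank_euclideanSpace_fin] at this

theorem vr_nonneg {n : ℕ} (S : Set (E n)) : 0 ≤ vr S :=
  Real.rpow_nonneg (by positivity) _

private theorem B3_kap_pos (n : ℕ) : 0 < (kap n).toReal :=
  ENNReal.toReal_pos (kap_pos n).ne' (kap_ne_top n)

private theorem B3_pow {n : ℕ} (hn : 1 ≤ n) {a : ℝ} (ha : 0 ≤ a) :
    (a ^ ((1 : ℝ) / n)) ^ n = a := by
  have hn0 : n ≠ 0 := by omega
  rw [one_div]
  exact Real.rpow_inv_natCast_pow ha hn0

theorem volume_eq_vr {n : ℕ} (hn : 1 ≤ n) {S : Set (E n)} (hS : volume S ≠ ⊤) :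
    volume S = ENNReal.ofReal (vr S ^ n) * kap n := by
  have h1 : vr S ^ n = (volume S).toReal / (kap n).toReal := by
    rw [vr]; exact B3_pow hn (by positivity)
  have hk := B3_kap_pos n
  have h2 : kap n = ENNReal.ofReal (kap n).toReal := (ENNReal.ofReal_toReal (kap_ne_top n)).symm
  rw [h1]
  conv_rhs => rw [h2]
  rw [ENNReal.toReal_ofReal hk.le, ← ENNReal.ofReal_mul (by positivity),
    div_mul_cancel₀ _ hk.ne', ENNReal.ofReal_toReal hS]

private theorem B3_vr_of {n : ℕ} (hn : 1 ≤ n) {S : Set (E n)} {r : ℝ} (hr : 0 ≤ r)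
    (h : volume S = ENNReal.ofReal (r ^ n) * kap n) : vr S = r := by
  have hk := B3_kap_pos n
  have hn0 : n ≠ 0 := by omega
  rw [vr, h, ENNReal.toReal_mul, ENNReal.toReal_ofReal (by positivity),
    mul_div_assoc, div_self hk.ne', mul_one, one_div]
  exact Real.pow_rpow_inv_natCast hr hn0

theorem vr_ball {n : ℕ} (hn : 1 ≤ n) (z : E n) {r : ℝ} (hr : 0 ≤ r) : vr (ball z r) = r := by
  rcases hr.eq_or_lt with h | h
  · subst h
    refine B3_vr_of hn le_rfl ?_
    have hn0 : n ≠ 0 := by omega
    rw [ball_zero, measure_empty, zero_pow hn0]; simp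
  · exact B3_vr_of hn hr (volume_ball_kap z h)

theorem vr_closedBall {n : ℕ} (hn : 1 ≤ n) (z : E n) {r : ℝ} (hr : 0 ≤ r) :
    vr (closedBall z r) = r := B3_vr_of hn hr (volume_closedBall_kap hn z hr)

theorem vr_mono {n : ℕ} {S T : Set (E n)} (h : S ⊆ T) (hT : volume T ≠ ⊤) : vr S ≤ vr T := by
  have hk := B3_kap_pos n
  refine Real.rpow_le_rpow (by positivity) ?_ (by positivity)
  exact div_le_div_of_nonneg_right (ENNReal.toReal_mono hT (measure_mono h)) hk.le

theorem volume_image_ball_ne_top {n : ℕ} {f : E n → E n} (hf : Continuous f) (z : E n) (r : ℝ) :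
    volume (f '' ball z r) ≠ ⊤ := by
  have h1 : IsCompact (f '' closedBall z r) := (isCompact_closedBall z r).image hf
  exact ((measure_mono (image_mono ball_subset_closedBall)).trans_lt h1.measure_lt_top).ne

theorem vr_image_ball_mono {n : ℕ} {f : E n → E n} (hf : Continuous f) {z z' : E n} {r r' : ℝ}
    (h : dist z z' + r ≤ r') : vr (f '' ball z r) ≤ vr (f '' ball z' r') := by
  refine vr_mono (image_mono (ball_subset_ball' ?_)) (volume_image_ball_ne_top hf z' r')
  linarith

theorem KQ.vr_pos {n : ℕ} {K : ℝ} {f g : E n → E n} (h : KQ n K f g) (hn : 1 ≤ n) (z : E n)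
    {r : ℝ} (hr : 0 < r) : 0 < vr (f '' ball z r) := by
  have hk := B3_kap_pos n
  have hpos : 0 < volume (f '' ball z r) :=
    (h.isOpen_image isOpen_ball).measure_pos volume ((nonempty_ball.2 hr).image f)
  refine Real.rpow_pos_of_pos ?_ _
  exact div_pos (ENNReal.toReal_pos hpos.ne' (volume_image_ball_ne_top h.hf.continuous z r)) hk

end DF88
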