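import Pool.Agent.H88.DF.B2
import Pool.Agent.H88.DF.B3

/-!
# A1 : averages of the norm of the derivative
Paper proof. `av (fun x => ‖fderiv f x‖) z r = (1/|B_1|) ∫_{B_1} ‖fderiv f (z + r u)‖ du
= (1/|B(z,r)|) ∫_{B(z,r)} ‖fderiv f x‖ dx` (substitution `x = z + r u`, or work with the integral
over `ball 0 1` throughout). By Jensen or Hoelder for the probability measure on the ball,
`av ‖Df‖ ≤ (av ‖Df‖^n)^(1/n) ≤ (I^n * kap / (r^n kap))^(1/n) = I / r`.
The second statement is the first with `I = K * vr (f '' ball z r)`, using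
`KQ.lintegral_norm_pow_le` and `volume_eq_vr` (and `KQ.one_le` for `0 ≤ K`).
-/

set_option autoImplicit false

open MeasureTheory Set Metric Filter
open scoped ENNReal Topology NNReal

namespace DF88

private theorem A1_jensen {n : ℕ} (hn : 1 ≤ n) {α F : Type*} [MeasurableSpace α]
    [NormedAddCommGroup F] (ν : Measure α) [IsProbabilityMeasure ν] {h : α → F}
    (hh : AEStronglyMeasurable h ν) :
    (∫⁻ t, ‖h t‖ₑ ∂ν) ^ n ≤ ∫⁻ t, ‖h t‖ₑ ^ n ∂ν := by
  have h1 := eLpNorm_le_eLpNorm_of_exponent_le (μ := ν) (p := 1) (q := (n : ℝ≥0∞))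
    (by exact_mod_cast hn) hh
  have hn0 : (n : ℝ≥0∞) ≠ 0 := by
    have : n ≠ 0 := by omega
    exact_mod_cast this
  rw [eLpNorm_one_eq_lintegral_enorm, eLpNorm_eq_lintegral_rpow_enorm_toReal hn0 (by simp)] at h1
  have h2 := pow_le_pow_left' h1 n
  have hn1 : (n : ℝ) ≠ 0 := by
    have : n ≠ 0 := by omega
    exact_mod_cast this
  rw [← ENNReal.rpow_natCast (_ ^ (1 / _)) n, ← ENNReal.rpow_mul] at h2
  simp only [ENNReal.toReal_natCast, one_div, ne_eq, hn1, not_false_eq_true, inv_mul_cancel₀,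
    ENNReal.rpow_one, ENNReal.rpow_natCast] at h2
  exact h2

private theorem A1_scale {n : ℕ} {φ : E n → ℝ≥0∞} (hφ : Measurable φ) (a : E n) {t : ℝ}
    (ht : 0 < t) : ∫⁻ y, φ (a + t • y) = ENNReal.ofReal (t ^ n)⁻¹ * ∫⁻ y, φ y := by
  have ht0 : t ≠ 0 := ht.ne'
  have hm : Measurable (fun w => φ (a + w)) := hφ.comp (measurable_const_add a)
  have h1 : ∫⁻ y, φ (a + t • y) = ∫⁻ w, φ (a + w) ∂(Measure.map (t • ·) (volume : Measure (E n))) := by
    rw [lintegral_map hm (measurable_const_smul t)]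
  rw [h1, Measure.map_addHaar_smul volume ht0, lintegral_smul_measure, lintegral_add_left_eq_self,
    smul_eq_mul, finrank_euclideanSpace_fin, abs_of_pos (by positivity)]

private theorem A1_ball {n : ℕ} {φ : E n → ℝ≥0∞} (hφ : Measurable φ) (z : E n) {r : ℝ}
    (hr : 0 < r) : ∫⁻ u in ball (0 : E n) 1, φ (z + r • u) =
      ENNReal.ofReal (r ^ n)⁻¹ * ∫⁻ y in ball z r, φ y := by
  rw [← lintegral_indicator measurableSet_ball, ← lintegral_indicator measurableSet_ball,
    ← A1_scale (hφ.indicator measurableSet_ball) z hr]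
  refine lintegral_congr fun u => ?_
  have h1 : z + r • u ∈ ball z r ↔ u ∈ ball (0 : E n) 1 := by
    rw [mem_ball, mem_ball, dist_self_add_left, dist_zero_right, norm_smul, Real.norm_eq_abs,
      abs_of_pos hr]
    constructor
    · intro h
      by_contra hc
      have := mul_le_mul_of_nonneg_left (not_lt.1 hc) hr.le
      linarith
    · intro h
      have := mul_lt_mul_of_pos_left h hr
      linarith
  by_cases hu : u ∈ ball (0 : E n) 1
  · rw [indicator_of_mem hu, indicator_of_mem (h1.2 hu)]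
  · rw [indicator_of_notMem hu, indicator_of_notMem (fun h => hu (h1.1 h))]

theorem av_norm_fderiv_le {n : ℕ} (hn : 1 ≤ n) {F : Type*} [NormedAddCommGroup F]
    [NormedSpace ℝ F] {f : E n → F} (hf : ContDiff ℝ 1 f) (z : E n) {r I : ℝ} (hr : 0 < r)
    (hI : 0 ≤ I)
    (h : ∫⁻ x in ball z r, ‖fderiv ℝ f x‖ₑ ^ n ≤ ENNReal.ofReal (I ^ n) * kap n) :
    av (fun x => ‖fderiv ℝ f x‖) z r ≤ I / r := by
  have hc : Continuous (fun x => fderiv ℝ f x) := hf.continuous_fderiv one_ne_zero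
  have hc2 : Continuous (fun u : E n => fderiv ℝ f (z + r • u)) := hc.comp (by fun_prop)
  have hk : (volume.restrict (ball (0 : E n) 1)) univ = kap n := by
    rw [Measure.restrict_apply_univ]; rfl
  have hne : NeZero (volume.restrict (ball (0 : E n) 1)) := ⟨by
    intro h0
    have h1 := kap_pos n
    rw [← hk, h0] at h1
    simp at h1⟩
  have hfin : IsFiniteMeasure (volume.restrict (ball (0 : E n) 1)) := ⟨by
    rw [hk]
    exact (kap_ne_top n).lt_top⟩
  have hJ := A1_jensen hn (((volume.restrict (ball (0 : E n) 1)) univ)⁻¹ •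
    (volume.restrict (ball (0 : E n) 1))) (h := fun u : E n => fderiv ℝ f (z + r • u))
    hc2.aestronglyMeasurable
  have hm : Measurable (fun x : E n => ‖fderiv ℝ f x‖ₑ ^ n) := hc.enorm.measurable.pow_const n
  have hk0 := (kap_pos n).ne'
  have h2 : ∫⁻ u, ‖fderiv ℝ f (z + r • u)‖ₑ ^ n
      ∂(((volume.restrict (ball (0 : E n) 1)) univ)⁻¹ • (volume.restrict (ball (0 : E n) 1))) ≤
      (ENNReal.ofReal (I / r)) ^ n := by
    rw [lintegral_smul_measure, hk, smul_eq_mul, A1_ball hm z hr]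
    calc (kap n)⁻¹ * (ENNReal.ofReal (r ^ n)⁻¹ * ∫⁻ y in ball z r, ‖fderiv ℝ f y‖ₑ ^ n)
        ≤ (kap n)⁻¹ * (ENNReal.ofReal (r ^ n)⁻¹ * (ENNReal.ofReal (I ^ n) * kap n)) := by
          gcongr
      _ = ((kap n)⁻¹ * kap n) * (ENNReal.ofReal (r ^ n)⁻¹ * ENNReal.ofReal (I ^ n)) := by ring
      _ = (ENNReal.ofReal (I / r)) ^ n := by
          rw [ENNReal.inv_mul_cancel hk0 (kap_ne_top n), one_mul,
            ← ENNReal.ofReal_mul (by positivity), ← ENNReal.ofReal_pow (by positivity), div_pow,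
            div_eq_inv_mul]
  have h3 := hJ.trans h2
  have h4 : ∫⁻ u, ‖fderiv ℝ f (z + r • u)‖ₑ
      ∂(((volume.restrict (ball (0 : E n) 1)) univ)⁻¹ • (volume.restrict (ball (0 : E n) 1))) ≤
      ENNReal.ofReal (I / r) := by
    by_contra hcon
    have h5 := ENNReal.pow_lt_pow_left (by omega : n ≠ 0) (not_le.1 hcon)
    exact absurd h3 (not_le.2 h5)
  unfold av average
  rw [integral_norm_eq_lintegral_enorm hc2.aestronglyMeasurable]
  exact ENNReal.toReal_le_of_le_ofReal (by positivity) h4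

theorem KQ.av_norm_le {n : ℕ} (hn : 1 ≤ n) {K : ℝ} {f g : E n → E n} (h : KQ n K f g)
    (z : E n) {r : ℝ} (hr : 0 < r) :
    av (fun x => ‖fderiv ℝ f x‖) z r ≤ K * vr (f '' ball z r) / r := by
  have hK : 0 ≤ K := le_trans zero_le_one (h.one_le hn)
  refine av_norm_fderiv_le hn h.hf z hr (mul_nonneg hK (vr_nonneg _)) ?_
  refine (h.lintegral_norm_pow_le measurableSet_ball).trans (le_of_eq ?_)
  rw [volume_eq_vr hn (volume_image_ball_ne_top h.hf.continuous z r), ← mul_assoc,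
    ← ENNReal.ofReal_mul (by positivity), mul_pow]

end DF88
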