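import Pool.Agent.H88.DF.Defs

/-!
# A2 : moving averages (Mathlib only)
Paper proof. Let `c s = z₀ + s (z₁ - z₀)`, `ρ s = r₀ + s (r₁ - r₀) > 0` for `s ∈ [0,1]`, and
`G s = av f (c s) (ρ s) = ⨍ u in ball 0 1, f (c s + ρ s u)`. Differentiate under the integral
(`hasDerivAt_integral_of_dominated_loc_of_deriv_le`; everything is bounded on compact sets since
`fderiv f` is continuous): `G' s = ⨍ u, fderiv f (c s + ρ s u) ((z₁ - z₀) + (r₁ - r₀) u)`,
`‖G' s‖ ≤ (‖z₁ - z₀‖ + |r₁ - r₀|) * ⨍ u, ‖fderiv f (c s + ρ s u)‖ ≤ (...) M`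
because `‖u‖ ≤ 1`. Mean value inequality on `[0,1]`
(`norm_image_sub_le_of_norm_deriv_le_segment'`). Alternative: for fixed `u`,
`‖f (c 1 + ρ 1 u) - f (c 0 + ρ 0 u)‖ ≤ ∫_0^1 ‖fderiv f (c s + ρ s u)‖ (...) ds`, average over `u`, Fubini.
`tendsto_av`: `f` is uniformly continuous near `z`: for `|r|` small,
`‖f (z + r u) - f z‖ ≤ ε` for all `u` in the unit ball, so `‖av f z r - f z‖ ≤ ε`.
(For `n = 0` the ball is everything and has volume 1; the statement is still fine.)
-/

set_option autoImplicit false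

open MeasureTheory Set Metric Filter
open scoped ENNReal Topology NNReal

namespace DF88

theorem A2_bound {n : ℕ} {G : Type*} [NormedAddCommGroup G] {h : E n → G}
    (hh : Continuous h) (R : ℝ) : ∃ C, 0 ≤ C ∧ ∀ x : E n, ‖x‖ ≤ R → ‖h x‖ ≤ C := by
  obtain ⟨C, hC⟩ := (isCompact_closedBall (0 : E n) R).exists_bound_of_continuousOn hh.continuousOn
  refine ⟨max C 0, le_max_right _ _, fun x hx => (hC x ?_).trans (le_max_left _ _)⟩
  simpa using hx

theorem A2_integrable {n : ℕ} {G : Type*} [NormedAddCommGroup G] {h : E n → G}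
    (hh : Continuous h) : IntegrableOn h (ball (0 : E n) 1) :=
  (hh.continuousOn.integrableOn_compact (isCompact_closedBall (0 : E n) 1)).mono_set
    ball_subset_closedBall

theorem norm_av_sub_av_le {n : ℕ} (hn : 1 ≤ n) {F : Type*} [NormedAddCommGroup F]
    [NormedSpace ℝ F] [CompleteSpace F] {f : E n → F} (hf : ContDiff ℝ 1 f) (z₀ z₁ : E n)
    {r₀ r₁ M : ℝ} (hr₀ : 0 < r₀) (hr₁ : 0 < r₁)
    (hM : ∀ s ∈ Icc (0 : ℝ) 1,
      av (fun x => ‖fderiv ℝ f x‖) (z₀ + s • (z₁ - z₀)) (r₀ + s * (r₁ - r₀)) ≤ M) :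
    ‖av f z₁ r₁ - av f z₀ r₀‖ ≤ (‖z₁ - z₀‖ + |r₁ - r₀|) * M := by
  have hfd : Continuous (fderiv ℝ f) := hf.continuous_fderiv one_ne_zero
  set P : ℝ → E n → E n := fun s u => (z₀ + s • (z₁ - z₀)) + (r₀ + s * (r₁ - r₀)) • u with hP
  set W : E n → E n := fun u => (z₁ - z₀) + (r₁ - r₀) • u with hW
  have hPc : ∀ s, Continuous (P s) := fun s => by fun_prop
  have hPd : ∀ u s, HasDerivAt (fun s => P s u) (W u) s := by
    intro u s
    have h1 : HasDerivAt (fun s : ℝ => z₀ + s • (z₁ - z₀)) ((1 : ℝ) • (z₁ - z₀)) s :=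
      ((hasDerivAt_id s).smul_const (z₁ - z₀)).const_add z₀
    have h2 : HasDerivAt (fun s : ℝ => r₀ + s * (r₁ - r₀)) (1 * (r₁ - r₀)) s :=
      ((hasDerivAt_id s).mul_const (r₁ - r₀)).const_add r₀
    have h3 := h1.add (h2.smul_const u)
    rw [one_smul, one_mul] at h3
    exact h3
  set D : ℝ := ‖z₁ - z₀‖ + |r₁ - r₀| with hD
  have hD0 : 0 ≤ D := by positivity
  have hWn : ∀ u ∈ ball (0 : E n) 1, ‖W u‖ ≤ D := by
    intro u hu
    have hu' : ‖u‖ ≤ 1 := by simpa using (mem_ball_zero_iff.1 hu).le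
    calc ‖W u‖ ≤ ‖z₁ - z₀‖ + ‖(r₁ - r₀) • u‖ := norm_add_le _ _
      _ ≤ ‖z₁ - z₀‖ + |r₁ - r₀| := by
          rw [norm_smul, Real.norm_eq_abs]
          have := mul_le_mul_of_nonneg_left hu' (abs_nonneg (r₁ - r₀))
          linarith
  have hFd : ∀ u s, HasDerivAt (fun s => f (P s u)) (fderiv ℝ f (P s u) (W u)) s := by
    intro u s
    have h1 : HasFDerivAt f (fderiv ℝ f (P s u)) (P s u) :=
      ((hf.differentiable one_ne_zero) _).hasFDerivAt
    exact h1.comp_hasDerivAt s (hPd u s)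
  have hder : ∀ s, HasDerivAt (fun s => ∫ u in ball (0 : E n) 1, f (P s u))
      (∫ u in ball (0 : E n) 1, fderiv ℝ f (P s u) (W u)) s := by
    intro s
    obtain ⟨C, hC0, hC⟩ := A2_bound hfd
      (‖z₀‖ + (|s| + 1) * ‖z₁ - z₀‖ + (|r₀| + (|s| + 1) * |r₁ - r₀|))
    refine (hasDerivAt_integral_of_dominated_loc_of_deriv_le (s := ball s 1)
      (bound := fun _ => C * D) (F' := fun s u => fderiv ℝ f (P s u) (W u))
      (ball_mem_nhds s one_pos) ?_ ?_ ?_ ?_ ?_ ?_).2
    · exact Eventually.of_forall fun x => (hf.continuous.comp (hPc x)).aestronglyMeasurable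
    · exact A2_integrable (hf.continuous.comp (hPc s))
    · apply Continuous.aestronglyMeasurable
      exact (hfd.comp (hPc s)).clm_apply (by fun_prop)
    · refine (ae_restrict_iff' measurableSet_ball).2 (Eventually.of_forall fun u hu x hx => ?_)
      have hu' : ‖u‖ ≤ 1 := by simpa using (mem_ball_zero_iff.1 hu).le
      have hx' : |x| ≤ |s| + 1 := by
        have h1 : |x - s| < 1 := by simpa [Real.dist_eq] using hx
        have h2 : |x| ≤ |x - s| + |s| := by
          have := abs_add_le (x - s) s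
          simpa using this
        linarith
      have hPn : ‖P x u‖ ≤ ‖z₀‖ + (|s| + 1) * ‖z₁ - z₀‖ + (|r₀| + (|s| + 1) * |r₁ - r₀|) := by
        refine (norm_add_le _ _).trans (add_le_add ((norm_add_le _ _).trans ?_) ?_)
        · rw [norm_smul, Real.norm_eq_abs]
          have := mul_le_mul_of_nonneg_right hx' (norm_nonneg (z₁ - z₀))
          linarith
        · rw [norm_smul, Real.norm_eq_abs]
          have h1 : |r₀ + x * (r₁ - r₀)| ≤ |r₀| + (|s| + 1) * |r₁ - r₀| := by
            refine (abs_add_le _ _).trans ?_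
            rw [abs_mul]
            have := mul_le_mul_of_nonneg_right hx' (abs_nonneg (r₁ - r₀))
            linarith
          calc |r₀ + x * (r₁ - r₀)| * ‖u‖ ≤ |r₀ + x * (r₁ - r₀)| * 1 :=
                mul_le_mul_of_nonneg_left hu' (abs_nonneg _)
            _ ≤ _ := by rw [mul_one]; exact h1
      exact ((fderiv ℝ f (P x u)).le_opNorm (W u)).trans
        (mul_le_mul (hC _ hPn) (hWn u hu) (norm_nonneg _) hC0)
    · exact A2_integrable continuous_const
    · exact Eventually.of_forall fun u x _ => hFd u x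
  set V : ℝ := (volume.restrict (ball (0 : E n) 1)).real univ with hV
  have hVinv : 0 ≤ V⁻¹ := inv_nonneg.2 measureReal_nonneg
  have havf : ∀ s, av f (z₀ + s • (z₁ - z₀)) (r₀ + s * (r₁ - r₀)) =
      V⁻¹ • ∫ u in ball (0 : E n) 1, f (P s u) := fun s => by
    unfold av
    rw [average_eq]
  have hbd : ∀ s ∈ Icc (0 : ℝ) 1,
      ‖V⁻¹ • ∫ u in ball (0 : E n) 1, fderiv ℝ f (P s u) (W u)‖ ≤ D * M := by
    intro s hs
    have h1 : ‖∫ u in ball (0 : E n) 1, fderiv ℝ f (P s u) (W u)‖ ≤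
        ∫ u in ball (0 : E n) 1, ‖fderiv ℝ f (P s u)‖ * D := by
      apply norm_integral_le_of_norm_le
      · exact A2_integrable (((hfd.comp (hPc s)).norm).mul continuous_const)
      · refine (ae_restrict_iff' measurableSet_ball).2 (Eventually.of_forall fun u hu => ?_)
        exact ((fderiv ℝ f (P s u)).le_opNorm (W u)).trans
          (mul_le_mul_of_nonneg_left (hWn u hu) (norm_nonneg _))
    have h2 := hM s hs
    unfold av at h2
    rw [average_eq] at h2
    rw [integral_mul_const] at h1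
    rw [norm_smul, Real.norm_eq_abs, abs_of_nonneg hVinv]
    calc V⁻¹ * ‖∫ u in ball (0 : E n) 1, fderiv ℝ f (P s u) (W u)‖
        ≤ V⁻¹ * ((∫ u in ball (0 : E n) 1, ‖fderiv ℝ f (P s u)‖) * D) :=
          mul_le_mul_of_nonneg_left h1 hVinv
      _ = D * (V⁻¹ * ∫ u in ball (0 : E n) 1, ‖fderiv ℝ f (P s u)‖) := by ring
      _ ≤ D * M := mul_le_mul_of_nonneg_left h2 hD0
  have key := norm_image_sub_le_of_norm_deriv_le_segment_01'
    (f := fun s => V⁻¹ • ∫ u in ball (0 : E n) 1, f (P s u))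
    (f' := fun s => V⁻¹ • ∫ u in ball (0 : E n) 1, fderiv ℝ f (P s u) (W u)) (C := D * M)
    (fun s _ => ((hder s).const_smul V⁻¹).hasDerivWithinAt)
    (fun s hs => hbd s ⟨hs.1, hs.2.le⟩)
  rw [← havf 1, ← havf 0] at key
  simpa using key

theorem tendsto_av {n : ℕ} {F : Type*} [NormedAddCommGroup F] [NormedSpace ℝ F]
    [CompleteSpace F] {f : E n → F} (hf : Continuous f) (z : E n) :
    Tendsto (fun r : ℝ => av f z r) (𝓝 0) (𝓝 (f z)) := by
  obtain ⟨C, hC0, hC⟩ := A2_bound hf (‖z‖ + 1)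
  have h1 : Tendsto (fun r : ℝ => ∫ u in ball (0 : E n) 1, f (z + r • u)) (𝓝 0)
      (𝓝 (∫ _u in ball (0 : E n) 1, f z)) := by
    apply tendsto_integral_filter_of_dominated_convergence (fun _ => C)
    · exact Eventually.of_forall fun r =>
        (hf.comp (by fun_prop : Continuous fun u : E n => z + r • u)).aestronglyMeasurable
    · filter_upwards [ball_mem_nhds (0 : ℝ) one_pos] with r hr
      refine (ae_restrict_iff' measurableSet_ball).2 (Eventually.of_forall fun u hu => ?_)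
      apply hC
      have hu' : ‖u‖ ≤ 1 := by simpa using (mem_ball_zero_iff.1 hu).le
      have hr' : ‖r‖ ≤ 1 := by simpa using (mem_ball_zero_iff.1 hr).le
      refine (norm_add_le _ _).trans (add_le_add le_rfl ?_)
      rw [norm_smul]
      exact mul_le_one₀ hr' (norm_nonneg _) hu'
    · exact A2_integrable continuous_const
    · refine Eventually.of_forall fun u => ?_
      have : Tendsto (fun r : ℝ => f (z + r • u)) (𝓝 0) (𝓝 (f (z + (0 : ℝ) • u))) :=
        (hf.comp (by fun_prop : Continuous fun r : ℝ => z + r • u)).tendsto 0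
      simpa using this
  have h2 := h1.const_smul ((volume.restrict (ball (0 : E n) 1)).real univ)⁻¹
  have h3 : ((volume.restrict (ball (0 : E n) 1)).real univ)⁻¹ • ∫ _u in ball (0 : E n) 1, f z = f z := by
    rw [← average_eq]
    have : NeZero (volume.restrict (ball (0 : E n) 1)) := by
      constructor
      rw [Ne, Measure.restrict_eq_zero]
      exact (measure_ball_pos volume 0 one_pos).ne'
    have : IsFiniteMeasure (volume.restrict (ball (0 : E n) 1)) :=
      ⟨by rw [Measure.restrict_apply_univ]; exact measure_ball_lt_top⟩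
    exact average_const _ _
  rw [h3] at h2
  refine h2.congr fun r => ?_
  unfold av
  rw [average_eq]

end DF88
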