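import Pool.Agent.H88.DF.B1

/-!
# B2 : change of variables
Paper proof. `f` is injective (left inverse `g`) and `C¹`, `f '' univ = univ`:
`MeasureTheory.lintegral_abs_det_fderiv_eq_addHaar_image` and
`MeasureTheory.lintegral_image_eq_lintegral_abs_det_fderiv_mul` on `S` resp. `univ`.
`lintegral_norm_pow_le`: integrate `KQ.norm_pow_le` (B1) over `S` and use `volume_image`.
(`K ≥ 0` is not assumed; if `n = 0` everything is trivial because `K ^ 0 = 1`; if `n ≥ 1` then
`K ≥ 1` by B1.)
-/

set_option autoImplicit false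

open MeasureTheory Set Metric Filter
open scoped ENNReal Topology NNReal

namespace DF88

theorem B2_hasFDeriv {n : ℕ} {K : ℝ} {f g : E n → E n} (h : KQ n K f g) (x : E n)
    (S : Set (E n)) : HasFDerivWithinAt f (fderiv ℝ f x) S x :=
  ((h.hf.differentiable (by norm_num)) x).hasFDerivAt.hasFDerivWithinAt

theorem KQ.volume_image {n : ℕ} {K : ℝ} {f g : E n → E n} (h : KQ n K f g) {S : Set (E n)}
    (hS : MeasurableSet S) :
    volume (f '' S) = ∫⁻ x in S, ENNReal.ofReal |(fderiv ℝ f x).det| :=
  (lintegral_abs_det_fderiv_eq_addHaar_image volume hS (fun x _ => B2_hasFDeriv h x S)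
    (Function.LeftInverse.injective h.gf).injOn).symm

theorem KQ.lintegral_image {n : ℕ} {K : ℝ} {f g : E n → E n} (h : KQ n K f g)
    (F : E n → ℝ≥0∞) :
    ∫⁻ y, F y = ∫⁻ x, ENNReal.ofReal |(fderiv ℝ f x).det| * F (f x) := by
  have h1 := lintegral_image_eq_lintegral_abs_det_fderiv_mul volume MeasurableSet.univ
    (fun x _ => B2_hasFDeriv h x univ) (Function.LeftInverse.injective h.gf).injOn F
  have h2 : f '' univ = univ := by
    rw [image_univ]
    exact Function.Surjective.range_eq (Function.RightInverse.surjective h.fg)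
  rw [h2, Measure.restrict_univ] at h1
  exact h1

theorem KQ.lintegral_norm_pow_le {n : ℕ} {K : ℝ} {f g : E n → E n} (h : KQ n K f g)
    {S : Set (E n)} (hS : MeasurableSet S) :
    ∫⁻ x in S, ‖fderiv ℝ f x‖ₑ ^ n ≤ ENNReal.ofReal (K ^ n) * volume (f '' S) := by
  rw [h.volume_image hS, ← lintegral_const_mul' _ _ ENNReal.ofReal_ne_top]
  apply lintegral_mono
  intro x
  have hK : 0 ≤ K ^ n := by
    rcases Nat.eq_zero_or_pos n with h0 | h0
    · subst h0; simp
    · have := h.one_le h0
      positivity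
  simp only
  rw [← ENNReal.ofReal_mul hK, ← ofReal_norm, ← ENNReal.ofReal_pow (norm_nonneg _)]
  exact ENNReal.ofReal_le_ofReal (h.norm_pow_le x)

end DF88
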