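import Pool.Agent.H88.DF.G1

/-!
# G2 : isoperimetric (Gagliardo-Nirenberg) inequality with the sharp order in the dimension
Paper proof. Transport to `Fin n → ℝ` by the volume preserving `WithLp.ofLp`
(`EuclideanSpace.volume_preserving_symm_measurableEquiv_toLp` or the present name): put
`v x = u (toLp 2 x)`. Let `D i x = ‖fderiv u (toLp 2 x) (basis vector i)‖ₑ`, the size of the
derivative of `v` in the coordinate direction `i`. For compactly supported `C¹` functions the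
fundamental theorem of calculus gives `‖v x‖ₑ ≤ ∫⁻ t, D i (update x i t)` for every `i`
(see the proof of `MeasureTheory.lintegral_pow_le_pow_lintegral_fderiv_aux` in Mathlib, which uses
`HasCompactSupport.enorm_le_lintegral_Ici_deriv`). On the set `A = {1 ≤ v}` therefore
`1 ≤ ∏ i, (∫⁻ t, D i (update x i t))^(1/(n-1))`; integrate and apply `loomis_whitney`:
`|A| ≤ ∏ i, (∫⁻ D i)^(1/(n-1))`. Raise to the power `(n-1)/n`:
`|A|^((n-1)/n) ≤ ∏ i, (∫⁻ D i)^(1/n) ≤ (1/n) ∑ i, ∫⁻ D i` by the AM-GM inequality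
(`ENNReal.inner_le...` or `Real.inner_le...`; e.g. `Real.inner_mul_le_norm_mul_norm` is not needed,
use `ENNReal.geom_mean_le_arith_mean_weighted`-type lemmas, or reduce to real numbers when all
integrals are finite, which they are, because `u` is `C¹` with compact support).
Finally `∑ i, D i ≤ √n * ‖fderiv u‖` by Cauchy-Schwarz: for a linear functional `ℓ` on `E n`,
`∑ |ℓ (e i)| ≤ √n * √(∑ |ℓ(e i)|^2) = √n * ‖ℓ‖` (or: `∑ |ℓ(e i)| = ℓ (∑ ± e i) ≤ ‖ℓ‖ √n`).
So the result is `≤ (1/n) √n ∫⁻ ‖fderiv u‖ = (1/√n) ∫⁻ ‖fderiv u‖`.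
-/

set_option autoImplicit false

open MeasureTheory Set Metric Filter
open scoped ENNReal Topology NNReal

namespace DF88

/-- AM-GM in `ℝ≥0∞` -/
private theorem G2_amgm {n : ℕ} (hn : 0 < n) (a : Fin n → ℝ≥0∞) :
    ∏ i, a i ^ ((1 : ℝ) / n) ≤ ENNReal.ofReal (1 / n) * ∑ i, a i := by
  have hn' : (0 : ℝ) < n := by exact_mod_cast hn
  by_cases h : ∃ i, a i = ∞
  · obtain ⟨i, hi⟩ := h
    have : ∑ i, a i = ∞ := by
      rw [ENNReal.sum_eq_top]
      exact ⟨i, Finset.mem_univ _, hi⟩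
    rw [this, ENNReal.mul_top]
    · exact le_top
    · rw [Ne, ENNReal.ofReal_eq_zero, not_le]
      positivity
  · push Not at h
    lift a to Fin n → ℝ≥0 using h
    obtain ⟨w, hw⟩ : ∃ w : ℝ≥0, (w : ℝ) = 1 / n := ⟨⟨(1 : ℝ) / n, by positivity⟩, rfl⟩
    have h1 := NNReal.geom_mean_le_arith_mean_weighted (Finset.univ : Finset (Fin n))
      (fun _ => w) a (by
        rw [← NNReal.coe_inj]
        push_cast
        rw [Finset.sum_const, Finset.card_univ, Fintype.card_fin, nsmul_eq_mul, hw]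
        field_simp)
    rw [← Finset.mul_sum] at h1
    rw [← hw, ENNReal.ofReal_coe_nnreal]
    have h3 : ∏ i, (a i : ℝ≥0∞) ^ (w : ℝ) = ((∏ i, a i ^ (w : ℝ) : ℝ≥0) : ℝ≥0∞) := by
      push_cast
      refine Finset.prod_congr rfl fun i _ => ?_
      rw [ENNReal.coe_rpow_of_nonneg _ w.coe_nonneg]
    have h4 : ∑ i, (a i : ℝ≥0∞) = ((∑ i, a i : ℝ≥0) : ℝ≥0∞) := by push_cast; rfl
    rw [h3, h4, ← ENNReal.coe_mul, ENNReal.coe_le_coe]
    exact h1

/-- the fundamental theorem of calculus along a line -/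
private theorem G2_line {n : ℕ} {v : (Fin n → ℝ) → ℝ} (hv : ContDiff ℝ 1 v)
    (h2v : HasCompactSupport v) (x : Fin n → ℝ) (i : Fin n) :
    ‖v x‖ₑ ≤ ∫⁻ t : ℝ, ‖fderiv ℝ v (Function.update x i t) (Pi.single i 1)‖ₑ := by
  calc ‖v x‖ₑ
    _ ≤ ∫⁻ t in Iic (x i), ‖deriv (v ∘ Function.update x i) t‖ₑ := by
        apply le_trans (by simp) (HasCompactSupport.enorm_le_lintegral_Ici_deriv _ _ _)
        · exact hv.comp (by convert! contDiff_update 1 x i)
        · exact h2v.comp_isClosedEmbedding (isClosedEmbedding_update x i)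
    _ ≤ ∫⁻ t, ‖deriv (v ∘ Function.update x i) t‖ₑ :=
        lintegral_mono' Measure.restrict_le_self le_rfl
    _ = ∫⁻ t : ℝ, ‖fderiv ℝ v (Function.update x i t) (Pi.single i 1)‖ₑ := by
        refine lintegral_congr fun t => ?_
        rw [fderiv_comp_deriv _ (hv.differentiable one_ne_zero).differentiableAt
          (hasDerivAt_update x i t).differentiableAt, deriv_update]

/-- the inequality on `Fin n → ℝ` -/
private theorem G2_aux {n : ℕ} (hn : 2 ≤ n) {v : (Fin n → ℝ) → ℝ} (hv : ContDiff ℝ 1 v)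
    (h2v : HasCompactSupport v) :
    (volume {x | 1 ≤ v x}) ^ (((n : ℝ) - 1) / n)
      ≤ ENNReal.ofReal (1 / n) * ∑ i, ∫⁻ x, ‖fderiv ℝ v x (Pi.single i 1)‖ₑ := by
  have hn0 : (0 : ℝ) < n := by positivity
  have hn1 : (0 : ℝ) < (n : ℝ) - 1 := by
    have : (2 : ℝ) ≤ n := by exact_mod_cast hn
    linarith
  have hmeas : ∀ i : Fin n, Measurable fun x => ‖fderiv ℝ v x (Pi.single i 1)‖ₑ := by
    intro i
    have := (hv.continuous_fderiv one_ne_zero).clm_apply
      (continuous_const (y := (Pi.single i (1 : ℝ) : Fin n → ℝ)))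
    exact this.measurable.enorm
  have h1 : volume {x | 1 ≤ v x} ≤ ∏ i, (∫⁻ x, ‖fderiv ℝ v x (Pi.single i 1)‖ₑ)
      ^ ((1 : ℝ) / (n - 1)) := by
    have hA : MeasurableSet {x | 1 ≤ v x} := measurableSet_le measurable_const hv.continuous.measurable
    rw [← lintegral_indicator_one hA]
    have hlw := loomis_whitney (ι := Fin n) (by rw [Fintype.card_fin]; exact hn)
      (fun i x => ‖fderiv ℝ v x (Pi.single i 1)‖ₑ) hmeas
    rw [Fintype.card_fin] at hlw
    refine le_trans (lintegral_mono fun x => ?_) hlw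
    by_cases hx : x ∈ {x | 1 ≤ v x}
    · rw [indicator_of_mem hx]
      have : ∀ i : Fin n, (1 : ℝ≥0∞) ≤ (∫⁻ t : ℝ, ‖fderiv ℝ v (Function.update x i t)
          (Pi.single i 1)‖ₑ) ^ ((1 : ℝ) / (n - 1)) := by
        intro i
        apply ENNReal.one_le_rpow _ (by positivity)
        refine le_trans ?_ (G2_line hv h2v x i)
        have h1 : (1 : ℝ) ≤ v x := hx
        rw [Real.enorm_eq_ofReal (by linarith), ENNReal.one_le_ofReal]
        exact h1
      show (1 : ℝ≥0∞) ≤ _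
      exact Finset.one_le_prod' fun i _ => this i
    · rw [indicator_of_notMem hx]
      exact zero_le
  calc (volume {x | 1 ≤ v x}) ^ (((n : ℝ) - 1) / n)
      ≤ (∏ i, (∫⁻ x, ‖fderiv ℝ v x (Pi.single i 1)‖ₑ) ^ ((1 : ℝ) / (n - 1)))
        ^ (((n : ℝ) - 1) / n) := ENNReal.rpow_le_rpow h1 (by positivity)
    _ = ∏ i, (∫⁻ x, ‖fderiv ℝ v x (Pi.single i 1)‖ₑ) ^ ((1 : ℝ) / n) := by
        rw [← ENNReal.prod_rpow_of_nonneg (by positivity)]
        refine Finset.prod_congr rfl fun i _ => ?_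
        rw [← ENNReal.rpow_mul]
        congr 1
        field_simp
    _ ≤ _ := G2_amgm (by omega) _

/-- `∑ |ℓ (e i)| ≤ √n ‖ℓ‖` -/
private theorem G2_cs {n : ℕ} (ℓ : E n →L[ℝ] ℝ) :
    ∑ i, ‖ℓ (WithLp.toLp 2 (Pi.single i 1))‖ₑ ≤ ENNReal.ofReal (√n) * ‖ℓ‖ₑ := by
  have h1 : ∑ i, |ℓ (WithLp.toLp 2 (Pi.single i 1))| ≤ √n * ‖ℓ‖ := by
    set s : Fin n → ℝ := fun i => if 0 ≤ ℓ (WithLp.toLp 2 (Pi.single i 1)) then 1 else -1 with hs
    have e1 : ∑ i, |ℓ (WithLp.toLp 2 (Pi.single i 1))| = ℓ (WithLp.toLp 2 s) := by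
      have e2 : WithLp.toLp 2 s = ∑ i, s i • (WithLp.toLp 2 (Pi.single i (1 : ℝ)) : E n) := by
        ext j
        rw [WithLp.ofLp_sum, Finset.sum_apply]
        simp
      rw [e2, map_sum]
      refine Finset.sum_congr rfl fun i _ => ?_
      rw [map_smul, smul_eq_mul, hs]
      dsimp only
      split_ifs with h
      · rw [abs_of_nonneg h, one_mul]
      · rw [abs_of_neg (not_le.mp h)]; ring
    rw [e1]
    have e3 : ‖(WithLp.toLp 2 s : E n)‖ = √n := by
      rw [EuclideanSpace.norm_eq]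
      congr 1
      have : ∀ i, ‖s i‖ ^ 2 = 1 := by
        intro i
        rw [hs]
        dsimp only
        split_ifs <;> simp
      simp only [this]
      simp
    calc ℓ (WithLp.toLp 2 s) ≤ ‖ℓ (WithLp.toLp 2 s)‖ := le_abs_self _
      _ ≤ ‖ℓ‖ * ‖(WithLp.toLp 2 s : E n)‖ := ℓ.le_opNorm _
      _ = √n * ‖ℓ‖ := by rw [e3, mul_comm]
  have h2 : ∑ i, ‖ℓ (WithLp.toLp 2 (Pi.single i 1))‖ₑ
      = ENNReal.ofReal (∑ i, |ℓ (WithLp.toLp 2 (Pi.single i 1))|) := by
    rw [ENNReal.ofReal_sum_of_nonneg fun i _ => abs_nonneg _]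
    refine Finset.sum_congr rfl fun i _ => ?_
    rw [← ofReal_norm, Real.norm_eq_abs]
  rw [h2, ← ofReal_norm, ← ENNReal.ofReal_mul (Real.sqrt_nonneg _)]
  exact ENNReal.ofReal_le_ofReal h1

theorem gns {n : ℕ} (hn : 2 ≤ n) {u : E n → ℝ} (hu : ContDiff ℝ 1 u) (hc : HasCompactSupport u) :
    (volume {x | 1 ≤ u x}) ^ (((n : ℝ) - 1) / n)
      ≤ ENNReal.ofReal (1 / √n) * ∫⁻ x, ‖fderiv ℝ u x‖ₑ := by
  let e : (Fin n → ℝ) ≃L[ℝ] E n := (PiLp.continuousLinearEquiv 2 ℝ (fun _ : Fin n => ℝ)).symm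
  have he : ∀ x, e x = WithLp.toLp 2 x := fun x => rfl
  let v : (Fin n → ℝ) → ℝ := u ∘ e
  have hv : ContDiff ℝ 1 v := hu.comp e.contDiff
  have h2v : HasCompactSupport v := hc.comp_homeomorph e.toHomeomorph
  have hmp := (EuclideanSpace.volume_preserving_symm_measurableEquiv_toLp (Fin n)).symm
  have hme : ∀ x, (MeasurableEquiv.toLp 2 (Fin n → ℝ)).symm.symm x = WithLp.toLp 2 x := fun x => rfl
  have h1 := G2_aux hn hv h2v
  have hvol : volume {x | 1 ≤ v x} = volume {x | 1 ≤ u x} := by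
    have := hmp.measure_preimage (s := {x | 1 ≤ u x})
      (measurableSet_le measurable_const hu.continuous.measurable).nullMeasurableSet
    rw [← this]
    rfl
  rw [hvol] at h1
  refine h1.trans ?_
  have hfd : ∀ x i, fderiv ℝ v x (Pi.single i 1)
      = fderiv ℝ u (WithLp.toLp 2 x) (WithLp.toLp 2 (Pi.single i 1)) := by
    intro x i
    have : fderiv ℝ v x = (fderiv ℝ u (e x)).comp (e : (Fin n → ℝ) →L[ℝ] E n) := by
      rw [fderiv_comp x (hu.differentiable one_ne_zero _) e.differentiableAt, e.fderiv]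
    rw [this]
    rfl
  have hmeas : ∀ i : Fin n, Measurable fun x => ‖fderiv ℝ v x (Pi.single i 1)‖ₑ := by
    intro i
    have := (hv.continuous_fderiv one_ne_zero).clm_apply
      (continuous_const (y := (Pi.single i (1 : ℝ) : Fin n → ℝ)))
    exact this.measurable.enorm
  rw [← lintegral_finsetSum _ fun i _ => hmeas i]
  have hmu : Measurable fun x => ‖fderiv ℝ u x‖ₑ :=
    (hu.continuous_fderiv one_ne_zero).measurable.enorm
  have h3 : ∫⁻ x, ∑ i, ‖fderiv ℝ v x (Pi.single i 1)‖ₑ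
      ≤ ENNReal.ofReal (√n) * ∫⁻ x, ‖fderiv ℝ u x‖ₑ := by
    have h4 : Measurable fun a : Fin n → ℝ =>
        ‖fderiv ℝ u ((MeasurableEquiv.toLp 2 (Fin n → ℝ)).symm.symm a)‖ₑ := hmu.comp hmp.measurable
    rw [← hmp.lintegral_comp hmu, ← lintegral_const_mul _ h4]
    refine lintegral_mono fun x => ?_
    simp only [hfd]
    exact G2_cs _
  calc ENNReal.ofReal (1 / n) * ∫⁻ x, ∑ i, ‖fderiv ℝ v x (Pi.single i 1)‖ₑ
      ≤ ENNReal.ofReal (1 / n) * (ENNReal.ofReal (√n) * ∫⁻ x, ‖fderiv ℝ u x‖ₑ) := by gcongr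
    _ = ENNReal.ofReal (1 / √n) * ∫⁻ x, ‖fderiv ℝ u x‖ₑ := by
        rw [← mul_assoc, ← ENNReal.ofReal_mul (by positivity)]
        congr 2
        have hn0 : (0 : ℝ) < n := by positivity
        have := Real.mul_self_sqrt hn0.le
        have h0 : 0 < √(n : ℝ) := Real.sqrt_pos.mpr hn0
        field_simp
        nlinarith

end DF88
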