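import Pool.Agent.H88.DF.B3

/-!
# G3 : the volume of the unit ball is at most `(5/√n)^n`
Paper proof. `∫ exp(-π ‖x‖^2) dx = 1` (`GaussianFourier.integral_rexp_neg_mul_sq_norm`:
`∫ exp(-b ‖v‖^2) = (π/b)^(n/2)`); on `ball 0 r` the integrand is `≥ exp(-π r^2)`, so
`|ball 0 r| ≤ exp(π r^2)`. With `r^2 = n/(2π)`: `r^n * kap n ≤ exp(n/2)`, i.e.
`kap n ≤ (exp(1/2) * √(2π) / √n)^n`, and `exp(1/2) √(2π) = √(2 π e) ≤ 5` because
`2 π e < 2 * 3.15 * 2.72 < 25`.
-/

set_option autoImplicit false

open MeasureTheory Set Metric Filter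
open scoped ENNReal Topology NNReal

namespace DF88

theorem kap_le {n : ℕ} (hn : 1 ≤ n) : kap n ≤ ENNReal.ofReal ((5 / √n) ^ n) := by
  have hn0 : (0 : ℝ) < n := by exact_mod_cast hn
  have hpi := Real.pi_pos
  set r : ℝ := √(n / (2 * Real.pi)) with hr
  have hr0 : 0 < r := Real.sqrt_pos.mpr (by positivity)
  have hr2 : r ^ 2 = n / (2 * Real.pi) := Real.sq_sqrt (by positivity)
  have hgauss : ∫ v : E n, Real.exp (-Real.pi * ‖v‖ ^ 2) = 1 := by
    rw [GaussianFourier.integral_rexp_neg_mul_sq_norm hpi, div_self hpi.ne', Real.one_rpow]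
  have hint : Integrable (fun v : E n => Real.exp (-Real.pi * ‖v‖ ^ 2)) := by
    apply Integrable.of_integral_ne_zero
    rw [hgauss]
    norm_num
  have hfin : volume (ball (0 : E n) r) ≠ ⊤ := measure_ball_lt_top.ne
  have h1 : Real.exp (-(n / 2)) * (volume (ball (0 : E n) r)).toReal ≤ 1 := by
    calc Real.exp (-(n / 2)) * (volume (ball (0 : E n) r)).toReal
        = ∫ _v in ball (0 : E n) r, Real.exp (-((n : ℝ) / 2)) := by
          rw [setIntegral_const, smul_eq_mul, mul_comm]
          rfl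
      _ ≤ ∫ v in ball (0 : E n) r, Real.exp (-Real.pi * ‖v‖ ^ 2) := by
          refine setIntegral_mono_on (integrableOn_const hfin) hint.integrableOn measurableSet_ball ?_
          intro v hv
          rw [mem_ball_zero_iff] at hv
          apply Real.exp_le_exp.mpr
          have h2 : ‖v‖ ^ 2 ≤ r ^ 2 := pow_le_pow_left₀ (norm_nonneg v) hv.le 2
          rw [hr2, le_div_iff₀ (by positivity)] at h2
          linarith
      _ ≤ ∫ v : E n, Real.exp (-Real.pi * ‖v‖ ^ 2) :=
          setIntegral_le_integral hint (Filter.Eventually.of_forall fun v => (Real.exp_pos _).le)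
      _ = 1 := hgauss
  have hkt := kap_ne_top n
  rw [volume_ball_kap _ hr0, ENNReal.toReal_mul, ENNReal.toReal_ofReal (by positivity)] at h1
  have h3 : Real.exp (1 / 2) * √n ≤ 5 * r := by
    have h4 : (Real.exp (1 / 2) * √n) ^ 2 ≤ (5 * r) ^ 2 := by
      rw [mul_pow, mul_pow, Real.sq_sqrt hn0.le, hr2, ← Real.exp_nat_mul]
      have h5 : Real.exp (((2 : ℕ) : ℝ) * (1 / 2)) = Real.exp 1 := by norm_num
      rw [h5]
      have h6 := Real.exp_one_lt_d9
      have h7 := Real.pi_lt_d2
      have h8 : Real.exp 1 * (2 * Real.pi) ≤ 25 := by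
        nlinarith [Real.exp_pos 1]
      rw [← mul_div_assoc, le_div_iff₀ (by positivity)]
      nlinarith
    exact (abs_le_of_sq_le_sq' h4 (by positivity)).2
  have h9 : Real.exp (1 / 2) / r ≤ 5 / √n := by
    rw [div_le_div_iff₀ hr0 (Real.sqrt_pos.mpr hn0)]
    exact h3
  have h10 : (kap n).toReal ≤ (5 / √n) ^ n := by
    calc (kap n).toReal ≤ (Real.exp (1 / 2) / r) ^ n := by
          rw [div_pow, le_div_iff₀ (by positivity), ← Real.exp_nat_mul]
          have h11 : Real.exp ((n : ℝ) * (1 / 2)) * Real.exp (-(n / 2)) = 1 := by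
            rw [← Real.exp_add]
            rw [show (n : ℝ) * (1 / 2) + -(n / 2) = 0 by ring, Real.exp_zero]
          calc (kap n).toReal * r ^ n
              = (Real.exp ((n : ℝ) * (1 / 2)) * Real.exp (-(n / 2))) * (r ^ n * (kap n).toReal) := by
                rw [h11]; ring
            _ = Real.exp ((n : ℝ) * (1 / 2)) * (Real.exp (-(n / 2)) * (r ^ n * (kap n).toReal)) := by
                ring
            _ ≤ Real.exp ((n : ℝ) * (1 / 2)) * 1 := by gcongr
            _ = _ := mul_one _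
      _ ≤ _ := by gcongr
  rw [← ENNReal.ofReal_toReal hkt]
  exact ENNReal.ofReal_le_ofReal h10

end DF88
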