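import Pool.Agent.H88.DF.Defs

/-!
# G4 : cutoff functions (Mathlib only)
Paper proof. Let `S = Real.smoothTransition` (smooth, `0` on `(-∞,0]`, `1` on `[1,∞)`, values in
`[0,1]`). Its derivative is continuous and vanishes outside `[0,1]`, so it is bounded by some
`M₀ ≥ 0`. Put `v x = S ((b^2 - ‖x - z‖^2) / (b^2 - a^2))`. It is `C¹` (the square of the norm is
smooth in an inner product space). `dist x z ≤ a` gives argument `≥ 1`; `dist x z ≥ b` gives
argument `≤ 0`. Gradient: it vanishes where `dist x z < a` (locally constant) or `dist x z ≥ b`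
(the derivative of `S` at arguments `≤ 0` is `0`); where `a ≤ dist x z ≤ b` its norm is at most
`M₀ * 2 ‖x - z‖ / (b^2 - a^2) ≤ 2 M₀ b / ((b-a)(b+a)) ≤ 2 M₀ / (b - a)`. Take `M = max 1 (2 M₀)`.
-/

set_option autoImplicit false

open MeasureTheory Set Metric Filter
open scoped ENNReal Topology NNReal

namespace DF88

theorem G4_deriv_zero {t : ℝ} (ht : t ≤ 0 ∨ 1 ≤ t) : deriv Real.smoothTransition t = 0 := by
  rcases ht with ht | ht
  · apply IsLocalMin.deriv_eq_zero
    apply Filter.Eventually.of_forall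
    intro s
    rw [Real.smoothTransition.zero_of_nonpos ht]
    exact Real.smoothTransition.nonneg s
  · apply IsLocalMax.deriv_eq_zero
    apply Filter.Eventually.of_forall
    intro s
    rw [Real.smoothTransition.one_of_one_le ht]
    exact Real.smoothTransition.le_one s

theorem G4_deriv_bound : ∃ M : ℝ, 0 ≤ M ∧ ∀ t, |deriv Real.smoothTransition t| ≤ M := by
  have hc : Continuous (deriv Real.smoothTransition) :=
    (Real.smoothTransition.contDiff (n := 1)).continuous_deriv (by norm_num)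
  obtain ⟨M, hM⟩ := (isCompact_Icc (a := (0 : ℝ)) (b := 1)).exists_bound_of_continuousOn
    hc.continuousOn
  refine ⟨M, (norm_nonneg _).trans (hM 0 (by simp)), ?_⟩
  intro t
  by_cases ht : t ∈ Icc (0 : ℝ) 1
  · exact hM t ht
  · have : t ≤ 0 ∨ 1 ≤ t := by
      by_contra hcon
      push Not at hcon
      exact ht ⟨hcon.1.le, hcon.2.le⟩
    rw [G4_deriv_zero this, abs_zero]
    exact (norm_nonneg _).trans (hM 0 (by simp))

/-- `M` is a universal bound for the gradient of the cutoff functions -/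
theorem exists_cutoff : ∃ M : ℝ, 1 ≤ M ∧ ∀ (n : ℕ) (z : E n) (a b : ℝ), 0 < a → a < b →
    ∃ v : E n → ℝ, ContDiff ℝ 1 v ∧ (∀ x, 0 ≤ v x) ∧ (∀ x, v x ≤ 1) ∧
      (∀ x, dist x z ≤ a → v x = 1) ∧ (∀ x, b ≤ dist x z → v x = 0) ∧
      (∀ x, ‖fderiv ℝ v x‖ ≤ M / (b - a)) ∧
      (∀ x, dist x z < a → fderiv ℝ v x = 0) ∧ (∀ x, b ≤ dist x z → fderiv ℝ v x = 0) := by
  obtain ⟨M₀, hM₀, hM⟩ := G4_deriv_bound
  refine ⟨max 1 (2 * M₀), le_max_left _ _, ?_⟩
  intro n z a b ha hab
  have hb : 0 < b := ha.trans hab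
  have hd : 0 < b ^ 2 - a ^ 2 := by nlinarith
  set φ : E n → ℝ := fun x => (b ^ 2 - ‖x - z‖ ^ 2) / (b ^ 2 - a ^ 2) with hφ
  have hφc : ContDiff ℝ 1 φ := by
    have h1 : ContDiff ℝ 1 fun x : E n => ‖x - z‖ ^ 2 :=
      (contDiff_id.sub contDiff_const).norm_sq ℝ
    exact (contDiff_const.sub h1).div_const _
  have hφd : ∀ x, HasFDerivAt φ ((b ^ 2 - a ^ 2)⁻¹ • (-((2 : ℝ) • innerSL ℝ (x - z)))) x := by
    intro x
    have h1 : HasFDerivAt (fun y : E n => ‖y‖ ^ 2) ((2 : ℝ) • innerSL ℝ (x - z)) (x - z) := by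
      refine ((hasStrictFDerivAt_norm_sq (x - z)).hasFDerivAt).congr_fderiv ?_
      rw [two_smul, two_smul]
    have h2 : HasFDerivAt (fun y : E n => y - z) (ContinuousLinearMap.id ℝ (E n)) x :=
      (hasFDerivAt_id x).sub_const z
    have h3 := h1.comp x h2
    rw [ContinuousLinearMap.comp_id] at h3
    have h4 := (h3.const_sub (b ^ 2)).const_mul ((b ^ 2 - a ^ 2)⁻¹)
    refine h4.congr_of_eventuallyEq (Filter.Eventually.of_forall fun y => ?_)
    simp [hφ, Function.comp, div_eq_inv_mul]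
  have hφn : ∀ x, ‖fderiv ℝ φ x‖ = (b ^ 2 - a ^ 2)⁻¹ * (2 * dist x z) := by
    intro x
    rw [(hφd x).fderiv, norm_smul, norm_neg, norm_smul, innerSL_apply_norm, dist_eq_norm,
      Real.norm_of_nonneg (by positivity), Real.norm_of_nonneg (by positivity)]
  have hle : ∀ x, dist x z ≤ a → 1 ≤ φ x := by
    intro x hx
    rw [hφ]
    simp only
    rw [one_le_div hd, ← dist_eq_norm]
    have := @dist_nonneg _ _ x z
    nlinarith
  have hge : ∀ x, b ≤ dist x z → φ x ≤ 0 := by
    intro x hx
    rw [hφ]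
    simp only
    apply div_nonpos_of_nonpos_of_nonneg _ hd.le
    rw [← dist_eq_norm]
    nlinarith
  set v : E n → ℝ := fun x => Real.smoothTransition (φ x) with hv
  have hvd : ∀ x, fderiv ℝ v x = deriv Real.smoothTransition (φ x) • fderiv ℝ φ x := by
    intro x
    have h1 : HasDerivAt Real.smoothTransition (deriv Real.smoothTransition (φ x)) (φ x) :=
      ((Real.smoothTransition.contDiff (n := 1)).differentiable (by norm_num) _).hasDerivAt
    exact (h1.comp_hasFDerivAt x ((hφc.differentiable (by norm_num)) x).hasFDerivAt).fderiv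
  have hz1 : ∀ x, dist x z ≤ a → fderiv ℝ v x = 0 := by
    intro x hx
    rw [hvd, G4_deriv_zero (Or.inr (hle x hx)), zero_smul]
  have hz2 : ∀ x, b ≤ dist x z → fderiv ℝ v x = 0 := by
    intro x hx
    rw [hvd, G4_deriv_zero (Or.inl (hge x hx)), zero_smul]
  refine ⟨v, (Real.smoothTransition.contDiff (n := 1)).comp hφc,
    fun x => Real.smoothTransition.nonneg _, fun x => Real.smoothTransition.le_one _,
    fun x hx => Real.smoothTransition.one_of_one_le (hle x hx),
    fun x hx => Real.smoothTransition.zero_of_nonpos (hge x hx), ?_,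
    fun x hx => hz1 x hx.le, hz2⟩
  intro x
  have hpos : 0 ≤ max 1 (2 * M₀) / (b - a) :=
    div_nonneg (zero_le_one.trans (le_max_left _ _)) (by linarith)
  by_cases hx : dist x z < b
  · rw [hvd, norm_smul, hφn, Real.norm_eq_abs]
    have hba : 0 < b - a := by linarith
    calc |deriv Real.smoothTransition (φ x)| * ((b ^ 2 - a ^ 2)⁻¹ * (2 * dist x z))
        ≤ M₀ * ((b ^ 2 - a ^ 2)⁻¹ * (2 * b)) := by
          gcongr
          exact hM _
      _ ≤ 2 * M₀ / (b - a) := by
          rw [show b ^ 2 - a ^ 2 = (b - a) * (b + a) by ring]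
          rw [le_div_iff₀ hba]
          have : M₀ * (((b - a) * (b + a))⁻¹ * (2 * b)) * (b - a) = 2 * M₀ * (b / (b + a)) := by
            field_simp
          rw [this]
          have h5 : b / (b + a) ≤ 1 := by
            rw [div_le_one (by positivity)]; linarith
          nlinarith
      _ ≤ _ := by
          gcongr
          exact le_max_right _ _
  · rw [hz2 x (by linarith), norm_zero]
    exact hpos

end DF88
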