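import Pool.Agent.H88.DF.B1
import Pool.Agent.H88.DF.B2
import Pool.Agent.H88.DF.B3
import Pool.Agent.H88.DF.G2
import Pool.Agent.H88.DF.G3
import Pool.Agent.H88.DF.G4

/-!
# G5 : one growth step
Paper proof. If `K < 1` there is nothing to prove (`KQ.one_le`), so let `K ≥ 1`, `M` from
`exists_cutoff`, `c = 1/(20 M K)^2`. Let `ρ' = ρ (1 + 1/n)`, `v` the cutoff with `a = ρ`, `b = ρ'`
at `z`, `u = v ∘ g`: `C¹`, compact support (contained in `f '' closedBall z ρ'`), `u = 1` on
`f '' ball z ρ`. Let `V = volume (f '' ball z ρ)`, `V' = volume (f '' ball z ρ')` (finite, `V > 0`).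
`gns`: `V^((n-1)/n) ≤ (1/√n) ∫⁻ ‖fderiv u‖ₑ`. Chain rule and `KQ.lintegral_image`:
`∫⁻ ‖fderiv u y‖ₑ ≤ ∫⁻ x, J(x) ‖fderiv v x‖ₑ ‖fderiv g (f x)‖ₑ`
`≤ ∫⁻ x in ball z ρ' \ ball z ρ, (M n/ρ) K J(x)^((n-1)/n)` by `KQ.inv_norm_mul_le` and the bound
`‖fderiv v‖ ≤ M/(ρ/n)`, with the gradient of `v` zero outside the shell. Hoelder
(exponents `n/(n-1)` and `n`):
`∫⁻_shell J^((n-1)/n) ≤ (∫⁻_shell J)^((n-1)/n) * |shell|^(1/n)`, `∫⁻_shell J = V' - V`
(`KQ.volume_image`, images of the disjoint sets `ball z ρ` and the shell), and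
`|shell|^(1/n) ≤ |ball z ρ'|^(1/n) = ρ' (kap n)^(1/n) ≤ 2 ρ * 5/√n` (`kap_le`). Altogether
`V^((n-1)/n) ≤ (1/√n) (M n/ρ) K (V'-V)^((n-1)/n) * 10 ρ/√n = 10 M K (V'-V)^((n-1)/n)`, so
`V ≤ (10 M K)^(n/(n-1)) (V' - V) ≤ (20 M K)^2 (V' - V)` since `n/(n-1) ≤ 2` and `10 M K ≥ 1`.
-/

set_option autoImplicit false

open MeasureTheory Set Metric Filter
open scoped ENNReal Topology NNReal

namespace DF88

/-- energy of the cutoff transported by the inverse map -/
theorem G5_energy {n : ℕ} {K : ℝ} {f g : E n → E n} (h : KQ n K f g) (hn : 2 ≤ n)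
    {z : E n} {ρ ρ' D : ℝ} (hD : 0 ≤ D) {v : E n → ℝ} (hv : ContDiff ℝ 1 v)
    (hb : ∀ x, ‖fderiv ℝ v x‖ ≤ D)
    (h1 : ∀ x, dist x z < ρ → fderiv ℝ v x = 0) (h2 : ∀ x, ρ' ≤ dist x z → fderiv ℝ v x = 0) :
    ∫⁻ y, ‖fderiv ℝ (fun y => v (g y)) y‖ₑ ≤ ENNReal.ofReal (D * K) *
      ((volume (f '' (ball z ρ' \ ball z ρ))) ^ (((n : ℝ) - 1) / n) *
        (volume (ball z ρ')) ^ ((1 : ℝ) / n)) := by
  have hn1 : 1 ≤ n := by omega
  have hn0 : (0 : ℝ) < n := by exact_mod_cast (by omega : 0 < n)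
  have hn1' : (1 : ℝ) ≤ n := by exact_mod_cast hn1
  have hK := h.one_le hn1
  rw [h.lintegral_image]
  set shell : Set (E n) := ball z ρ' \ ball z ρ with hshell
  have hms : MeasurableSet shell := measurableSet_ball.diff measurableSet_ball
  have hpt : ∀ x, ENNReal.ofReal |(fderiv ℝ f x).det| * ‖fderiv ℝ (fun y => v (g y)) (f x)‖ₑ
      ≤ shell.indicator (fun x => ENNReal.ofReal (D * K) *
        (ENNReal.ofReal |(fderiv ℝ f x).det| ^ (((n : ℝ) - 1) / n) * (1 : ℝ≥0∞) ^ ((1 : ℝ) / n)))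
        x := by
    intro x
    have hcomp : fderiv ℝ (fun y => v (g y)) (f x) =
        (fderiv ℝ v (g (f x))).comp (fderiv ℝ g (f x)) := by
      have hv' : DifferentiableAt ℝ v (g (f x)) := (hv.differentiable (by norm_num)) _
      have hg' : DifferentiableAt ℝ g (f x) := (h.hg.differentiable (by norm_num)) _
      exact fderiv_comp (f x) hv' hg'
    rw [hcomp, h.gf]
    by_cases hx : x ∈ shell
    · rw [indicator_of_mem hx, ENNReal.one_rpow, mul_one]
      have hJ := (h.det_pos x).le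
      rw [← ofReal_norm, ← ENNReal.ofReal_mul hJ, ENNReal.ofReal_rpow_of_nonneg hJ
        (by apply div_nonneg <;> linarith), ← ENNReal.ofReal_mul (by positivity)]
      apply ENNReal.ofReal_le_ofReal
      have h3 := h.inv_norm_mul_le hn1 x
      calc |(fderiv ℝ f x).det| * ‖(fderiv ℝ v x).comp (fderiv ℝ g (f x))‖
          ≤ |(fderiv ℝ f x).det| * (‖fderiv ℝ v x‖ * ‖fderiv ℝ g (f x)‖) := by
            gcongr; exact ContinuousLinearMap.opNorm_comp_le _ _
        _ ≤ |(fderiv ℝ f x).det| * (D * ‖fderiv ℝ g (f x)‖) := by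
            gcongr; exact hb x
        _ = D * (|(fderiv ℝ f x).det| * ‖fderiv ℝ g (f x)‖) := by ring
        _ ≤ D * (K * |(fderiv ℝ f x).det| ^ (((n : ℝ) - 1) / n)) := by gcongr
        _ = _ := by ring
    · rw [indicator_of_notMem hx]
      have h0 : fderiv ℝ v x = 0 := by
        rw [hshell, Set.mem_sdiff, mem_ball, mem_ball] at hx
        by_cases hx1 : dist x z < ρ
        · exact h1 x hx1
        · apply h2 x
          by_contra hx2
          exact hx ⟨by linarith, hx1⟩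
      rw [h0]
      have h00 : ‖(0 : E n →L[ℝ] ℝ).comp (fderiv ℝ g (f x))‖ₑ = 0 := by
        rw [← ofReal_norm, ContinuousLinearMap.zero_comp, norm_zero, ENNReal.ofReal_zero]
      rw [h00, mul_zero]
  have hmeas : Measurable fun x => ENNReal.ofReal |(fderiv ℝ f x).det| := by
    apply ENNReal.measurable_ofReal.comp
    apply Continuous.measurable
    exact (ContinuousLinearMap.continuous_det.comp
      (h.hf.continuous_fderiv (by norm_num))).abs
  calc ∫⁻ x, ENNReal.ofReal |(fderiv ℝ f x).det| * ‖fderiv ℝ (fun y => v (g y)) (f x)‖ₑ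
      ≤ ∫⁻ x, shell.indicator (fun x => ENNReal.ofReal (D * K) *
        (ENNReal.ofReal |(fderiv ℝ f x).det| ^ (((n : ℝ) - 1) / n) * (1 : ℝ≥0∞) ^ ((1 : ℝ) / n)))
        x := lintegral_mono hpt
    _ = ∫⁻ x in shell, ENNReal.ofReal (D * K) *
        (ENNReal.ofReal |(fderiv ℝ f x).det| ^ (((n : ℝ) - 1) / n) *
          (1 : ℝ≥0∞) ^ ((1 : ℝ) / n)) := lintegral_indicator hms _
    _ = ENNReal.ofReal (D * K) * ∫⁻ x in shell,
        (ENNReal.ofReal |(fderiv ℝ f x).det| ^ (((n : ℝ) - 1) / n) *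
          (1 : ℝ≥0∞) ^ ((1 : ℝ) / n)) := lintegral_const_mul' _ _ ENNReal.ofReal_ne_top
    _ ≤ ENNReal.ofReal (D * K) * ((∫⁻ x in shell, ENNReal.ofReal |(fderiv ℝ f x).det|) ^
        (((n : ℝ) - 1) / n) * (∫⁻ _x in shell, (1 : ℝ≥0∞)) ^ ((1 : ℝ) / n)) := by
        gcongr
        refine ENNReal.lintegral_mul_norm_pow_le hmeas.aemeasurable aemeasurable_const ?_ ?_ ?_
        · apply div_nonneg <;> linarith
        · positivity
        · field_simp; ring
    _ ≤ _ := by
        rw [← h.volume_image hms, setLIntegral_one]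
        gcongr
        exact sdiff_subset

theorem growth_step (K : ℝ) : ∃ c : ℝ, 0 < c ∧ ∀ (n : ℕ), 2 ≤ n → ∀ (f g : E n → E n),
    KQ n K f g → ∀ (z : E n) (ρ : ℝ), 0 < ρ →
      ENNReal.ofReal (1 + c) * volume (f '' ball z ρ)
        ≤ volume (f '' ball z (ρ * (1 + 1 / n))) := by
  obtain ⟨M, hM, hcut⟩ := exists_cutoff
  set K' : ℝ := max K 1 with hK'
  have hK'1 : 1 ≤ K' := le_max_right _ _
  refine ⟨1 / (10 * M * K') ^ 2, by positivity, ?_⟩
  intro n hn f g h z ρ hρ
  have hn1 : 1 ≤ n := by omega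
  have hn0 : (0 : ℝ) < n := by exact_mod_cast (by omega : 0 < n)
  have hn2' : (2 : ℝ) ≤ n := by exact_mod_cast hn
  have hK := h.one_le hn1
  have hKK : K' = K := by rw [hK']; exact max_eq_left hK
  rw [hKK]
  set ρ' : ℝ := ρ * (1 + 1 / n) with hρ'
  have hdiff : ρ' - ρ = ρ / n := by rw [hρ']; ring
  have hlt : ρ < ρ' := by
    have : 0 < ρ / n := by positivity
    linarith
  have hle2 : ρ' ≤ 2 * ρ := by
    have h1 : 1 / (n : ℝ) ≤ 1 := by
      rw [div_le_one hn0]; linarith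
    rw [hρ']; nlinarith
  have hρ'0 : 0 < ρ' := hρ.trans hlt
  obtain ⟨v, hv, hv0, hv1, hva, hvb, hvD, hvz, hvz'⟩ := hcut n z ρ ρ' hρ hlt
  set θ : ℝ := ((n : ℝ) - 1) / n with hθ
  have hθ0 : 0 < θ := by
    rw [hθ]; apply div_pos <;> linarith
  set V := volume (f '' ball z ρ) with hV
  set W := volume (f '' (ball z ρ' \ ball z ρ)) with hW
  have hinj : Function.Injective f := Function.LeftInverse.injective h.gf
  have hVW : volume (f '' ball z ρ') = V + W := by
    rw [hV, hW, ← measure_union]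
    · rw [← image_union, union_sdiff_cancel (ball_subset_ball hlt.le)]
    · exact (disjoint_image_iff hinj).2 disjoint_sdiff_right
    · rw [image_sdiff hinj]
      exact (h.isOpen_image isOpen_ball).measurableSet.diff
        (h.isOpen_image isOpen_ball).measurableSet
  have hVtop : V ≠ ⊤ := volume_image_ball_ne_top h.hf.continuous z ρ
  -- the isoperimetric inequality
  have hu : ContDiff ℝ 1 (fun y => v (g y)) := hv.comp h.hg
  have hc : HasCompactSupport (fun y => v (g y)) := by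
    refine HasCompactSupport.intro ((isCompact_closedBall z ρ').image h.hf.continuous) ?_
    intro x hx
    apply hvb
    by_contra hcon
    push Not at hcon
    exact hx ⟨g x, hcon.le, h.fg x⟩
  have hgns := gns hn hu hc
  have hsub : f '' ball z ρ ⊆ {x | 1 ≤ v (g x)} := by
    rintro _ ⟨y, hy, rfl⟩
    simp only [mem_ofPred_eq, h.gf]
    rw [hva y (mem_ball.1 hy).le]
  have hen := G5_energy h hn (D := M / (ρ' - ρ)) (z := z) (ρ := ρ) (ρ' := ρ')
    (by apply div_nonneg <;> linarith) hv hvD hvz hvz'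
  have hball : (volume (ball z ρ')) ^ ((1 : ℝ) / n) ≤ ENNReal.ofReal (10 * ρ / √n) := by
    rw [volume_ball_kap z hρ'0]
    calc (ENNReal.ofReal (ρ' ^ n) * kap n) ^ ((1 : ℝ) / n)
        ≤ (ENNReal.ofReal (ρ' ^ n) * ENNReal.ofReal ((5 / √n) ^ n)) ^ ((1 : ℝ) / n) := by
          gcongr; exact kap_le hn1
      _ = (ENNReal.ofReal ((ρ' * (5 / √n)) ^ n)) ^ ((1 : ℝ) / n) := by
          rw [← ENNReal.ofReal_mul (by positivity), ← mul_pow]
      _ = ENNReal.ofReal (ρ' * (5 / √n)) := by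
          rw [ENNReal.ofReal_rpow_of_nonneg (by positivity) (by positivity),
            ← Real.rpow_natCast, ← Real.rpow_mul (by positivity)]
          congr 1
          rw [mul_one_div_cancel hn0.ne', Real.rpow_one]
      _ ≤ ENNReal.ofReal (10 * ρ / √n) := by
          apply ENNReal.ofReal_le_ofReal
          rw [mul_div_assoc']
          apply div_le_div_of_nonneg_right _ (Real.sqrt_nonneg _)
          linarith
  have hmain : V ^ θ ≤ ENNReal.ofReal (10 * M * K) * W ^ θ := by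
    have hVs : V ≤ volume {x | 1 ≤ v (g x)} := measure_mono hsub
    calc V ^ θ ≤ (volume {x | 1 ≤ v (g x)}) ^ θ := by gcongr
      _ ≤ ENNReal.ofReal (1 / √n) * ∫⁻ x, ‖fderiv ℝ (fun y => v (g y)) x‖ₑ := hgns
      _ ≤ ENNReal.ofReal (1 / √n) * (ENNReal.ofReal (M / (ρ' - ρ) * K) *
            (W ^ θ * (volume (ball z ρ')) ^ ((1 : ℝ) / n))) := by gcongr
      _ ≤ ENNReal.ofReal (1 / √n) * (ENNReal.ofReal (M / (ρ' - ρ) * K) *
            (W ^ θ * ENNReal.ofReal (10 * ρ / √n))) := by gcongr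
      _ = (ENNReal.ofReal (1 / √n) * ENNReal.ofReal (M / (ρ' - ρ) * K) *
            ENNReal.ofReal (10 * ρ / √n)) * W ^ θ := by ring
      _ = ENNReal.ofReal (10 * M * K) * W ^ θ := by
          rw [← ENNReal.ofReal_mul (by positivity), ← ENNReal.ofReal_mul]
          · congr 2
            rw [hdiff]
            have hs : √(n : ℝ) * √n = n := Real.mul_self_sqrt hn0.le
            have hs0 : √(n : ℝ) ≠ 0 := by positivity
            field_simp
            rw [sq, hs]
          · apply mul_nonneg (by positivity)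
            apply mul_nonneg _ (by linarith)
            apply div_nonneg <;> linarith
  have hb1 : 1 ≤ 10 * M * K := by nlinarith
  have hV2 : V ≤ ENNReal.ofReal ((10 * M * K) ^ 2) * W := by
    have h1 : (V ^ θ) ^ (1 / θ) ≤ (ENNReal.ofReal (10 * M * K) * W ^ θ) ^ (1 / θ) := by
      gcongr
    rw [← ENNReal.rpow_mul, mul_one_div_cancel hθ0.ne', ENNReal.rpow_one,
      ENNReal.mul_rpow_of_nonneg _ _ (by positivity), ← ENNReal.rpow_mul,
      mul_one_div_cancel hθ0.ne', ENNReal.rpow_one] at h1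
    refine h1.trans ?_
    gcongr
    rw [ENNReal.ofReal_rpow_of_nonneg (by linarith) (by positivity)]
    apply ENNReal.ofReal_le_ofReal
    rw [← Real.rpow_natCast (10 * M * K) 2]
    apply Real.rpow_le_rpow_of_exponent_le hb1
    rw [div_le_iff₀ hθ0, hθ, mul_div_assoc', le_div_iff₀ hn0]
    push_cast
    linarith
  rw [hVW, ENNReal.ofReal_add zero_le_one (by positivity), ENNReal.ofReal_one, add_mul, one_mul]
  gcongr
  calc ENNReal.ofReal (1 / (10 * M * K) ^ 2) * V
      ≤ ENNReal.ofReal (1 / (10 * M * K) ^ 2) * (ENNReal.ofReal ((10 * M * K) ^ 2) * W) := by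
        gcongr
    _ = W := by
        rw [← mul_assoc, ← ENNReal.ofReal_mul (by positivity),
          one_div_mul_cancel (by positivity), ENNReal.ofReal_one, one_mul]

end DF88
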