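import Pool.Agent.H88.DF.B3
import Pool.Agent.H88.DF.G5

/-!
# G6 : growth of the volume radius
Paper proof. `c` from `growth_step`. Choose `m ≥ 1` with `(1 + c)^m ≥ 2`, `A = exp m` (`≥ 2`).
Iterate `growth_step` `n m` times: `volume (f '' ball z (ρ (1+1/n)^(n m))) ≥ (1+c)^(n m) V ≥ 2^n V`,
and `(1+1/n)^(n m) ≤ exp m = A`, so `f '' ball z (ρ (1+1/n)^(n m)) ⊆ f '' ball z (A ρ)`. Take
`n`-th roots (volumes are finite: `volume_image_ball_ne_top`, `volume_eq_vr`).
-/

set_option autoImplicit false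

open MeasureTheory Set Metric Filter
open scoped ENNReal Topology NNReal

namespace DF88

theorem growth (K : ℝ) : ∃ A : ℝ, 2 ≤ A ∧ ∀ (n : ℕ), 2 ≤ n → ∀ (f g : E n → E n),
    KQ n K f g → ∀ (z : E n) (ρ : ℝ), 0 < ρ →
      2 * vr (f '' ball z ρ) ≤ vr (f '' ball z (A * ρ)) := by
  obtain ⟨c, hc, hstep⟩ := growth_step K
  obtain ⟨m, hm⟩ := pow_unbounded_of_one_lt (2 : ℝ) (show (1 : ℝ) < 1 + c by linarith)
  have hm1 : 1 ≤ m := by
    rcases Nat.eq_zero_or_pos m with h0 | h0
    · rw [h0, pow_zero] at hm; linarith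
    · exact h0
  have hm1' : (1 : ℝ) ≤ m := by exact_mod_cast hm1
  refine ⟨Real.exp m, ?_, ?_⟩
  · have := Real.add_one_le_exp (m : ℝ)
    linarith
  intro n hn f g h z ρ hρ
  have hn1 : 1 ≤ n := by omega
  have hn0 : (0 : ℝ) < n := by exact_mod_cast (by omega : 0 < n)
  have hfc := h.hf.continuous
  have hiter : ∀ k : ℕ, ENNReal.ofReal ((1 + c) ^ k) * volume (f '' ball z ρ)
      ≤ volume (f '' ball z (ρ * (1 + 1 / n) ^ k)) := by
    intro k
    induction k with
    | zero => simp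
    | succ k ih =>
      have h1 := hstep n hn f g h z (ρ * (1 + 1 / n) ^ k) (by positivity)
      calc ENNReal.ofReal ((1 + c) ^ (k + 1)) * volume (f '' ball z ρ)
          = ENNReal.ofReal (1 + c) * (ENNReal.ofReal ((1 + c) ^ k) * volume (f '' ball z ρ)) := by
            rw [← mul_assoc, ← ENNReal.ofReal_mul (by positivity), pow_succ']
        _ ≤ ENNReal.ofReal (1 + c) * volume (f '' ball z (ρ * (1 + 1 / n) ^ k)) := by gcongr
        _ ≤ _ := h1
        _ = _ := by
            congr 3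
            rw [pow_succ, mul_assoc]
  have hexp : (1 + 1 / (n : ℝ)) ^ (n * m) ≤ Real.exp m := by
    have h1 : 1 + 1 / (n : ℝ) ≤ Real.exp (1 / n) := by
      have := Real.add_one_le_exp (1 / (n : ℝ)); linarith
    calc (1 + 1 / (n : ℝ)) ^ (n * m) ≤ (Real.exp (1 / n)) ^ (n * m) := by gcongr
      _ = Real.exp m := by
        rw [← Real.exp_nat_mul]
        congr 1
        push_cast
        field_simp
  have h1 := hiter (n * m)
  have h2 : volume (f '' ball z (ρ * (1 + 1 / n) ^ (n * m)))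
      ≤ volume (f '' ball z (Real.exp m * ρ)) := by
    apply measure_mono
    apply image_mono
    apply ball_subset_ball
    rw [mul_comm]
    gcongr
  have h3 : ENNReal.ofReal (2 ^ n) * volume (f '' ball z ρ)
      ≤ volume (f '' ball z (Real.exp m * ρ)) := by
    refine le_trans ?_ (h1.trans h2)
    gcongr
    rw [mul_comm n m, pow_mul]
    gcongr
  rw [volume_eq_vr hn1 (volume_image_ball_ne_top hfc z ρ),
    volume_eq_vr hn1 (volume_image_ball_ne_top hfc z (Real.exp m * ρ)), ← mul_assoc,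
    ← ENNReal.ofReal_mul (by positivity), ← mul_pow] at h3
  have h4 := (ENNReal.mul_le_mul_iff_left (kap_pos n).ne' (kap_ne_top n)).1 h3
  have h5 := (ENNReal.ofReal_le_ofReal_iff (pow_nonneg (vr_nonneg _) _)).1 h4
  exact le_of_pow_le_pow_left₀ (by omega) (vr_nonneg _) h5

end DF88
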