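import Pool.Agent.H88.DF.B4
import Pool.Agent.H88.DF.A1
import Pool.Agent.H88.DF.A2
import Pool.Agent.H88.DF.G6

/-!
# A3 : the outer radius is controlled by the volume radius
Paper proof. `A ≥ 2` from `growth`; if `K < 1` there is nothing to prove (`KQ.one_le`). Write
`R(z,ρ) = vr (f '' ball z ρ)`.
(1) For `0 < ρ`: `‖av f z (A ρ) - av f z ρ‖ ≤ K (A - 1) R(z, A ρ)`: `norm_av_sub_av_le` with
`z₀ = z₁ = z`, `r₀ = ρ`, `r₁ = A ρ`, `M = K R(z, A ρ)/ρ`, since for the intermediate radii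
`ρ ≤ σ ≤ A ρ` `KQ.av_norm_le` gives `av ‖Df‖ z σ ≤ K R(z,σ)/σ ≤ K R(z,A ρ)/ρ`
(`vr_image_ball_mono`).
(2) `growth` gives `R(z, r/A^j) ≤ 2^(-j) R(z, r)`. Telescoping,
`‖av f z (r/A^j) - av f z r‖ ≤ ∑_{i<j} K (A-1) 2^(-i) R(z,r) ≤ 2 K (A-1) R(z,r)`; let `j → ∞`
(`tendsto_av`): `‖f z - av f z r‖ ≤ 2 K (A-1) R(z,r)`.
(3) If `dist y z ≤ r`: `‖av f y r - av f z r‖ ≤ dist y z * K R(z,2r)/r ≤ K R(z,2r)`:
`norm_av_sub_av_le` with equal radii `r`, centres on the segment from `z` to `y`, whose balls of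
radius `r` are contained in `ball z (2r)`.
(4) So for `dist y z ≤ r`: `‖f y - f z‖ ≤ ‖f y - av f y r‖ + ‖av f y r - av f z r‖ + ‖av f z r - f z‖
≤ (4 K (A-1) + K) R(z,2r)` because `ball y r` and `ball z r` are contained in `ball z (2r)`.
Take `C = max 1 (4 K (A-1) + K)` and `exists_Lf`.
-/

set_option autoImplicit false

open MeasureTheory Set Metric Filter
open scoped ENNReal Topology NNReal

namespace DF88

private theorem A3_step {n : ℕ} (hn : 1 ≤ n) {K : ℝ} {f g : E n → E n} (h : KQ n K f g)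
    (z : E n) {A ρ : ℝ} (hA : 2 ≤ A) (hρ : 0 < ρ) :
    ‖av f z (A * ρ) - av f z ρ‖ ≤ K * (A - 1) * vr (f '' ball z (A * ρ)) := by
  have hK : 1 ≤ K := h.one_le hn
  have hAρ : ρ ≤ A * ρ := by nlinarith
  have hAρ0 : 0 < A * ρ := by positivity
  have h1 := norm_av_sub_av_le hn h.hf z z (r₀ := ρ) (r₁ := A * ρ)
    (M := K * vr (f '' ball z (A * ρ)) / ρ) hρ hAρ0 (by
      intro s hs
      obtain ⟨hs0, hs1⟩ := hs
      rw [sub_self, smul_zero, add_zero]
      have hσ1 : ρ ≤ ρ + s * (A * ρ - ρ) := by nlinarith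
      have hσ2 : ρ + s * (A * ρ - ρ) ≤ A * ρ := by nlinarith
      have hσ0 : 0 < ρ + s * (A * ρ - ρ) := lt_of_lt_of_le hρ hσ1
      refine (h.av_norm_le hn z hσ0).trans ?_
      have h2 : vr (f '' ball z (ρ + s * (A * ρ - ρ))) ≤ vr (f '' ball z (A * ρ)) :=
        vr_image_ball_mono h.hf.continuous (by rw [dist_self, zero_add]; exact hσ2)
      have h3 : 0 ≤ K * vr (f '' ball z (A * ρ)) := mul_nonneg (by linarith) (vr_nonneg _)
      calc K * vr (f '' ball z (ρ + s * (A * ρ - ρ))) / (ρ + s * (A * ρ - ρ))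
          ≤ K * vr (f '' ball z (A * ρ)) / (ρ + s * (A * ρ - ρ)) := by
            apply div_le_div_of_nonneg_right _ hσ0.le
            exact mul_le_mul_of_nonneg_left h2 (by linarith)
        _ ≤ K * vr (f '' ball z (A * ρ)) / ρ := div_le_div_of_nonneg_left h3 hρ hσ1)
  refine h1.trans (le_of_eq ?_)
  rw [sub_self, norm_zero, zero_add, abs_of_nonneg (by linarith)]
  field_simp

private theorem A3_decay {n : ℕ} {f : E n → E n} {A : ℝ} (hA : 2 ≤ A)
    (hg : ∀ (z : E n) (ρ : ℝ), 0 < ρ → 2 * vr (f '' ball z ρ) ≤ vr (f '' ball z (A * ρ)))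
    (z : E n) {r : ℝ} (hr : 0 < r) (j : ℕ) :
    vr (f '' ball z (r / A ^ j)) ≤ (1 / 2) ^ j * vr (f '' ball z r) := by
  have hA0 : 0 < A := by linarith
  induction j with
  | zero => simp
  | succ j ih =>
    have h1 := hg z (r / A ^ (j + 1)) (by positivity)
    have h2 : A * (r / A ^ (j + 1)) = r / A ^ j := by
      field_simp
      ring
    rw [h2] at h1
    have h3 : ((1 : ℝ) / 2) ^ (j + 1) = (1 / 2) ^ j * (1 / 2) := pow_succ _ _
    rw [h3]
    linarith

private theorem A3_tel {n : ℕ} (hn : 1 ≤ n) {K : ℝ} {f g : E n → E n} (h : KQ n K f g)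
    {A : ℝ} (hA : 2 ≤ A)
    (hg : ∀ (z : E n) (ρ : ℝ), 0 < ρ → 2 * vr (f '' ball z ρ) ≤ vr (f '' ball z (A * ρ)))
    (z : E n) {r : ℝ} (hr : 0 < r) (j : ℕ) :
    ‖av f z (r / A ^ j) - av f z r‖ ≤
      2 * K * (A - 1) * vr (f '' ball z r) * (1 - (1 / 2) ^ j) := by
  have hA0 : 0 < A := by linarith
  have hK : 1 ≤ K := h.one_le hn
  induction j with
  | zero => simp
  | succ j ih =>
    have h1 := A3_step hn h z hA (ρ := r / A ^ (j + 1)) (by positivity)
    have h2 : A * (r / A ^ (j + 1)) = r / A ^ j := by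
      field_simp
      ring
    rw [h2] at h1
    have h3 := A3_decay hA hg z hr j
    have h4 : K * (A - 1) * vr (f '' ball z (r / A ^ j)) ≤
        K * (A - 1) * ((1 / 2) ^ j * vr (f '' ball z r)) :=
      mul_le_mul_of_nonneg_left h3 (mul_nonneg (by linarith) (by linarith))
    have h5 : ‖av f z (r / A ^ (j + 1)) - av f z r‖ ≤
        ‖av f z (r / A ^ j) - av f z (r / A ^ (j + 1))‖ + ‖av f z (r / A ^ j) - av f z r‖ := by
      have : av f z (r / A ^ (j + 1)) - av f z r =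
        -(av f z (r / A ^ j) - av f z (r / A ^ (j + 1))) + (av f z (r / A ^ j) - av f z r) := by
        abel
      rw [this]
      refine (norm_add_le _ _).trans ?_
      rw [norm_neg]
    refine h5.trans ((add_le_add (h1.trans h4) ih).trans (le_of_eq ?_))
    rw [pow_succ]
    ring

private theorem A3_lim {n : ℕ} (hn : 1 ≤ n) {K : ℝ} {f g : E n → E n} (h : KQ n K f g)
    {A : ℝ} (hA : 2 ≤ A)
    (hg : ∀ (z : E n) (ρ : ℝ), 0 < ρ → 2 * vr (f '' ball z ρ) ≤ vr (f '' ball z (A * ρ)))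
    (z : E n) {r : ℝ} (hr : 0 < r) :
    ‖f z - av f z r‖ ≤ 2 * K * (A - 1) * vr (f '' ball z r) := by
  have hA0 : 0 < A := by linarith
  have hK : 1 ≤ K := h.one_le hn
  have hlim : Tendsto (fun j : ℕ => r / A ^ j) atTop (𝓝 0) :=
    (tendsto_pow_atTop_atTop_of_one_lt (by linarith)).const_div_atTop r
  have h1 : Tendsto (fun j : ℕ => ‖av f z (r / A ^ j) - av f z r‖) atTop
      (𝓝 ‖f z - av f z r‖) :=
    (((tendsto_av h.hf.continuous z).comp hlim).sub_const _).norm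
  refine le_of_tendsto h1 (Eventually.of_forall fun j => ?_)
  refine (A3_tel hn h hA hg z hr j).trans ?_
  have h2 : 0 ≤ 2 * K * (A - 1) * vr (f '' ball z r) :=
    mul_nonneg (mul_nonneg (by linarith) (by linarith)) (vr_nonneg _)
  have h3 : (0 : ℝ) ≤ (1 / 2) ^ j := by positivity
  nlinarith

private theorem A3_shift {n : ℕ} (hn : 1 ≤ n) {K : ℝ} {f g : E n → E n} (h : KQ n K f g)
    (z y : E n) {r : ℝ} (hr : 0 < r) (hy : dist y z ≤ r) :
    ‖av f y r - av f z r‖ ≤ K * vr (f '' ball z (2 * r)) := by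
  have hK : 1 ≤ K := h.one_le hn
  have h0 : 0 ≤ K * vr (f '' ball z (2 * r)) := mul_nonneg (by linarith) (vr_nonneg _)
  have h1 := norm_av_sub_av_le hn h.hf z y (r₀ := r) (r₁ := r)
    (M := K * vr (f '' ball z (2 * r)) / r) hr hr (by
      intro s hs
      obtain ⟨hs0, hs1⟩ := hs
      rw [sub_self, mul_zero, add_zero]
      refine (h.av_norm_le hn _ hr).trans ?_
      have h2 : vr (f '' ball (z + s • (y - z)) r) ≤ vr (f '' ball z (2 * r)) := by
        apply vr_image_ball_mono h.hf.continuous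
        rw [dist_eq_norm, add_sub_cancel_left, norm_smul, Real.norm_of_nonneg hs0, ← dist_eq_norm]
        nlinarith [dist_nonneg (x := y) (y := z)]
      exact div_le_div_of_nonneg_right (mul_le_mul_of_nonneg_left h2 (by linarith)) hr.le)
  refine h1.trans ?_
  rw [sub_self, abs_zero, add_zero, ← dist_eq_norm]
  calc dist y z * (K * vr (f '' ball z (2 * r)) / r)
      ≤ r * (K * vr (f '' ball z (2 * r)) / r) :=
        mul_le_mul_of_nonneg_right hy (div_nonneg h0 hr.le)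
    _ = K * vr (f '' ball z (2 * r)) := by field_simp

theorem Lf_le_vr (K : ℝ) : ∃ C : ℝ, 1 ≤ C ∧ ∀ (n : ℕ), 2 ≤ n → ∀ (f g : E n → E n),
    KQ n K f g → ∀ (z : E n) (r : ℝ), 0 < r →
      Lf f z r ≤ C * vr (f '' ball z (2 * r)) := by
  obtain ⟨A, hA, hgr⟩ := growth K
  refine ⟨max 1 (4 * K * (A - 1) + K), le_max_left _ _, ?_⟩
  intro n hn f g h z r hr
  have hn1 : 1 ≤ n := by omega
  have hK : 1 ≤ K := h.one_le hn1
  have hg := hgr n hn f g h
  obtain ⟨y, hy, hLf⟩ := exists_Lf h.hf.continuous z hr.le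
  rw [← hLf]
  have hv : 0 ≤ vr (f '' ball z (2 * r)) := vr_nonneg _
  have e1 := A3_lim hn1 h hA hg y hr
  have e2 := A3_lim hn1 h hA hg z hr
  have e3 := A3_shift hn1 h z y hr hy
  have m1 : vr (f '' ball y r) ≤ vr (f '' ball z (2 * r)) :=
    vr_image_ball_mono h.hf.continuous (by linarith)
  have m2 : vr (f '' ball z r) ≤ vr (f '' ball z (2 * r)) :=
    vr_image_ball_mono h.hf.continuous (by rw [dist_self]; linarith)
  have hc : 0 ≤ 2 * K * (A - 1) := mul_nonneg (by linarith) (by linarith)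
  have e1' := e1.trans (mul_le_mul_of_nonneg_left m1 hc)
  have e2' := e2.trans (mul_le_mul_of_nonneg_left m2 hc)
  have hsplit : ‖f y - f z‖ ≤ ‖f y - av f y r‖ + ‖av f y r - av f z r‖ + ‖f z - av f z r‖ := by
    have : f y - f z = (f y - av f y r) + (av f y r - av f z r) + -(f z - av f z r) := by abel
    rw [this]
    refine (norm_add_le _ _).trans ?_
    rw [norm_neg]
    gcongr
    exact norm_add_le _ _
  calc ‖f y - f z‖ ≤ (4 * K * (A - 1) + K) * vr (f '' ball z (2 * r)) := by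
        refine hsplit.trans ?_
        nlinarith
    _ ≤ max 1 (4 * K * (A - 1) + K) * vr (f '' ball z (2 * r)) :=
        mul_le_mul_of_nonneg_right (le_max_right _ _) hv

end DF88
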