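import Pool.Agent.H88.DF.Defs

/-!
# B1 : determinants (Mathlib only)
Paper proof.
* `abs_det_le`: for `n = 0` trivial (det = 1).  In general the image `A '' ball 0 1` has volume
  `|det A| * kap n` (`MeasureTheory.Measure.addHaar_image_continuousLinearMap`) and is contained in
  `closedBall 0 ‖A‖`, whose volume is `‖A‖^n * kap n`
  (`addHaar_closedBall`); `kap n` is positive and finite, cancel.
* `det_mul`: `fderiv g (f x) ∘ fderiv f x = id` by the chain rule applied to `g ∘ f = id`;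
  take determinants (`ContinuousLinearMap.det`, `LinearMap.det_comp`).
* `one_le`: `1 = ‖id‖ ≤ ‖fderiv g (f x)‖ * ‖fderiv f x‖ ≤ K` (`n ≥ 1`, so `E n` is nontrivial).
* `norm_pow_le`: put `J = |det Df|`, `B = Dg(f x)`. `1 = J * |det B| ≤ J * ‖B‖^n`, hence
  `‖Df‖^n ≤ ‖Df‖^n * ‖B‖^n * J ≤ K^n * J`.
* `inv_norm_mul_le`: `J ≤ ‖Df‖^n`, so `J^(1/n) ≤ ‖Df‖`; `J ‖B‖ = J^((n-1)/n) * J^(1/n) * ‖B‖
  ≤ J^((n-1)/n) * ‖Df‖ * ‖B‖ ≤ K * J^((n-1)/n)`.
-/

set_option autoImplicit false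

open MeasureTheory Set Metric Filter
open scoped ENNReal Topology NNReal

namespace DF88

theorem abs_det_le {n : ℕ} (A : E n →L[ℝ] E n) : |A.det| ≤ ‖A‖ ^ n := by
  have h1 := Measure.addHaar_image_continuousLinearMap (volume : Measure (E n)) A (closedBall 0 1)
  have h2 : A '' closedBall 0 1 ⊆ closedBall 0 ‖A‖ := by
    rintro _ ⟨x, hx, rfl⟩
    rw [mem_closedBall_zero_iff] at hx ⊢
    exact (A.le_opNorm x).trans (mul_le_of_le_one_right (norm_nonneg _) hx)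
  have h3 := Measure.addHaar_closedBall (volume : Measure (E n)) (0 : E n) (norm_nonneg A)
  have h4 := Measure.addHaar_closedBall (volume : Measure (E n)) (0 : E n) zero_le_one
  rw [finrank_euclideanSpace_fin] at h3 h4
  rw [one_pow, ENNReal.ofReal_one, one_mul] at h4
  have h5 := measure_mono (μ := volume) h2
  rw [h1, h3, h4] at h5
  have hk : (volume (ball (0 : E n) 1)) ≠ 0 := (measure_ball_pos volume 0 one_pos).ne'
  have hk' : (volume (ball (0 : E n) 1)) ≠ ⊤ := measure_ball_lt_top.ne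
  have h6 := (ENNReal.mul_le_mul_iff_left hk hk').1 h5
  exact (ENNReal.ofReal_le_ofReal_iff (by positivity)).1 h6

private theorem B1_comp {n : ℕ} {K : ℝ} {f g : E n → E n} (h : KQ n K f g) (x : E n) :
    (fderiv ℝ g (f x)).comp (fderiv ℝ f x) = ContinuousLinearMap.id ℝ (E n) := by
  have hf : HasFDerivAt f (fderiv ℝ f x) x :=
    ((h.hf.differentiable one_ne_zero) x).hasFDerivAt
  have hg : HasFDerivAt g (fderiv ℝ g (f x)) (f x) :=
    ((h.hg.differentiable one_ne_zero) (f x)).hasFDerivAt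
  have hc := hg.comp x hf
  have he : g ∘ f = id := funext h.gf
  rw [he] at hc
  exact hc.unique (hasFDerivAt_id x)

theorem KQ.det_mul {n : ℕ} {K : ℝ} {f g : E n → E n} (h : KQ n K f g) (x : E n) :
    |(fderiv ℝ f x).det| * |(fderiv ℝ g (f x)).det| = 1 := by
  have h1 : LinearMap.det (((fderiv ℝ g (f x)).comp (fderiv ℝ f x) : E n →L[ℝ] E n) :
      E n →ₗ[ℝ] E n) = 1 := by
    rw [B1_comp h x, ContinuousLinearMap.coe_id, LinearMap.det_id]
  have h2 : LinearMap.det (((fderiv ℝ g (f x)).comp (fderiv ℝ f x) : E n →L[ℝ] E n) :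
      E n →ₗ[ℝ] E n) = LinearMap.det (fderiv ℝ g (f x) : E n →ₗ[ℝ] E n) *
    LinearMap.det (fderiv ℝ f x : E n →ₗ[ℝ] E n) := LinearMap.det_comp _ _
  rw [← abs_mul, mul_comm]
  change |LinearMap.det (fderiv ℝ g (f x) : E n →ₗ[ℝ] E n) *
    LinearMap.det (fderiv ℝ f x : E n →ₗ[ℝ] E n)| = 1
  rw [← h2, h1, abs_one]

theorem KQ.det_pos {n : ℕ} {K : ℝ} {f g : E n → E n} (h : KQ n K f g) (x : E n) :
    0 < |(fderiv ℝ f x).det| := by
  rcases (abs_nonneg (fderiv ℝ f x).det).eq_or_lt with h0 | h0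
  · have := h.det_mul x
    rw [← h0, zero_mul] at this
    exact absurd this zero_ne_one
  · exact h0

theorem KQ.one_le {n : ℕ} {K : ℝ} {f g : E n → E n} (h : KQ n K f g) (hn : 1 ≤ n) : 1 ≤ K := by
  have : Nonempty (Fin n) := ⟨⟨0, hn⟩⟩
  have : Nontrivial (E n) := inferInstance
  have h1 := B1_comp h 0
  have h2 := ContinuousLinearMap.opNorm_comp_le (fderiv ℝ g (f 0)) (fderiv ℝ f 0)
  rw [h1, ContinuousLinearMap.norm_id, mul_comm] at h2
  exact h2.trans (h.cond 0)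

private theorem B1_K {n : ℕ} {K : ℝ} {f g : E n → E n} (h : KQ n K f g) : 0 ≤ K :=
  (mul_nonneg (norm_nonneg _) (norm_nonneg _)).trans (h.cond 0)

theorem KQ.norm_pow_le {n : ℕ} {K : ℝ} {f g : E n → E n} (h : KQ n K f g) (x : E n) :
    ‖fderiv ℝ f x‖ ^ n ≤ K ^ n * |(fderiv ℝ f x).det| := by
  have h1 := h.det_mul x
  have h2 := abs_det_le (fderiv ℝ g (f x))
  have h3 : (‖fderiv ℝ f x‖ * ‖fderiv ℝ g (f x)‖) ^ n ≤ K ^ n :=
    pow_le_pow_left₀ (by positivity) (h.cond x) n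
  rw [mul_pow] at h3
  have h4 := h.det_pos x
  calc ‖fderiv ℝ f x‖ ^ n
      = ‖fderiv ℝ f x‖ ^ n * (|(fderiv ℝ f x).det| * |(fderiv ℝ g (f x)).det|) := by
        rw [h1, mul_one]
    _ ≤ ‖fderiv ℝ f x‖ ^ n * (|(fderiv ℝ f x).det| * ‖fderiv ℝ g (f x)‖ ^ n) := by gcongr
    _ = (‖fderiv ℝ f x‖ ^ n * ‖fderiv ℝ g (f x)‖ ^ n) * |(fderiv ℝ f x).det| := by ring
    _ ≤ K ^ n * |(fderiv ℝ f x).det| := by gcongr

theorem KQ.inv_norm_mul_le {n : ℕ} {K : ℝ} {f g : E n → E n} (h : KQ n K f g) (hn : 1 ≤ n)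
    (x : E n) :
    |(fderiv ℝ f x).det| * ‖fderiv ℝ g (f x)‖
      ≤ K * |(fderiv ℝ f x).det| ^ (((n : ℝ) - 1) / n) := by
  set J : ℝ := |(fderiv ℝ f x).det| with hJ
  have hJ0 : 0 < J := h.det_pos x
  have hn0 : (n : ℝ) ≠ 0 := by
    have : (1 : ℝ) ≤ n := by exact_mod_cast hn
    linarith
  have hn1 : n ≠ 0 := by omega
  have h1 : J ^ ((1 : ℝ) / n) ≤ ‖fderiv ℝ f x‖ := by
    have h2 := Real.rpow_le_rpow hJ0.le (abs_det_le (fderiv ℝ f x)) (by positivity : (0:ℝ) ≤ 1 / n)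
    rw [one_div] at h2 ⊢
    rwa [Real.pow_rpow_inv_natCast (norm_nonneg _) hn1] at h2
  have h3 : J = J ^ (((n : ℝ) - 1) / n) * J ^ ((1 : ℝ) / n) := by
    rw [← Real.rpow_add hJ0, ← add_div, sub_add_cancel, div_self hn0, Real.rpow_one]
  have h4 : 0 ≤ J ^ (((n : ℝ) - 1) / n) := by positivity
  calc J * ‖fderiv ℝ g (f x)‖
      = J ^ (((n : ℝ) - 1) / n) * (J ^ ((1 : ℝ) / n) * ‖fderiv ℝ g (f x)‖) := by
        conv_lhs => rw [h3]
        ring
    _ ≤ J ^ (((n : ℝ) - 1) / n) * (‖fderiv ℝ f x‖ * ‖fderiv ℝ g (f x)‖) := by gcongr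
    _ ≤ J ^ (((n : ℝ) - 1) / n) * K := by
        gcongr
        exact h.cond x
    _ = K * J ^ (((n : ℝ) - 1) / n) := by ring

end DF88
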