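import Pool.Agent.H88.DF.B3

/-!
# B4 : outer and inner radius
Paper proof. `closedBall z r` and `sphere z r` are compact (nonempty: `r ≥ 0`, for the sphere
`n ≥ 1`), so sup and inf are attained (`IsCompact.exists_isMaxOn`), and they bound all values
(`le_csSup`, `csInf_le`).
* `lf_le_norm` has no continuity assumption: the set is bounded below by 0.
* `lf_pos`: the inf is attained at some `b ≠ z` and `f` is injective.
* `image_inv_ball_subset`: let `y ∈ ball (f z) s`; the function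
  `t ↦ dist (g (f z + t • (y - f z))) z` is continuous on `[0,1]`, equals `0` at `t = 0`, and never
  equals `r`: if `dist (g p) z = r` with `p = f z + t • (y - f z)` then
  `lf f z r ≤ ‖f (g p) - f z‖ = ‖p - f z‖ = t ‖y - f z‖ < s ≤ lf f z r`. By the intermediate value
  theorem it is `< r` at `t = 1`.
* `ball_subset_image`: from the previous one with `s = lf f z r`, `y = f (g y)`.
* `vr_le_Lf`: `f '' ball z r ⊆ closedBall (f z) (Lf f z r)`, use `vr_mono`, `vr_closedBall`.
-/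

set_option autoImplicit false

open MeasureTheory Set Metric Filter
open scoped ENNReal Topology NNReal

namespace DF88

theorem B4_cont {n : ℕ} {f : E n → E n} (hf : Continuous f) (z : E n) :
    Continuous (fun y => ‖f y - f z‖) := (hf.sub continuous_const).norm

theorem norm_le_Lf {n : ℕ} {f : E n → E n} (hf : Continuous f) {z y : E n} {r : ℝ}
    (hy : dist y z ≤ r) : ‖f y - f z‖ ≤ Lf f z r :=
  le_csSup ((isCompact_closedBall z r).image (B4_cont hf z)).bddAbove ⟨y, hy, rfl⟩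

theorem exists_Lf {n : ℕ} {f : E n → E n} (hf : Continuous f) (z : E n) {r : ℝ} (hr : 0 ≤ r) :
    ∃ a, dist a z ≤ r ∧ ‖f a - f z‖ = Lf f z r := by
  obtain ⟨a, ha, h⟩ := (isCompact_closedBall z r).exists_sSup_image_eq
    ⟨z, mem_closedBall_self hr⟩ (B4_cont hf z).continuousOn
  exact ⟨a, ha, h.symm⟩

theorem B4_bdd {n : ℕ} (f : E n → E n) (z : E n) (r : ℝ) :
    BddBelow ((fun y => ‖f y - f z‖) '' sphere z r) :=
  ⟨0, by rintro _ ⟨y, -, rfl⟩; exact norm_nonneg _⟩

theorem lf_le_norm {n : ℕ} {f : E n → E n} {z y : E n} {r : ℝ}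
    (hy : dist y z = r) : lf f z r ≤ ‖f y - f z‖ :=
  csInf_le (B4_bdd f z r) ⟨y, hy, rfl⟩

theorem exists_lf {n : ℕ} (hn : 1 ≤ n) {f : E n → E n} (hf : Continuous f) (z : E n) {r : ℝ}
    (hr : 0 ≤ r) : ∃ b, dist b z = r ∧ ‖f b - f z‖ = lf f z r := by
  have : Nonempty (Fin n) := ⟨⟨0, hn⟩⟩
  have hne : (sphere z r).Nonempty := NormedSpace.sphere_nonempty.mpr hr
  obtain ⟨b, hb, h⟩ := (isCompact_sphere z r).exists_sInf_image_eq hne (B4_cont hf z).continuousOn
  exact ⟨b, hb, h.symm⟩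

theorem KQ.lf_pos {n : ℕ} (hn : 1 ≤ n) {K : ℝ} {f g : E n → E n} (h : KQ n K f g) (z : E n)
    {r : ℝ} (hr : 0 < r) : 0 < lf f z r := by
  obtain ⟨b, hb, h1⟩ := exists_lf hn h.hf.continuous z hr.le
  rw [← h1, norm_pos_iff, sub_ne_zero]
  intro h2
  have h3 : b = z := by rw [← h.gf b, ← h.gf z, h2]
  rw [h3, dist_self] at hb
  exact hr.ne hb

theorem KQ.image_inv_ball_subset {n : ℕ} {K : ℝ} {f g : E n → E n} (h : KQ n K f g)
    (z : E n) {r s : ℝ} (hr : 0 < r) (hs : s ≤ lf f z r) : g '' ball (f z) s ⊆ ball z r := by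
  rintro _ ⟨y, hy, rfl⟩
  rw [mem_ball, dist_eq_norm] at hy
  rw [mem_ball]
  by_contra hcon
  push Not at hcon
  set φ : ℝ → ℝ := fun t => dist (g (f z + t • (y - f z))) z with hφ
  have hc : Continuous φ := by
    have hg := h.hg.continuous
    fun_prop
  have h0 : φ 0 = 0 := by
    rw [hφ]
    simp only [zero_smul, add_zero, h.gf, dist_self]
  have h1 : r ≤ φ 1 := by
    rw [hφ]
    simp only [one_smul, add_sub_cancel]
    exact hcon
  obtain ⟨t, ht, htr⟩ := intermediate_value_Icc (zero_le_one' ℝ) hc.continuousOn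
    (show r ∈ Icc (φ 0) (φ 1) from ⟨by rw [h0]; exact hr.le, h1⟩)
  have h2 : dist (g (f z + t • (y - f z))) z = r := htr
  have h3 := lf_le_norm (f := f) h2
  rw [h.fg, add_sub_cancel_left, norm_smul, Real.norm_of_nonneg ht.1] at h3
  have h4 : t * ‖y - f z‖ ≤ ‖y - f z‖ := mul_le_of_le_one_left (norm_nonneg _) ht.2
  linarith

theorem KQ.ball_subset_image {n : ℕ} {K : ℝ} {f g : E n → E n} (h : KQ n K f g)
    (z : E n) {r : ℝ} (hr : 0 < r) : ball (f z) (lf f z r) ⊆ f '' ball z r := by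
  intro y hy
  exact ⟨g y, h.image_inv_ball_subset z hr le_rfl ⟨y, hy, rfl⟩, h.fg y⟩

theorem vr_le_Lf {n : ℕ} (hn : 1 ≤ n) {f : E n → E n} (hf : Continuous f) (z : E n) {r : ℝ}
    (hr : 0 ≤ r) : vr (f '' ball z r) ≤ Lf f z r := by
  have h0 : 0 ≤ Lf f z r := (norm_nonneg _).trans
    (norm_le_Lf hf (z := z) (y := z) (by rw [dist_self]; exact hr))
  have h1 : f '' ball z r ⊆ closedBall (f z) (Lf f z r) := by
    rintro _ ⟨y, hy, rfl⟩
    rw [mem_closedBall, dist_eq_norm]
    exact norm_le_Lf hf (mem_ball.mp hy).le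
  calc vr (f '' ball z r) ≤ vr (closedBall (f z) (Lf f z r)) :=
        vr_mono h1 measure_closedBall_lt_top.ne
    _ = _ := vr_closedBall hn _ h0

end DF88
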