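import Pool.Agent.H88.DF.A1
import Pool.Agent.H88.DF.A2
import Pool.Agent.H88.DF.B3

/-!
# C1 : a point where `u` is far from its mean has a ball with large energy (fixed dimension)
Paper proof. Let `κ = (kap n).toReal`, `θ = 1 - 2^(-1/n) > 0` (so `∑_{j≥0} θ 2^(-j/n) = 1`),
`δ = κ * min ((1/8)^n) ((θ/4)^n / 2)` (any smaller positive number is fine).
Write `A(x,ρ) = av u x ρ`, `Φ(x,ρ) = ∫_{ball x ρ} ‖∇u‖^n`.
(1) `|A(x,2r) - m| ≤ 1/4`: `norm_av_sub_av_le` from the ball `(z, 4r)` to the ball `(x, 2r)`,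
all intermediate radii are `≥ 2r`, and `av_norm_fderiv_le` with `I = (δ/κ)^(1/n) ≤ 1/8` gives
`av ‖∇u‖ ≤ I/(2r)`; the path length is `dist x z + 2r ≤ 4r`; `4r * I/(2r) = 2 I ≤ 1/4`.
(2) Hence `|u x - A(x,2r)| ≥ 1/4`. With `ρ_j = 2r/2^j` and `A(x,ρ_j) → u x` (`tendsto_av`) there is
`j` with `|A(x,ρ_{j+1}) - A(x,ρ_j)| ≥ (θ/4) 2^(-j/n)` (otherwise the sum of the differences is
`< 1/4`).
(3) `norm_av_sub_av_le` between radii `ρ_{j+1} = ρ_j/2` and `ρ_j` at the centre `x`, with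
`av ‖∇u‖ ≤ I_j/ρ_{j+1}`, `I_j = (Φ(x,ρ_j)/κ)^(1/n)` for the intermediate balls (they are contained
in `ball x ρ_j`): `|A(x,ρ_{j+1}) - A(x,ρ_j)| ≤ (ρ_j/2) I_j/ρ_{j+1} = I_j`. So
`Φ(x,ρ_j) ≥ κ (θ/4)^n 2^(-j) = κ (θ/4)^n ρ_j/(2r) ≥ δ ρ_j/r`. (Choose `δ ≤ κ (θ/4)^n/2`.)
-/

set_option autoImplicit false

open MeasureTheory Set Metric Filter
open scoped ENNReal Topology NNReal

namespace DF88

private theorem C1_step {n : ℕ} (hn : 1 ≤ n) {u : E n → ℝ} (hu : ContDiff ℝ 1 u) (z x : E n)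
    {r₀ r₁ ρ I : ℝ} (hr₀ : 0 < r₀) (hr₁ : 0 < r₁) (hρ : 0 < ρ) (h0 : ρ ≤ r₀) (h1 : ρ ≤ r₁)
    (hI : 0 ≤ I)
    (h : ∀ s ∈ Icc (0 : ℝ) 1,
      ∫⁻ y in ball (z + s • (x - z)) (r₀ + s * (r₁ - r₀)), ‖fderiv ℝ u y‖ₑ ^ n ≤
        ENNReal.ofReal (I ^ n) * kap n) :
    ‖av u x r₁ - av u z r₀‖ ≤ (‖x - z‖ + |r₁ - r₀|) * (I / ρ) := by
  refine norm_av_sub_av_le hn hu z x hr₀ hr₁ ?_
  intro s hs
  obtain ⟨hs0, hs1⟩ := hs
  have hrad : ρ ≤ r₀ + s * (r₁ - r₀) := by nlinarith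
  have hpos : 0 < r₀ + s * (r₁ - r₀) := lt_of_lt_of_le hρ hrad
  refine (av_norm_fderiv_le hn hu _ hpos hI (h s ⟨hs0, hs1⟩)).trans ?_
  exact div_le_div_of_nonneg_left hI hρ hrad

theorem local_energy {n : ℕ} (hn : 1 ≤ n) : ∃ δ : ℝ, 0 < δ ∧ ∀ (u : E n → ℝ),
    ContDiff ℝ 1 u → ∀ (x z : E n) (r m : ℝ), 0 < r → dist x z ≤ 2 * r → m = av u z (4 * r) →
      1 / 2 ≤ |u x - m| → (∫⁻ y, ‖fderiv ℝ u y‖ₑ ^ n) ≤ ENNReal.ofReal δ →
      ∃ ρ : ℝ, 0 < ρ ∧ ρ ≤ 2 * r ∧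
        ENNReal.ofReal (δ * ρ / r) ≤ ∫⁻ y in closedBall x ρ, ‖fderiv ℝ u y‖ₑ ^ n := by
  classical
  set κ : ℝ := (kap n).toReal with hκdef
  have hκ : 0 < κ := ENNReal.toReal_pos (kap_pos n).ne' (kap_ne_top n)
  have hkap : kap n = ENNReal.ofReal κ := (ENNReal.ofReal_toReal (kap_ne_top n)).symm
  have hn0 : (n : ℝ) ≠ 0 := by
    have : (1 : ℝ) ≤ n := by exact_mod_cast hn
    linarith
  set q : ℝ := (1 / 2 : ℝ) ^ ((1 : ℝ) / n) with hqdef
  have hq0 : 0 < q := Real.rpow_pos_of_pos (by norm_num) _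
  have hqn : q ^ n = 1 / 2 := by
    rw [hqdef, ← Real.rpow_natCast, ← Real.rpow_mul (by norm_num), one_div_mul_cancel hn0,
      Real.rpow_one]
  have hq1 : q < 1 := by
    rw [hqdef]
    refine Real.rpow_lt_one (by norm_num) (by norm_num) ?_
    have : (1 : ℝ) ≤ n := by exact_mod_cast hn
    positivity
  set θ : ℝ := 1 - q with hθdef
  have hθ : 0 < θ := by rw [hθdef]; linarith
  refine ⟨κ * min ((1 / 8) ^ n) ((θ / 5) ^ n / 2), ?_, ?_⟩
  · have : (0 : ℝ) < min ((1 / 8) ^ n) ((θ / 5) ^ n / 2) := lt_min (by positivity) (by positivity)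
    positivity
  intro u hu x z r m hr hxz hm hum hE
  set δ : ℝ := κ * min ((1 / 8) ^ n) ((θ / 5) ^ n / 2) with hδdef
  have hδ1 : δ ≤ (1 / 8) ^ n * κ := by
    rw [hδdef, mul_comm]
    exact mul_le_mul_of_nonneg_right (min_le_left _ _) hκ.le
  have hδ2 : δ ≤ (θ / 5) ^ n / 2 * κ := by
    rw [hδdef, mul_comm]
    exact mul_le_mul_of_nonneg_right (min_le_right _ _) hκ.le
  -- step 1
  have h1 : ‖av u x (2 * r) - av u z (4 * r)‖ ≤ 1 / 4 := by
    have := C1_step hn hu z x (r₀ := 4 * r) (r₁ := 2 * r) (ρ := 2 * r) (I := 1 / 8)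
      (by positivity) (by positivity) (by positivity) (by linarith) le_rfl (by norm_num) (by
        intro s _
        refine (setLIntegral_le_lintegral _ _).trans (hE.trans ?_)
        rw [hkap, ← ENNReal.ofReal_mul (by positivity)]
        exact ENNReal.ofReal_le_ofReal hδ1)
    refine this.trans ?_
    have hn1 : ‖x - z‖ ≤ 2 * r := by rw [← dist_eq_norm]; exact hxz
    have hn2 : |2 * r - 4 * r| = 2 * r := by
      rw [abs_of_nonpos (by linarith)]; ring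
    rw [hn2]
    calc (‖x - z‖ + 2 * r) * (1 / 8 / (2 * r)) ≤ (2 * r + 2 * r) * (1 / 8 / (2 * r)) := by
          refine mul_le_mul_of_nonneg_right (by linarith) (by positivity)
      _ = 1 / 4 := by field_simp; ring
  by_contra hcon
  push Not at hcon
  have hstep : ∀ j : ℕ, ‖av u x (2 * r / 2 ^ (j + 1)) - av u x (2 * r / 2 ^ j)‖ ≤
      θ / 5 * q ^ j := by
    intro j
    have hp : (0 : ℝ) < 2 ^ j := by positivity
    have hp1 : (1 : ℝ) ≤ 2 ^ j := one_le_pow₀ (by norm_num)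
    have hρ1 : 2 * r / 2 ^ (j + 1) = (2 * r / 2 ^ j) / 2 := by rw [pow_succ]; field_simp
    set ρ : ℝ := 2 * r / 2 ^ j with hρdef
    have hρ : 0 < ρ := by rw [hρdef]; positivity
    have hρle : ρ ≤ 2 * r := by
      rw [hρdef]; exact div_le_self (by positivity) hp1
    rw [hρ1]
    have := C1_step hn hu x x (r₀ := ρ) (r₁ := ρ / 2) (ρ := ρ / 2) (I := θ / 5 * q ^ j)
      hρ (by positivity) (by positivity) (by linarith) le_rfl (by positivity) (by
        intro s hs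
        have hsub : ball (x + s • (x - x)) (ρ + s * (ρ / 2 - ρ)) ⊆ closedBall x ρ := by
          rw [sub_self, smul_zero, add_zero]
          refine ball_subset_closedBall.trans (closedBall_subset_closedBall ?_)
          have := hs.1
          nlinarith
        refine (lintegral_mono_set hsub).trans ((hcon ρ hρ hρle).le.trans ?_)
        rw [hkap, ← ENNReal.ofReal_mul (by positivity)]
        refine ENNReal.ofReal_le_ofReal ?_
        have e1 : δ * ρ / r = 2 * δ / 2 ^ j := by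
          rw [hρdef]; field_simp
        have e2 : (θ / 5 * q ^ j) ^ n = (θ / 5) ^ n * (1 / 2 ^ j) := by
          rw [mul_pow, ← pow_mul, mul_comm j n, pow_mul, hqn, one_div, one_div, inv_pow]
        rw [e1, e2]
        have : 2 * δ ≤ (θ / 5) ^ n * κ := by nlinarith
        calc 2 * δ / 2 ^ j ≤ ((θ / 5) ^ n * κ) / 2 ^ j := div_le_div_of_nonneg_right this hp.le
          _ = (θ / 5) ^ n * (1 / 2 ^ j) * κ := by ring)
    refine this.trans (le_of_eq ?_)
    rw [sub_self, norm_zero, zero_add, abs_of_nonpos (by linarith)]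
    field_simp
    ring
  have hsum : ∀ j : ℕ, ‖av u x (2 * r / 2 ^ j) - av u x (2 * r)‖ ≤ 1 / 5 * (1 - q ^ j) := by
    intro j
    induction j with
    | zero => simp
    | succ j ih =>
      have := norm_add_le (av u x (2 * r / 2 ^ (j + 1)) - av u x (2 * r / 2 ^ j))
        (av u x (2 * r / 2 ^ j) - av u x (2 * r))
      rw [sub_add_sub_cancel] at this
      refine this.trans ?_
      refine (add_le_add (hstep j) ih).trans (le_of_eq ?_)
      rw [hθdef, pow_succ]; ring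
  have hlim : Tendsto (fun j : ℕ => av u x (2 * r / 2 ^ j)) atTop (𝓝 (u x)) := by
    refine (tendsto_av hu.continuous x).comp ?_
    have h2 : Tendsto (fun j : ℕ => 2 * r * (1 / 2 : ℝ) ^ j) atTop (𝓝 (2 * r * 0)) :=
      (tendsto_pow_atTop_nhds_zero_of_lt_one (by norm_num) (by norm_num)).const_mul _
    rw [mul_zero] at h2
    refine h2.congr ?_
    intro j
    rw [one_div, inv_pow, div_eq_mul_inv]
  have hfin : ‖u x - av u x (2 * r)‖ ≤ 1 / 5 := by
    have h3 : Tendsto (fun j : ℕ => ‖av u x (2 * r / 2 ^ j) - av u x (2 * r)‖) atTop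
        (𝓝 ‖u x - av u x (2 * r)‖) := (hlim.sub_const _).norm
    refine le_of_tendsto h3 (Eventually.of_forall fun j => (hsum j).trans ?_)
    have : 0 ≤ q ^ j := by positivity
    linarith
  rw [hm] at hum
  have htri : ‖u x - av u z (4 * r)‖ ≤ ‖u x - av u x (2 * r)‖ +
      ‖av u x (2 * r) - av u z (4 * r)‖ := by
    have := norm_add_le (u x - av u x (2 * r)) (av u x (2 * r) - av u z (4 * r))
    rwa [sub_add_sub_cancel] at this
  rw [← Real.norm_eq_abs] at hum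
  linarith

end DF88
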