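import Pool.Agent.H88.DF.Defs

/-!
# C2 : covering argument (Mathlib only)
Paper proof. For `x ∈ P' = P ∩ closedBall p₀ r` choose `ρ x`. By
`Vitali.exists_disjoint_subfamily_covering_enlargement_closedBall` (radii bounded by `2r`) there is
`T ⊆ P'` such that the balls `closedBall x (ρ x)`, `x ∈ T`, are pairwise disjoint and every
`closedBall x (ρ x)` with `x ∈ P'` is contained in `closedBall y (5 ρ y)` for some `y ∈ T`.
`T` is countable (disjoint sets with nonempty interior in a separable space, or balls of positive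
volume). So `∑_{y∈T} ofReal (δ ρ y / r) ≤ ∑ ∫⁻_{closedBall y (ρ y)} h ≤ ∫⁻ h`
(`lintegral_biUnion`). On the other hand `x ↦ dist x p₀` maps the preconnected set `P` onto a
set containing `[0, r)` hence every `t ∈ [0,r)` is `dist x p₀` for some `x ∈ P'`, so
`[0,r) ⊆ ⋃_{y∈T} [dist y p₀ - 5 ρ y, dist y p₀ + 5 ρ y]`, therefore
`ofReal r ≤ ∑_{y∈T} ofReal (10 ρ y)`. Combine:
`ofReal (δ/10) = ofReal (δ/(10 r)) * ofReal r ≤ ∑ ofReal (δ ρ y/r) ≤ ∫⁻ h`.
-/

set_option autoImplicit false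

open MeasureTheory Set Metric Filter
open scoped ENNReal Topology NNReal

namespace DF88

theorem covering {n : ℕ} (hn : 1 ≤ n) (h : E n → ℝ≥0∞) (hh : Measurable h) (P : Set (E n))
    (hP : IsPreconnected P) (p₀ p₁ : E n) (h₀ : p₀ ∈ P) (h₁ : p₁ ∈ P) (r δ : ℝ) (hr : 0 < r)
    (hδ : 0 < δ) (hd : r ≤ dist p₁ p₀)
    (hx : ∀ x ∈ P, dist x p₀ ≤ r → ∃ ρ : ℝ, 0 < ρ ∧ ρ ≤ 2 * r ∧
      ENNReal.ofReal (δ * ρ / r) ≤ ∫⁻ y in closedBall x ρ, h y) :
    ENNReal.ofReal (δ / 10) ≤ ∫⁻ y, h y := by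
  classical
  have hch : ∀ x : E n, ∃ ρ : ℝ, x ∈ P → dist x p₀ ≤ r → 0 < ρ ∧ ρ ≤ 2 * r ∧
      ENNReal.ofReal (δ * ρ / r) ≤ ∫⁻ y in closedBall x ρ, h y := by
    intro x
    by_cases hxP : x ∈ P
    · by_cases hxd : dist x p₀ ≤ r
      · obtain ⟨ρ, h1⟩ := hx x hxP hxd
        exact ⟨ρ, fun _ _ => h1⟩
      · exact ⟨0, fun _ h => absurd h hxd⟩
    · exact ⟨0, fun h => absurd h hxP⟩
  choose ρ hρ using hch
  set P' : Set (E n) := {x | x ∈ P ∧ dist x p₀ ≤ r} with hP'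
  obtain ⟨T, hTP, hTd, hTc⟩ := Vitali.exists_disjoint_subfamily_covering_enlargement_closedBall
    P' (fun x : E n => x) ρ (2 * r) (fun a ha => (hρ a ha.1 ha.2).2.1) 5 (by norm_num)
  have hTcount : T.Countable := by
    refine hTd.countable_of_nonempty_interior fun y hy => ?_
    have hy' := hTP hy
    exact ⟨y, ball_subset_interior_closedBall (mem_ball_self (hρ y hy'.1 hy'.2).1)⟩
  have h1 : ∑' y : T, ∫⁻ z in closedBall (y : E n) (ρ y), h z ≤ ∫⁻ z, h z := by
    rw [← lintegral_biUnion hTcount (fun y _ => measurableSet_closedBall) hTd]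
    exact setLIntegral_le_lintegral _ _
  have h2 : Ico (0 : ℝ) r ⊆ ⋃ y ∈ T, Icc (dist y p₀ - 5 * ρ y) (dist y p₀ + 5 * ρ y) := by
    intro t ht
    have hc : IsPreconnected ((fun x => dist x p₀) '' P) :=
      hP.image _ (by fun_prop)
    have h3 : Icc (dist p₀ p₀) (dist p₁ p₀) ⊆ (fun x => dist x p₀) '' P :=
      hc.Icc_subset ⟨p₀, h₀, rfl⟩ ⟨p₁, h₁, rfl⟩
    obtain ⟨x, hxP, hxt⟩ := h3 ⟨by rw [dist_self]; exact ht.1, ht.2.le.trans hd⟩
    have hxt' : dist x p₀ = t := hxt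
    have hxP' : x ∈ P' := ⟨hxP, by rw [hxt']; exact ht.2.le⟩
    obtain ⟨y, hyT, hy⟩ := hTc x hxP'
    have hxy : dist x y ≤ 5 * ρ y := by
      have := hy (mem_closedBall_self (hρ x hxP'.1 hxP'.2).1.le)
      exact this
    rw [mem_iUnion₂]
    refine ⟨y, hyT, ?_, ?_⟩
    · have := dist_triangle y x p₀
      rw [dist_comm y x, hxt'] at this
      linarith
    · have := dist_triangle x y p₀
      rw [hxt'] at this
      linarith
  have h3 : ENNReal.ofReal r ≤ ∑' y : T, ENNReal.ofReal (10 * ρ y) := by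
    calc ENNReal.ofReal r = volume (Ico (0 : ℝ) r) := by rw [Real.volume_Ico, sub_zero]
      _ ≤ volume (⋃ y ∈ T, Icc (dist y p₀ - 5 * ρ y) (dist y p₀ + 5 * ρ y)) := measure_mono h2
      _ ≤ ∑' y : T, volume (Icc (dist (y : E n) p₀ - 5 * ρ y) (dist (y : E n) p₀ + 5 * ρ y)) :=
          measure_biUnion_le _ hTcount _
      _ = ∑' y : T, ENNReal.ofReal (10 * ρ y) := by
          refine tsum_congr fun y => ?_
          rw [Real.volume_Icc]
          congr 1
          ring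
  calc ENNReal.ofReal (δ / 10) = ENNReal.ofReal (δ / (10 * r)) * ENNReal.ofReal r := by
        rw [← ENNReal.ofReal_mul (by positivity)]
        congr 1
        field_simp
    _ ≤ ENNReal.ofReal (δ / (10 * r)) * ∑' y : T, ENNReal.ofReal (10 * ρ y) := by gcongr
    _ = ∑' y : T, ENNReal.ofReal (δ * ρ y / r) := by
        rw [← ENNReal.tsum_mul_left]
        refine tsum_congr fun y => ?_
        rw [← ENNReal.ofReal_mul (by positivity)]
        congr 1
        field_simp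
    _ ≤ ∑' y : T, ∫⁻ z in closedBall (y : E n) (ρ y), h z := by
        refine ENNReal.tsum_le_tsum fun y => ?_
        have hy := hTP y.2
        exact (hρ y hy.1 hy.2).2.2
    _ ≤ ∫⁻ z, h z := h1

end DF88
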