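import Pool.Agent.H88.DF.C1
import Pool.Agent.H88.DF.C2

/-!
# C3 : classical Loewner property for connected sets (fixed dimension)
Paper proof. `δ₁` from `local_energy`, `δ = δ₁/10`. If the energy `∫⁻ ‖∇u‖^n` is larger than
`δ₁` done; otherwise it is `≤ δ₁`. Let `m = av u z (4r)`. If `m ≥ 1/2` use `P`: every `x ∈ P` with
`dist x p₀ ≤ r` has `dist x z ≤ 2r` and `|u x - m| = |m| ≥ 1/2`, so `local_energy` provides the
radii and `covering` gives `δ₁/10 ≤ energy`. If `m < 1/2` use `Q` in the same way,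
`|u x - m| = |1 - m| ≥ 1/2`.
-/

set_option autoImplicit false

open MeasureTheory Set Metric Filter
open scoped ENNReal Topology NNReal

namespace DF88

theorem loewner {n : ℕ} (hn : 1 ≤ n) : ∃ δ : ℝ, 0 < δ ∧ ∀ (u : E n → ℝ), ContDiff ℝ 1 u →
    ∀ (P Q : Set (E n)) (z p₀ p₁ q₀ q₁ : E n) (r : ℝ), 0 < r → IsPreconnected P →
      IsPreconnected Q → p₀ ∈ P → p₁ ∈ P → q₀ ∈ Q → q₁ ∈ Q → dist p₀ z ≤ r → dist q₀ z ≤ r →
      r ≤ dist p₁ p₀ → r ≤ dist q₁ q₀ → (∀ x ∈ P, u x = 0) → (∀ x ∈ Q, u x = 1) →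
      ENNReal.ofReal δ ≤ ∫⁻ x, ‖fderiv ℝ u x‖ₑ ^ n := by
  obtain ⟨δ₁, hδ₁, hloc⟩ := local_energy (n := n) hn
  refine ⟨δ₁ / 10, by positivity, ?_⟩
  intro u hu P Q z p₀ p₁ q₀ q₁ r hr hP hQ hp₀ hp₁ hq₀ hq₁ hpz hqz hpp hqq huP huQ
  have hmeas : Measurable fun y => ‖fderiv ℝ u y‖ₑ ^ n := by
    apply Measurable.pow_const
    exact (hu.continuous_fderiv (by norm_num)).measurable.enorm
  by_cases hE : (∫⁻ y, ‖fderiv ℝ u y‖ₑ ^ n) ≤ ENNReal.ofReal δ₁
  · by_cases hm : 1 / 2 ≤ av u z (4 * r)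
    · refine covering hn _ hmeas P hP p₀ p₁ hp₀ hp₁ r δ₁ hr hδ₁ hpp ?_
      intro x hx hxp
      refine hloc u hu x z r (av u z (4 * r)) hr ?_ rfl ?_ hE
      · calc dist x z ≤ dist x p₀ + dist p₀ z := dist_triangle _ _ _
          _ ≤ 2 * r := by linarith
      · rw [huP x hx, zero_sub, abs_neg]
        exact hm.trans (le_abs_self _)
    · push Not at hm
      refine covering hn _ hmeas Q hQ q₀ q₁ hq₀ hq₁ r δ₁ hr hδ₁ hqq ?_
      intro x hx hxq
      refine hloc u hu x z r (av u z (4 * r)) hr ?_ rfl ?_ hE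
      · calc dist x z ≤ dist x q₀ + dist q₀ z := dist_triangle _ _ _
          _ ≤ 2 * r := by linarith
      · rw [huQ x hx]
        have : 1 / 2 ≤ 1 - av u z (4 * r) := by linarith
        exact this.trans (le_abs_self _)
  · push Not at hE
    refine le_trans ?_ hE.le
    apply ENNReal.ofReal_le_ofReal
    linarith

end DF88
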