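import Mathlib

/-!
# Dimension-free quasisymmetry of quasiconformal diffeomorphisms: definitions
-/

set_option autoImplicit false

open MeasureTheory Set Metric Filter
open scoped ENNReal Topology NNReal

namespace DF88

/-- Euclidean space of dimension `n` -/
abbrev E (n : ℕ) : Type := EuclideanSpace ℝ (Fin n)

/-- `f` is a `C¹` diffeomorphism of `E n` onto `E n` with inverse `g` and linear dilatation
`‖Df‖ ‖(Df)⁻¹‖ ≤ K` everywhere -/
structure KQ (n : ℕ) (K : ℝ) (f g : E n → E n) : Prop where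
  hf : ContDiff ℝ 1 f
  hg : ContDiff ℝ 1 g
  gf : ∀ x, g (f x) = x
  fg : ∀ y, f (g y) = y
  cond : ∀ x, ‖fderiv ℝ f x‖ * ‖fderiv ℝ g (f x)‖ ≤ K

/-- the volume of the unit ball -/
noncomputable def kap (n : ℕ) : ℝ≥0∞ := volume (ball (0 : E n) 1)

/-- the volume radius `(|S| / |B(0,1)|)^(1/n)` -/
noncomputable def vr {n : ℕ} (S : Set (E n)) : ℝ :=
  ((volume S).toReal / (kap n).toReal) ^ ((1 : ℝ) / n)

/-- outer radius: `sup` of `‖f y - f z‖` over the closed ball -/
noncomputable def Lf {n : ℕ} (f : E n → E n) (z : E n) (r : ℝ) : ℝ :=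
  sSup ((fun y => ‖f y - f z‖) '' closedBall z r)

/-- inner radius: `inf` of `‖f y - f z‖` over the sphere -/
noncomputable def lf {n : ℕ} (f : E n → E n) (z : E n) (r : ℝ) : ℝ :=
  sInf ((fun y => ‖f y - f z‖) '' sphere z r)

/-- the average of `f` over the ball of centre `z` and radius `r` -/
noncomputable def av {n : ℕ} {F : Type*} [NormedAddCommGroup F] [NormedSpace ℝ F]
    (f : E n → F) (z : E n) (r : ℝ) : F :=
  ⨍ u in ball (0 : E n) 1, f (z + r • u)

/-- `f` is `η`-quasisymmetric -/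
def IsQS {X Y : Type*} [MetricSpace X] [MetricSpace Y] (η : ℝ≥0 ≃ₜ ℝ≥0) (f : X → Y) : Prop :=
  ∀ t : ℝ≥0, 0 < t → ∀ x a b : X, dist x a ≤ t * dist x b →
    dist (f x) (f a) ≤ η t * dist (f x) (f b)

/-- the linear dilatation `limsup_{r → 0} L_f(x,r) / l_f(x,r)`, where `L_f(x,r)` is the supremum of
`|f y - f x|` over `|y - x| ≤ r` and `l_f(x,r)` its infimum over `|y - x| = r` -/
noncomputable def dilat {X Y : Type*} [MetricSpace X] [MetricSpace Y] (f : X → Y) (x : X) :
    ℝ≥0∞ :=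
  limsup (fun r : ℝ => (⨆ (y : X) (_ : dist y x ≤ r), edist (f y) (f x)) /
    (⨅ (y : X) (_ : dist y x = r), edist (f y) (f x))) (𝓝[>] 0)

/-- `f` is `K`-quasiconformal (metric definition) -/
def IsKQC {X Y : Type*} [MetricSpace X] [MetricSpace Y] (K : ℝ) (f : X → Y) : Prop :=
  ∀ x, dilat f x ≤ ENNReal.ofReal K

/-- on every finite subset of the dense set `D`, `f` can be approximated by `K`-quasiconformal
`C¹` diffeomorphisms between finite dimensional subspaces -/
def FinApprox {H : Type} [NormedAddCommGroup H] [InnerProductSpace ℝ H] (K : ℝ) (f : H → H) :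
    Prop :=
  ∃ D : Set H, Dense D ∧ ∀ S : Finset H, (S : Set H) ⊆ D → ∀ ε : ℝ, 0 < ε →
    ∃ (V W : Submodule ℝ H) (F : V ≃ₜ W), FiniteDimensional ℝ V ∧ FiniteDimensional ℝ W ∧
      ContDiff ℝ 1 F ∧ ContDiff ℝ 1 F.symm ∧ IsKQC K F ∧
      ∀ x ∈ S, ∃ hx : x ∈ V, ‖((F ⟨x, hx⟩ : W) : H) - f x‖ < ε

theorem KQ.symm {n : ℕ} {K : ℝ} {f g : E n → E n} (h : KQ n K f g) : KQ n K g f where
  hf := h.hg
  hg := h.hf
  gf := h.fg
  fg := h.gf
  cond := by
    intro y
    have := h.cond (g y)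
    rw [h.fg] at this
    rw [mul_comm]; exact this

end DF88
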