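import Pool.Agent.H88.DF.B1
import Pool.Agent.H88.DF.B2
import Pool.Agent.H88.DF.B3
import Pool.Agent.H88.DF.G4

/-!
# T1 : test functions of small energy
Paper proof. `M₀` from `exists_cutoff`, `M = 2 M₀`. Let `v_j` (`j < N`) be the cutoff at `w` with
radii `2^j a < 2^(j+1) a`, and `U = (1/N) ∑_{j<N} (1 - v_j)`. Then `U = 0` for `dist y w ≤ a`,
`U = 1` for `dist y w ≥ 2^N a`. The gradient of `v_j` vanishes outside the shell
`2^j a ≤ dist y w < 2^(j+1) a`, these shells are disjoint, and on it it is at most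
`M₀/(2^j a)`. So `∫⁻ ‖∇U‖^n ≤ ∑_j (M₀/(N 2^j a))^n |ball w (2^(j+1) a)| = ∑_j (2 M₀/N)^n kap
= N (M/N)^n kap`.
`energy_comp`: `‖fderiv (U ∘ f) x‖ ≤ ‖fderiv U (f x)‖ ‖fderiv f x‖`, `‖fderiv f x‖^n ≤ K^n J(x)`
(`KQ.norm_pow_le`), and `∫⁻ x, J(x) ‖fderiv U (f x)‖^n = ∫⁻ y, ‖fderiv U y‖^n`
(`KQ.lintegral_image`).
-/

set_option autoImplicit false

open MeasureTheory Set Metric Filter
open scoped ENNReal Topology NNReal

namespace DF88

theorem exists_test : ∃ M : ℝ, 1 ≤ M ∧ ∀ (n : ℕ), 1 ≤ n → ∀ (w : E n) (a : ℝ) (N : ℕ), 0 < a →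
    1 ≤ N → ∃ U : E n → ℝ, ContDiff ℝ 1 U ∧
      (∀ y, dist y w ≤ a → U y = 0) ∧ (∀ y, 2 ^ N * a ≤ dist y w → U y = 1) ∧
      ∫⁻ y, ‖fderiv ℝ U y‖ₑ ^ n ≤ ENNReal.ofReal ((M / N) ^ n * N) * kap n := by
  obtain ⟨M₀, hM₀, hcut⟩ := exists_cutoff
  refine ⟨2 * M₀, by linarith, ?_⟩
  intro n hn w a N ha hN
  have hrad : ∀ j : ℕ, 0 < 2 ^ j * a := fun j => by positivity
  have hrad2 : ∀ j : ℕ, 2 ^ j * a < 2 ^ (j + 1) * a := fun j => by
    have := hrad j
    rw [pow_succ]
    linarith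
  choose v hv1 hv2 hv3 hv4 hv5 hv6 hv7 hv8 using fun j : ℕ =>
    hcut n w (2 ^ j * a) (2 ^ (j + 1) * a) (hrad j) (hrad2 j)
  have hNr : (0 : ℝ) < N := by exact_mod_cast hN
  have hpow : ∀ {i j : ℕ}, i ≤ j → (2 : ℝ) ^ i * a ≤ 2 ^ j * a := fun {i j} hij =>
    mul_le_mul_of_nonneg_right (pow_le_pow_right₀ one_le_two hij) ha.le
  refine ⟨fun y => (1 / N : ℝ) * ∑ j ∈ Finset.range N, (1 - v j y), ?_, ?_, ?_, ?_⟩
  · exact contDiff_const.mul (ContDiff.sum fun j _ => contDiff_const.sub (hv1 j))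
  · intro y hy
    have : ∀ j ∈ Finset.range N, 1 - v j y = 0 := by
      intro j _
      have h1 := hpow (Nat.zero_le j)
      rw [pow_zero, one_mul] at h1
      rw [hv4 j y (hy.trans h1), sub_self]
    simp only [Finset.sum_eq_zero this, mul_zero]
  · intro y hy
    have : ∀ j ∈ Finset.range N, 1 - v j y = 1 := by
      intro j hj
      have hj' := Finset.mem_range.1 hj
      rw [hv5 j y ((hpow hj').trans hy), sub_zero]
    simp only [Finset.sum_congr rfl this, Finset.sum_const, Finset.card_range, nsmul_eq_mul, mul_one]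
    field_simp
  · set S : ℕ → Set (E n) := fun j => ball w (2 ^ (j + 1) * a) \ ball w (2 ^ j * a) with hS
    have hSm : ∀ j, MeasurableSet (S j) := fun j => measurableSet_ball.diff measurableSet_ball
    have hder : ∀ y, fderiv ℝ (fun y => (1 / N : ℝ) * ∑ j ∈ Finset.range N, (1 - v j y)) y =
        (1 / N : ℝ) • ∑ j ∈ Finset.range N, (-fderiv ℝ (v j) y) := by
      intro y
      have hd : ∀ j, HasFDerivAt (v j) (fderiv ℝ (v j) y) y := fun j =>
        ((hv1 j).differentiable one_ne_zero y).hasFDerivAt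
      have hsum : HasFDerivAt (fun y => ∑ j ∈ Finset.range N, (1 - v j y))
          (∑ j ∈ Finset.range N, (-fderiv ℝ (v j) y)) y :=
        HasFDerivAt.fun_sum fun j _ => (hd j).const_sub 1
      exact (hsum.const_mul (1 / N : ℝ)).fderiv
    have hout : ∀ j y, y ∉ S j → fderiv ℝ (v j) y = 0 := by
      intro j y hy
      rcases lt_or_ge (dist y w) (2 ^ j * a) with h | h
      · exact hv7 j y h
      · refine hv8 j y (not_lt.1 fun h' => hy ⟨mem_ball.2 h', fun h'' => ?_⟩)
        exact absurd (mem_ball.1 h'') (not_lt.2 h)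
    set c : ℕ → ℝ≥0∞ := fun j => ENNReal.ofReal ((M₀ / (2 ^ j * a) / N) ^ n) with hc
    have hpt : ∀ y, ‖fderiv ℝ (fun y => (1 / N : ℝ) * ∑ j ∈ Finset.range N, (1 - v j y)) y‖ₑ ^ n ≤
        ∑ j ∈ Finset.range N, (S j).indicator (fun _ => c j) y := by
      intro y
      rw [hder y]
      by_cases hex : ∃ j ∈ Finset.range N, y ∈ S j
      · obtain ⟨j, hj, hyj⟩ := hex
        have hothers : ∀ i ∈ Finset.range N, i ≠ j → -fderiv ℝ (v i) y = 0 := by
          intro i _ hij
          rw [hout i y, neg_zero]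
          rintro ⟨hi1, hi2⟩
          rw [mem_ball] at hi1 hi2
          have hj1 := mem_ball.1 hyj.1
          have hj2 : ¬ dist y w < 2 ^ j * a := fun h => hyj.2 (mem_ball.2 h)
          rcases lt_or_gt_of_ne hij with h | h
          · have := hpow (show i + 1 ≤ j from h)
            linarith [not_lt.1 hj2]
          · have := hpow (show j + 1 ≤ i from h)
            linarith [not_lt.1 hi2]
        rw [Finset.sum_eq_single j hothers (fun h => absurd hj h)]
        refine le_trans ?_ (Finset.single_le_sum (f := fun j => (S j).indicator (fun _ => c j) y)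
          (fun _ _ => zero_le) hj)
        simp only [Set.indicator_of_mem hyj]
        rw [hc]
        simp only
        rw [← ofReal_norm, ← ENNReal.ofReal_pow (norm_nonneg _)]
        refine ENNReal.ofReal_le_ofReal (pow_le_pow_left₀ (norm_nonneg _) ?_ n)
        rw [norm_smul, norm_neg, Real.norm_of_nonneg (by positivity)]
        have h5 := hv6 j y
        have h6 : (2 : ℝ) ^ (j + 1) * a - 2 ^ j * a = 2 ^ j * a := by rw [pow_succ]; ring
        rw [h6] at h5
        calc 1 / (N : ℝ) * ‖fderiv ℝ (v j) y‖ ≤ 1 / (N : ℝ) * (M₀ / (2 ^ j * a)) :=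
              mul_le_mul_of_nonneg_left h5 (by positivity)
          _ = M₀ / (2 ^ j * a) / N := by ring
      · have hzero : ∀ j ∈ Finset.range N, -fderiv ℝ (v j) y = 0 := by
          intro j hj
          rw [hout j y (fun h => hex ⟨j, hj, h⟩), neg_zero]
        rw [Finset.sum_eq_zero hzero, smul_zero]
        have h0 : ‖(0 : E n →L[ℝ] ℝ)‖ₑ ^ n = 0 := by
          rw [← ofReal_norm, norm_zero, ENNReal.ofReal_zero, zero_pow (by omega)]
        exact (le_of_eq h0).trans zero_le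
    calc ∫⁻ y, ‖fderiv ℝ (fun y => (1 / N : ℝ) * ∑ j ∈ Finset.range N, (1 - v j y)) y‖ₑ ^ n
        ≤ ∫⁻ y, ∑ j ∈ Finset.range N, (S j).indicator (fun _ => c j) y := lintegral_mono hpt
      _ = ∑ j ∈ Finset.range N, c j * volume (S j) := by
          rw [lintegral_finsetSum _ fun j _ => measurable_const.indicator (hSm j)]
          exact Finset.sum_congr rfl fun j _ => lintegral_indicator_const (hSm j) _
      _ ≤ ∑ j ∈ Finset.range N, ENNReal.ofReal ((2 * M₀ / N) ^ n) * kap n := by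
          refine Finset.sum_le_sum fun j _ => ?_
          calc c j * volume (S j) ≤ c j * volume (ball w (2 ^ (j + 1) * a)) := by
                gcongr; exact sdiff_subset
            _ = ENNReal.ofReal ((2 * M₀ / N) ^ n) * kap n := by
                rw [volume_ball_kap w (hrad (j + 1)), ← mul_assoc, hc]
                simp only
                rw [← ENNReal.ofReal_mul (by positivity), ← mul_pow]
                congr 3
                have := (hrad j).ne'
                rw [pow_succ]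
                field_simp
      _ = ENNReal.ofReal ((2 * M₀ / N) ^ n * N) * kap n := by
          rw [Finset.sum_const, Finset.card_range, nsmul_eq_mul,
            ENNReal.ofReal_mul (by positivity), ENNReal.ofReal_natCast]
          ring

theorem KQ.energy_comp {n : ℕ} {K : ℝ} {f g : E n → E n} (h : KQ n K f g) {U : E n → ℝ}
    (hU : ContDiff ℝ 1 U) :
    ∫⁻ x, ‖fderiv ℝ (fun x => U (f x)) x‖ₑ ^ n
      ≤ ENNReal.ofReal (K ^ n) * ∫⁻ y, ‖fderiv ℝ U y‖ₑ ^ n := by
  rw [h.lintegral_image (fun y => ‖fderiv ℝ U y‖ₑ ^ n), ← lintegral_const_mul' _ _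
    ENNReal.ofReal_ne_top]
  refine lintegral_mono fun x => ?_
  have hfx : DifferentiableAt ℝ f x := h.hf.differentiable one_ne_zero x
  have hUx : DifferentiableAt ℝ U (f x) := hU.differentiable one_ne_zero (f x)
  have h1 : fderiv ℝ (fun x => U (f x)) x = (fderiv ℝ U (f x)).comp (fderiv ℝ f x) :=
    fderiv_comp x hUx hfx
  have h2 : ‖fderiv ℝ (fun x => U (f x)) x‖ ≤ ‖fderiv ℝ U (f x)‖ * ‖fderiv ℝ f x‖ := by
    rw [h1]
    exact ContinuousLinearMap.opNorm_comp_le _ _
  have h3 : ‖fderiv ℝ (fun x => U (f x)) x‖ ^ n ≤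
      K ^ n * (|(fderiv ℝ f x).det| * ‖fderiv ℝ U (f x)‖ ^ n) := by
    calc ‖fderiv ℝ (fun x => U (f x)) x‖ ^ n ≤ (‖fderiv ℝ U (f x)‖ * ‖fderiv ℝ f x‖) ^ n :=
          pow_le_pow_left₀ (norm_nonneg _) h2 n
      _ = ‖fderiv ℝ U (f x)‖ ^ n * ‖fderiv ℝ f x‖ ^ n := mul_pow _ _ _
      _ ≤ ‖fderiv ℝ U (f x)‖ ^ n * (K ^ n * |(fderiv ℝ f x).det|) :=
          mul_le_mul_of_nonneg_left (h.norm_pow_le x) (by positivity)
      _ = K ^ n * (|(fderiv ℝ f x).det| * ‖fderiv ℝ U (f x)‖ ^ n) := by ring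
  rw [← ofReal_norm, ← ofReal_norm, ← ENNReal.ofReal_pow (norm_nonneg _),
    ← ENNReal.ofReal_pow (norm_nonneg _), ← ENNReal.ofReal_mul (abs_nonneg _),
    ← ENNReal.ofReal_mul' (by positivity)]
  exact ENNReal.ofReal_le_ofReal h3

end DF88
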