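import Pool.Agent.H88.DF.B4
import Pool.Agent.H88.DF.C3
import Pool.Agent.H88.DF.T1

/-!
# F1 : classical (dimension dependent) distortion bound
Paper proof. `δ` from `loewner`, `M` from `exists_test`. `K ≥ 1` (else vacuous). Let `l = lf f z r > 0`
attained at `b` (`dist b z = r`), `L = Lf f z r` attained at `a` (`dist a z ≤ r`), `w = f z`.
If `L ≤ 2 l` done. Otherwise let `N ≥ 1` be the largest integer with `2^N l ≤ L`, so
`L < 2^(N+1) l`. Take `U` from `exists_test` (centre `w`, radius `l`, this `N`) and `u = U ∘ f`.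
`P = g '' segment w (f b)` is connected, contains `z = g w` and `b`, `r ≤ dist b z`, and `u = 0` on it
(points of the segment are within `l` of `w`). `Q = g '' {w + t (f a - w) : t ≥ 1}` is connected,
contains `a`, `u = 1` on it, and contains a point `q₁` with `dist q₁ a ≥ r`: the compact set
`f '' closedBall a r` does not contain the whole unbounded ray. `loewner` with `p₀ = z`, `p₁ = b`,
`q₀ = a`, and `KQ.energy_comp`:
`δ ≤ K^n (M/N)^n N κ` with `κ = (kap n).toReal`, so `N^(n-1) ≤ K^n M^n κ/δ`, and as `n ≥ 2`,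
`N ≤ N^(n-1) ≤ N₁ := K^n M^n κ/δ`. Hence `L ≤ 2^(N₁+1) l`; take `Q = max 2 (2^(N₁+1))`
(real exponent or ceiling).
-/

set_option autoImplicit false

open MeasureTheory Set Metric Filter
open scoped ENNReal Topology NNReal

namespace DF88

private theorem F1_num {n N : ℕ} (hn : 2 ≤ n) (hN : 1 ≤ N) {δ K M κ : ℝ} (hδ : 0 < δ)
    (hK : 0 ≤ K) (hM : 0 ≤ M) (hκ : 0 ≤ κ) (h : δ ≤ K ^ n * ((M / N) ^ n * N * κ)) :
    (N : ℝ) ≤ K ^ n * M ^ n * κ / δ := by
  have hN0 : (1 : ℝ) ≤ N := by exact_mod_cast hN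
  have hN1 : (0 : ℝ) < N := by linarith
  rw [le_div_iff₀ hδ]
  have h1 : (M / N) ^ n * N ≤ M ^ n / N := by
    rw [div_pow, div_mul_eq_mul_div, div_le_div_iff₀ (by positivity) hN1]
    have h2 : (N : ℝ) ^ 2 ≤ N ^ n := pow_le_pow_right₀ hN0 hn
    calc M ^ n * N * N = M ^ n * N ^ 2 := by ring
      _ ≤ M ^ n * N ^ n := by gcongr
  calc (N : ℝ) * δ ≤ N * (K ^ n * ((M / N) ^ n * N * κ)) := by gcongr
    _ = K ^ n * κ * (N * ((M / N) ^ n * N)) := by ring
    _ ≤ K ^ n * κ * (N * (M ^ n / N)) := by gcongr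
    _ = K ^ n * M ^ n * κ := by
        rw [mul_div_cancel₀ _ hN1.ne']
        ring

theorem finite_distortion {n : ℕ} (hn : 2 ≤ n) (K : ℝ) : ∃ Q : ℝ, ∀ (f g : E n → E n),
    KQ n K f g → ∀ (z : E n) (r : ℝ), 0 < r → Lf f z r ≤ Q * lf f z r := by
  have hn1 : 1 ≤ n := by omega
  obtain ⟨δ, hδ, hL⟩ := loewner hn1
  obtain ⟨M, hM, hT⟩ := exists_test
  set κ : ℝ := (kap n).toReal with hκ
  have hκe : kap n = ENNReal.ofReal κ := (ENNReal.ofReal_toReal (kap_ne_top n)).symm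
  have hκ0 : 0 ≤ κ := ENNReal.toReal_nonneg
  set N₁ : ℝ := K ^ n * M ^ n * κ / δ with hN₁
  refine ⟨max 2 ((2 : ℝ) ^ (N₁ + 1)), fun f g h z r hr => ?_⟩
  have hl : 0 < lf f z r := h.lf_pos hn1 z hr
  have hfc : Continuous f := h.hf.continuous
  have hgc : Continuous g := h.hg.continuous
  have hK1 : 1 ≤ K := h.one_le hn1
  obtain ⟨b, hb, hbl⟩ := exists_lf hn1 hfc z hr.le
  obtain ⟨a, ha, haL⟩ := exists_Lf hfc z hr.le
  set l := lf f z r with hldef
  set L := Lf f z r with hLdef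
  by_cases h2 : L ≤ 2 * l
  · exact h2.trans (mul_le_mul_of_nonneg_right (le_max_left _ _) hl.le)
  rw [not_le] at h2
  have hx : 2 < L / l := by rwa [lt_div_iff₀ hl]
  obtain ⟨N, hN1, hN2⟩ := exists_nat_pow_near (x := L / l) (y := 2) (by linarith) (by norm_num)
  have hN : 1 ≤ N := by
    by_contra hcon
    obtain rfl : N = 0 := by omega
    norm_num at hN2
    linarith
  rw [le_div_iff₀ hl] at hN1
  rw [div_lt_iff₀ hl] at hN2
  obtain ⟨U, hU, hU0, hU1, hUe⟩ := hT n hn1 (f z) l N hl hN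
  set v : E n := f a - f z with hv
  have hvL : ‖v‖ = L := haL
  have hLpos : 0 < L := by linarith
  set ray : ℝ → E n := fun t => g (f z + t • v) with hray
  have hrayc : Continuous ray := by
    rw [hray]
    fun_prop
  -- a point of the ray far from `a`
  have hfar : ∃ t : ℝ, 1 ≤ t ∧ r ≤ dist (ray t) a := by
    obtain ⟨R, hR⟩ := ((isCompact_closedBall a r).image hfc).isBounded.exists_norm_le
    by_contra hcon
    push Not at hcon
    set t : ℝ := max 1 ((R + ‖f z‖ + 1) / L) with ht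
    have h3 := hcon t (le_max_left _ _)
    have h4 : ‖f z + t • v‖ ≤ R := by
      refine hR _ ⟨ray t, ?_, ?_⟩
      · rw [mem_closedBall]; exact h3.le
      · rw [hray]; exact h.fg _
    have ht0 : 0 ≤ t := le_trans zero_le_one (le_max_left _ _)
    have h5 : t * L ≤ ‖f z + t • v‖ + ‖f z‖ := by
      calc t * L = ‖t • v‖ := by rw [norm_smul, hvL, Real.norm_of_nonneg ht0]
        _ = ‖(f z + t • v) - f z‖ := by rw [add_sub_cancel_left]
        _ ≤ _ := norm_sub_le _ _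
    have h6 : (R + ‖f z‖ + 1) ≤ t * L := by
      rw [← div_le_iff₀ hLpos]
      exact le_max_right _ _
    linarith
  obtain ⟨t₁, ht₁, hq⟩ := hfar
  have key := hL (fun x => U (f x)) (hU.comp h.hf) (g '' segment ℝ (f z) (f b)) (ray '' Ici 1)
    z z b a (ray t₁) r hr ((convex_segment _ _).isPreconnected.image _ hgc.continuousOn)
    (isPreconnected_Ici.image _ hrayc.continuousOn)
    ⟨f z, left_mem_segment ℝ _ _, h.gf z⟩ ⟨f b, right_mem_segment ℝ _ _, h.gf b⟩
    ⟨1, mem_Ici.2 le_rfl, by simp [hray, hv, h.gf]⟩ ⟨t₁, mem_Ici.2 ht₁, rfl⟩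
    (by rw [dist_self]; exact hr.le) ha (by rw [hb]) hq ?_ ?_
  · have hen := key.trans (h.energy_comp hU)
    have h7 : ENNReal.ofReal δ ≤ ENNReal.ofReal (K ^ n * ((M / N) ^ n * N * κ)) := by
      refine hen.trans ?_
      rw [ENNReal.ofReal_mul (by positivity)]
      refine mul_le_mul_right ?_ _
      refine hUe.trans_eq ?_
      rw [hκe, ← ENNReal.ofReal_mul (by positivity)]
    have h8 : δ ≤ K ^ n * ((M / N) ^ n * N * κ) :=
      (ENNReal.ofReal_le_ofReal_iff (by positivity)).1 h7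
    have h9 : (N : ℝ) ≤ N₁ := F1_num hn hN hδ (by linarith) (by linarith) hκ0 h8
    have h10 : (2 : ℝ) ^ (N + 1) ≤ 2 ^ (N₁ + 1) := by
      rw [← Real.rpow_natCast]
      refine Real.rpow_le_rpow_of_exponent_le (by norm_num) ?_
      push_cast
      linarith
    calc L ≤ 2 ^ (N + 1) * l := hN2.le
      _ ≤ (2 : ℝ) ^ (N₁ + 1) * l := by gcongr
      _ ≤ _ := mul_le_mul_of_nonneg_right (le_max_right _ _) hl.le
  · rintro x ⟨y, hy, rfl⟩
    show U (f (g y)) = 0
    rw [h.fg]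
    refine hU0 _ ?_
    obtain ⟨s, hs, rfl⟩ := (segment_eq_image_lineMap ℝ (f z) (f b) ▸ hy)
    rw [dist_lineMap_left, Real.norm_of_nonneg hs.1, dist_comm, dist_eq_norm, hbl]
    nlinarith [hs.2]
  · rintro x ⟨t, ht, rfl⟩
    show U (f (ray t)) = 1
    rw [hray]
    simp only
    rw [h.fg]
    refine hU1 _ ?_
    have ht1 : (1 : ℝ) ≤ t := ht
    rw [dist_eq_norm, add_sub_cancel_left, norm_smul, hvL, Real.norm_of_nonneg (by linarith)]
    nlinarith

end DF88
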