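import Pool.Agent.H88.DF.P1
import Pool.Agent.H88.DF.T1

/-!
# FL : fat Loewner property (dimension-free)
Paper proof. `M` from `exists_test`; `K ≥ 1` (otherwise no such `f`, take `N₀ = 0`). `B = 4 K M/c²`,
`N₀ = ⌈(max 1 B)^2⌉`. If `N = 0` fine. Else take `U` from `exists_test` for `w, a, N`, `u = U ∘ f`:
`u = 0` on `S`, `u = 1` on `T`, so `|u x - u y| = 1` and `mul_volume_le` with `KQ.energy_comp` gives
`|S| |T| ≤ (4ρ)^n |ball z ρ| * K^n (M/N)^n N kap`. `|S|, |T| ≥ (c ρ)^n kap` (`volume_eq_vr`; the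
volumes are finite since `S, T ⊆ ball z ρ`), `|ball z ρ| = ρ^n kap`. Cancel `kap^2 ρ^(2n)`:
`c^(2n) ≤ (4 K M/N)^n N`, i.e. `N^n ≤ B^n N`, `N^(n-1) ≤ B^n ≤ (max 1 B)^n ≤ (max 1 B)^(2(n-1))`
(`n ≥ 2`), so `N ≤ (max 1 B)^2`.
-/

set_option autoImplicit false

open MeasureTheory Set Metric Filter
open scoped ENNReal Topology NNReal

namespace DF88

private theorem FL_arith {n N : ℕ} (hn : 2 ≤ n) (hN : 1 ≤ N) {K M c ρ : ℝ} (hK : 1 ≤ K) (hM : 1 ≤ M)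
    (hc : 0 < c) (hρ : 0 < ρ)
    (h : (c * ρ) ^ n * (c * ρ) ^ n ≤ (4 * ρ) ^ n * ρ ^ n * (K ^ n * ((M / N) ^ n * N))) :
    (N : ℝ) ≤ (max 1 (4 * |K| * M / c ^ 2)) ^ 2 := by
  have hN' : (0 : ℝ) < N := by exact_mod_cast hN
  rw [abs_of_pos (by linarith : 0 < K)]
  set B : ℝ := 4 * K * M / c ^ 2 with hB
  have hB0 : 0 < B := by positivity
  set b : ℝ := max 1 B with hb
  have hb1 : 1 ≤ b := le_max_left _ _
  have hbB : B ≤ b := le_max_right _ _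
  have e1 : (c ^ 2) ^ n * (N : ℝ) ^ n ≤ (4 * K * M) ^ n * N := by
    have h2 : (c ^ 2) ^ n * (N : ℝ) ^ n * (ρ ^ n * ρ ^ n) ≤ (4 * K * M) ^ n * N * (ρ ^ n * ρ ^ n) := by
      have h3 := mul_le_mul_of_nonneg_right h (by positivity : (0 : ℝ) ≤ (N : ℝ) ^ n)
      have h4 : (c * ρ) ^ n * (c * ρ) ^ n * (N : ℝ) ^ n = (c ^ 2) ^ n * (N : ℝ) ^ n * (ρ ^ n * ρ ^ n) := by
        rw [mul_pow, ← pow_mul, mul_comm 2 n, pow_mul]; ring
      have h5 : (4 * ρ) ^ n * ρ ^ n * (K ^ n * ((M / N) ^ n * N)) * (N : ℝ) ^ n =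
          (4 * K * M) ^ n * N * (ρ ^ n * ρ ^ n) := by
        rw [mul_pow, div_pow, mul_pow, mul_pow]
        field_simp
      rw [h4, h5] at h3
      exact h3
    exact le_of_mul_le_mul_right h2 (by positivity)
  have e2 : (N : ℝ) ^ n ≤ B ^ n * N := by
    rw [hB, div_pow, div_mul_eq_mul_div, le_div_iff₀ (by positivity)]
    linarith
  obtain ⟨m, rfl⟩ : ∃ m, n = m + 1 := ⟨n - 1, by omega⟩
  have e3 : (N : ℝ) ^ m ≤ B ^ (m + 1) := by
    rw [pow_succ] at e2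
    exact le_of_mul_le_mul_right e2 hN'
  have e4 : B ^ (m + 1) ≤ (b ^ 2) ^ m := by
    rw [← pow_mul]
    exact (pow_le_pow_left₀ hB0.le hbB _).trans (pow_le_pow_right₀ hb1 (by omega))
  exact (pow_le_pow_iff_left₀ hN'.le (by positivity) (by omega : m ≠ 0)).1 (e3.trans e4)

theorem fat_loewner (K c : ℝ) (hc : 0 < c) : ∃ N₀ : ℕ, ∀ (n : ℕ), 2 ≤ n →
    ∀ (f g : E n → E n), KQ n K f g → ∀ (z w : E n) (ρ a : ℝ) (N : ℕ) (S T : Set (E n)),
      0 < ρ → 0 < a → MeasurableSet S → MeasurableSet T → S ⊆ ball z ρ → T ⊆ ball z ρ →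
      c * ρ ≤ vr S → c * ρ ≤ vr T → (∀ x ∈ S, dist (f x) w ≤ a) →
      (∀ x ∈ T, 2 ^ N * a ≤ dist (f x) w) → N ≤ N₀ := by
  obtain ⟨M, hM, hM'⟩ := exists_test
  refine ⟨⌈(max 1 (4 * |K| * M / c ^ 2)) ^ 2⌉₊, ?_⟩
  intro n hn f g hfg z w ρ a N S T hρ ha hS hT hSb hTb hvS hvT hSa hTa
  have hn1 : 1 ≤ n := by omega
  rcases Nat.eq_zero_or_pos N with hN | hN
  · omega
  have hK := hfg.one_le hn1
  obtain ⟨U, hU, hU0, hU1, hUe⟩ := hM' n hn1 w a N ha hN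
  have hu : ContDiff ℝ 1 (fun x => U (f x)) := hU.comp hfg.hf
  have hST : ∀ x ∈ S, ∀ y ∈ T, 1 ≤ |U (f x) - U (f y)| := by
    intro x hx y hy
    rw [hU0 _ (hSa x hx), hU1 _ (hTa y hy)]
    norm_num
  have h1 := mul_volume_le hn1 hu z hρ hS hT hSb hTb hST
  have h2 := (setLIntegral_le_lintegral (μ := volume) (ball z ρ)
    (fun x => ‖fderiv ℝ (fun x => U (f x)) x‖ₑ ^ n)).trans
    ((hfg.energy_comp hU).trans (mul_le_mul_right hUe _))
  have hlow : ∀ S : Set (E n), S ⊆ ball z ρ → c * ρ ≤ vr S →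
      ENNReal.ofReal ((c * ρ) ^ n) * kap n ≤ volume S := by
    intro S hS hv
    have hfin : volume S ≠ ⊤ := ((measure_mono hS).trans_lt measure_ball_lt_top).ne
    rw [volume_eq_vr hn1 hfin]
    exact mul_le_mul_left (ENNReal.ofReal_le_ofReal
      (pow_le_pow_left₀ (by positivity) hv n)) _
  have h3 : ENNReal.ofReal ((c * ρ) ^ n) * kap n * (ENNReal.ofReal ((c * ρ) ^ n) * kap n) ≤
      ENNReal.ofReal ((4 * ρ) ^ n) * (ENNReal.ofReal (ρ ^ n) * kap n) *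
        (ENNReal.ofReal (K ^ n) * (ENNReal.ofReal ((M / N) ^ n * N) * kap n)) := by
    calc _ ≤ volume S * volume T := mul_le_mul' (hlow S hSb hvS) (hlow T hTb hvT)
      _ ≤ _ := h1
      _ ≤ _ := by
        rw [volume_ball_kap z hρ]
        exact mul_le_mul_right h2 _
  have hk0 : kap n * kap n ≠ 0 := mul_ne_zero (kap_pos n).ne' (kap_pos n).ne'
  have hkt : kap n * kap n ≠ ⊤ := ENNReal.mul_ne_top (kap_ne_top n) (kap_ne_top n)
  have h4 : ENNReal.ofReal ((c * ρ) ^ n * (c * ρ) ^ n) * (kap n * kap n) ≤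
      ENNReal.ofReal ((4 * ρ) ^ n * ρ ^ n * (K ^ n * ((M / N) ^ n * N))) * (kap n * kap n) := by
    rw [ENNReal.ofReal_mul (by positivity : 0 ≤ (c * ρ) ^ n),
      ENNReal.ofReal_mul (by positivity : 0 ≤ (4 * ρ) ^ n * ρ ^ n),
      ENNReal.ofReal_mul (by positivity : 0 ≤ (4 * ρ) ^ n),
      ENNReal.ofReal_mul (by positivity : 0 ≤ K ^ n)]
    calc _ = ENNReal.ofReal ((c * ρ) ^ n) * kap n * (ENNReal.ofReal ((c * ρ) ^ n) * kap n) := by ring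
      _ ≤ _ := h3
      _ = _ := by ring
  have h5 := (ENNReal.mul_le_mul_iff_left hk0 hkt).1 h4
  have h6 := (ENNReal.ofReal_le_ofReal_iff (by positivity)).1 h5
  have h7 := FL_arith hn hN hK hM hc hρ h6
  exact_mod_cast h7.trans (Nat.le_ceil _)

end DF88
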