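import Pool.Agent.H88.DF.Defs

/-!
# G1 : Loomis-Whitney inequality for different functions (Mathlib only)
Paper proof. Put `N = card ι`, `q = 1/(N-1)`. Use `MeasureTheory.lmarginal` with `μ i = volume`,
written `∫⋯∫⁻_s`. Let `G i = ∫⋯∫⁻_{i} F i`, i.e. `G i x = ∫⁻ t, F i (update x i t)`
(`lmarginal_singleton`); it does not depend on the coordinate `i`. Claim, by `Finset` induction on `s`:
for all `x`
`(∫⋯∫⁻_s, ∏ i, G i ^ q) x ≤ (∏ i ∈ s, ((∫⋯∫⁻_s, F i) x) ^ q) * ∏ i ∉ s, ((∫⋯∫⁻_(insert i s), F i) x) ^ q`.
`s = ∅`: equality. Step `s → insert j s`: by `lmarginal_insert'` (integrate over the coordinate `j` last)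
the left side for `insert j s` is the integral over `t` of the left side for `s` at `update x j t`;
insert the induction hypothesis; the factor `i = j` is `((∫⋯∫⁻_(insert j s), F j))^q`, which does not
depend on `t`; the other `N - 1` factors all have exponent `q`, total `(N-1) q = 1`, so
generalized Hoelder (`ENNReal.lintegral_prod_norm_pow_le`) gives the product of the
`(∫⁻ t, ...)^q`, and `∫⁻ t, (∫⋯∫⁻_s, F i) (update x j t) = (∫⋯∫⁻_(insert j s), F i) x`,
similarly for `insert i s` (note `insert j (insert i s) = insert i (insert j s)`).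
For `s = univ` use `lmarginal_univ`. Model: the proof of the grid-lines lemma in
`Mathlib/Analysis/FunctionalSpaces/SobolevInequality.lean` (`T_insert_le_T_lmarginal_singleton`).
An alternative is an induction over `Fin n` with Fubini.
-/

set_option autoImplicit false

open MeasureTheory Set Metric Filter
open scoped ENNReal Topology NNReal

namespace DF88

theorem G1_claim {ι : Type} [Fintype ι] [DecidableEq ι] {q : ℝ} (hq : 0 ≤ q)
    (hq1 : ((Fintype.card ι : ℝ) - 1) * q = 1)
    (F : ι → (ι → ℝ) → ℝ≥0∞) (hF : ∀ i, Measurable (F i)) (s : Finset ι) :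
    ∀ x : ι → ℝ, lmarginal (fun _ => (volume : Measure ℝ)) s
        (fun y => ∏ i, (lmarginal (fun _ => (volume : Measure ℝ)) {i} (F i) y) ^ q) x
      ≤ ∏ i, (lmarginal (fun _ => (volume : Measure ℝ)) (insert i s) (F i) x) ^ q := by
  have hm : Measurable (fun y : ι → ℝ =>
      ∏ i, (lmarginal (fun _ => (volume : Measure ℝ)) {i} (F i) y) ^ q) :=
    Finset.measurable_prod _ fun i _ => ((hF i).lmarginal _).pow_const q
  induction s using Finset.induction_on with
  | empty =>
    intro x
    rw [lmarginal_empty]
    apply le_of_eq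
    refine Finset.prod_congr rfl fun i _ => ?_
    rfl
  | insert j s hj ih =>
    intro x
    rw [lmarginal_insert _ hm hj x]
    have hmeas : ∀ i, Measurable (fun t : ℝ =>
        lmarginal (fun _ => (volume : Measure ℝ)) (insert i s) (F i) (Function.update x j t)) := fun i =>
      ((hF i).lmarginal _).comp (measurable_update x)
    calc ∫⁻ t, lmarginal (fun _ => (volume : Measure ℝ)) s
          (fun y => ∏ i, (lmarginal (fun _ => (volume : Measure ℝ)) {i} (F i) y) ^ q)
          (Function.update x j t)
        ≤ ∫⁻ t, ∏ i, (lmarginal (fun _ => (volume : Measure ℝ)) (insert i s) (F i)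
            (Function.update x j t)) ^ q := lintegral_mono fun t => ih _
      _ = ∫⁻ t, (lmarginal (fun _ => (volume : Measure ℝ)) (insert j s) (F j) x) ^ q *
            ∏ i ∈ Finset.univ.erase j, (lmarginal (fun _ => (volume : Measure ℝ)) (insert i s) (F i)
            (Function.update x j t)) ^ q := by
          refine lintegral_congr fun t => ?_
          rw [← Finset.mul_prod_erase Finset.univ _ (Finset.mem_univ j),
            lmarginal_update_of_mem _ (Finset.mem_insert_self j s)]
      _ = (lmarginal (fun _ => (volume : Measure ℝ)) (insert j s) (F j) x) ^ q *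
            ∫⁻ t, ∏ i ∈ Finset.univ.erase j, (lmarginal (fun _ => (volume : Measure ℝ)) (insert i s)
            (F i) (Function.update x j t)) ^ q := by
          rw [lintegral_const_mul]
          exact Finset.measurable_prod _ fun i _ => (hmeas i).pow_const q
      _ ≤ (lmarginal (fun _ => (volume : Measure ℝ)) (insert j s) (F j) x) ^ q *
            ∏ i ∈ Finset.univ.erase j, (∫⁻ t, lmarginal (fun _ => (volume : Measure ℝ)) (insert i s)
            (F i) (Function.update x j t)) ^ q := by
          gcongr
          refine ENNReal.lintegral_prod_norm_pow_le (Finset.univ.erase j)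
            (fun i _ => (hmeas i).aemeasurable) ?_ fun _ _ => hq
          rw [Finset.sum_const, Finset.card_erase_of_mem (Finset.mem_univ j), Finset.card_univ,
            nsmul_eq_mul, Nat.cast_sub (Fintype.card_pos_iff.mpr ⟨j⟩), Nat.cast_one]
          exact hq1
      _ = (lmarginal (fun _ => (volume : Measure ℝ)) (insert j (insert j s)) (F j) x) ^ q *
            ∏ i ∈ Finset.univ.erase j, (lmarginal (fun _ => (volume : Measure ℝ))
            (insert i (insert j s)) (F i) x) ^ q := by
          congr 1
          · congr 2
            exact (Finset.insert_idem j s).symm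
          · refine Finset.prod_congr rfl fun i hi => ?_
            have hne : i ≠ j := Finset.ne_of_mem_erase hi
            have hji : j ∉ insert i s := by
              rw [Finset.mem_insert]
              rintro (h | h)
              · exact hne h.symm
              · exact hj h
            rw [Finset.insert_comm, lmarginal_insert _ (hF i) hji x]
      _ = ∏ i, (lmarginal (fun _ => (volume : Measure ℝ)) (insert i (insert j s)) (F i) x) ^ q :=
          Finset.mul_prod_erase Finset.univ (fun i => (lmarginal (fun _ => (volume : Measure ℝ))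
            (insert i (insert j s)) (F i) x) ^ q) (Finset.mem_univ j)

theorem loomis_whitney {ι : Type} [Fintype ι] [DecidableEq ι] (hι : 2 ≤ Fintype.card ι)
    (F : ι → (ι → ℝ) → ℝ≥0∞) (hF : ∀ i, Measurable (F i)) :
    ∫⁻ x : ι → ℝ, ∏ i, (∫⁻ t : ℝ, F i (Function.update x i t)) ^ ((1 : ℝ) / (Fintype.card ι - 1))
      ≤ ∏ i, (∫⁻ x : ι → ℝ, F i x) ^ ((1 : ℝ) / (Fintype.card ι - 1)) := by
  have h1 : (0 : ℝ) < (Fintype.card ι : ℝ) - 1 := by
    have : (2 : ℝ) ≤ Fintype.card ι := by exact_mod_cast hι
    linarith
  have h2 : ((Fintype.card ι : ℝ) - 1) * ((1 : ℝ) / (Fintype.card ι - 1)) = 1 := by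
    field_simp
  have h := G1_claim (by positivity) h2 F hF Finset.univ 0
  simp only [lmarginal_univ, lmarginal_singleton, Finset.insert_eq_of_mem (Finset.mem_univ _)] at h
  exact h

end DF88
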