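import Pool.Agent.H88.DF.Defs

/-!
# H0 : metric dilatation of a C¹ diffeomorphism (Mathlib only)
Paper proof. Let `A = fderiv f x`, `B = fderiv g (f x)`; `B ∘ A = id`, `A ∘ B = id`. If `X` is trivial,
`A = 0` and the claim is `0 ≤ K`. Otherwise choose unit vectors `u` with `‖A u‖ = ‖A‖` and, from a
unit vector `y` with `‖B y‖ = ‖B‖ > 0`, `v = B y/‖B y‖`, so `‖A v‖ = 1/‖B‖` (compact unit sphere of
a finite dimensional space). For `r > 0`:
`(⨆ ...) ≥ ‖f (x + r u) - f x‖ = r ‖A‖ + o(r)` and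
`(⨅ ...) ≤ ‖f (x + r v) - f x‖ = r/‖B‖ + o(r)`. So the quotient is at least
`(‖A‖ + o(1))/(1/‖B‖ + o(1))`, which tends to `‖A‖ ‖B‖`, and its limsup is `≤ K`. (To avoid
quotients: for `ε > 0` eventually `⨆ ≤ (K + ε) ⨅` with `⨅` finite and nonzero; so
`‖f(x + r u) - f x‖ ≤ (K + ε) ‖f (x + r v) - f x‖` for small `r`; divide by `r`, `r → 0`, `ε → 0`.)
-/

set_option autoImplicit false

open MeasureTheory Set Metric Filter
open scoped ENNReal Topology NNReal

namespace DF88

theorem H0_unit {X Y : Type*} [NormedAddCommGroup X] [InnerProductSpace ℝ X]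
    [NormedAddCommGroup Y] [InnerProductSpace ℝ Y]
    {K : ℝ} (hK : 0 ≤ K) {f : X → Y} {A : X →L[ℝ] Y} {x : X} (hA : HasFDerivAt f A x)
    (hx : dilat f x ≤ ENNReal.ofReal K) {u v : X} (hu : ‖u‖ = 1) (hv : ‖v‖ = 1) :
    ‖A u‖ ≤ K * ‖A v‖ := by
  have hslope : ∀ w : X, Tendsto (fun t : ℝ => ‖f (x + t • w) - f x‖ / t) (𝓝[>] 0)
      (𝓝 ‖A w‖) := by
    intro w
    have h1 : HasDerivAt (fun t : ℝ => f (x + t • w)) (A w) 0 := by
      have h2 : HasDerivAt (fun t : ℝ => x + t • w) w 0 := by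
        have h3 := ((hasDerivAt_id (0 : ℝ)).smul_const w).const_add x
        simpa using h3
      have hA' : HasFDerivAt f A ((fun t : ℝ => x + t • w) 0) := by simpa using hA
      exact hA'.comp_hasDerivAt (0 : ℝ) h2
    have h4 := h1.tendsto_slope_zero_right.norm
    refine h4.congr' ?_
    filter_upwards [self_mem_nhdsWithin] with t ht
    have ht0 : (0 : ℝ) < t := ht
    simp only [zero_add, zero_smul, add_zero, norm_smul, norm_inv, Real.norm_eq_abs,
      abs_of_pos ht0]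
    rw [div_eq_inv_mul]
  have hmain : ∀ ε : ℝ, 0 < ε → ‖A u‖ ≤ (K + ε) * ‖A v‖ := by
    intro ε hε
    have hlt : dilat f x < ENNReal.ofReal (K + ε) :=
      hx.trans_lt ((ENNReal.ofReal_lt_ofReal_iff (by linarith)).mpr (by linarith))
    have hev := eventually_lt_of_limsup_lt hlt
    have hev2 : ∀ᶠ r : ℝ in 𝓝[>] 0,
        ‖f (x + r • u) - f x‖ / r ≤ (K + ε) * (‖f (x + r • v) - f x‖ / r) := by
      filter_upwards [hev, self_mem_nhdsWithin] with r hr hr0
      have hr0 : (0 : ℝ) < r := hr0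
      have h1 : (⨆ (y : X) (_ : dist y x ≤ r), edist (f y) (f x)) ≤
          ENNReal.ofReal (K + ε) * (⨅ (y : X) (_ : dist y x = r), edist (f y) (f x)) := by
        rw [← ENNReal.div_le_iff_le_mul (Or.inr ENNReal.ofReal_ne_top)
          (Or.inr (by simpa using (by linarith : 0 < K + ε)))]
        exact hr.le
      have hdu : dist (x + r • u) x ≤ r := by
        rw [dist_eq_norm, add_sub_cancel_left, norm_smul, hu, mul_one, Real.norm_eq_abs,
          abs_of_pos hr0]
      have hdv : dist (x + r • v) x = r := by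
        rw [dist_eq_norm, add_sub_cancel_left, norm_smul, hv, mul_one, Real.norm_eq_abs,
          abs_of_pos hr0]
      have h2 : edist (f (x + r • u)) (f x) ≤
          ⨆ (y : X) (_ : dist y x ≤ r), edist (f y) (f x) :=
        le_iSup₂_of_le (f := fun (y : X) (_ : dist y x ≤ r) => edist (f y) (f x))
          (x + r • u) hdu le_rfl
      have h3 : (⨅ (y : X) (_ : dist y x = r), edist (f y) (f x)) ≤
          edist (f (x + r • v)) (f x) :=
        iInf₂_le_of_le (f := fun (y : X) (_ : dist y x = r) => edist (f y) (f x))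
          (x + r • v) hdv le_rfl
      have h4 : edist (f (x + r • u)) (f x) ≤
          ENNReal.ofReal (K + ε) * edist (f (x + r • v)) (f x) :=
        (h2.trans h1).trans (mul_le_mul_right h3 _)
      rw [edist_dist, edist_dist, ← ENNReal.ofReal_mul (by linarith),
        ENNReal.ofReal_le_ofReal_iff (by positivity), dist_eq_norm, dist_eq_norm] at h4
      rw [← mul_div_assoc]
      exact div_le_div_of_nonneg_right h4 hr0.le
    exact le_of_tendsto_of_tendsto (hslope u) ((hslope v).const_mul (K + ε)) hev2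
  apply le_of_forall_pos_le_add
  intro δ hδ
  have hpos : 0 < ‖A v‖ + 1 := by positivity
  have h := hmain (δ / (‖A v‖ + 1)) (by positivity)
  have h2 : δ / (‖A v‖ + 1) * ‖A v‖ ≤ δ := by
    rw [div_mul_eq_mul_div, div_le_iff₀ hpos]
    nlinarith [norm_nonneg (A v)]
  calc ‖A u‖ ≤ (K + δ / (‖A v‖ + 1)) * ‖A v‖ := h
    _ = K * ‖A v‖ + δ / (‖A v‖ + 1) * ‖A v‖ := by ring
    _ ≤ K * ‖A v‖ + δ := by linarith

theorem norm_mul_norm_le_of_dilat {X Y : Type*} [NormedAddCommGroup X] [InnerProductSpace ℝ X]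
    [FiniteDimensional ℝ X] [NormedAddCommGroup Y] [InnerProductSpace ℝ Y]
    [FiniteDimensional ℝ Y] {K : ℝ} (hK : 0 ≤ K) {f : X → Y} {g : Y → X}
    (hf : ContDiff ℝ 1 f) (hg : ContDiff ℝ 1 g) (gf : ∀ x, g (f x) = x) (fg : ∀ y, f (g y) = y)
    (x : X) (hx : dilat f x ≤ ENNReal.ofReal K) :
    ‖fderiv ℝ f x‖ * ‖fderiv ℝ g (f x)‖ ≤ K := by
  have hfd : HasFDerivAt f (fderiv ℝ f x) x :=
    (hf.differentiable one_ne_zero x).hasFDerivAt
  have hgd : HasFDerivAt g (fderiv ℝ g (f x)) (f x) :=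
    (hg.differentiable one_ne_zero (f x)).hasFDerivAt
  have hunit := fun (u v : X) (hu : ‖u‖ = 1) (hv : ‖v‖ = 1) => H0_unit hK hfd hx hu hv
  have hcomp : ∀ y : Y, fderiv ℝ f x (fderiv ℝ g (f x) y) = y := by
    intro y
    have h1 : HasFDerivAt (fun z => f (g z)) ((fderiv ℝ f x).comp (fderiv ℝ g (f x))) (f x) := by
      apply HasFDerivAt.comp (f x) _ hgd
      rw [gf]; exact hfd
    have h2 : HasFDerivAt (fun z => f (g z)) (ContinuousLinearMap.id ℝ Y) (f x) := by
      have : (fun z => f (g z)) = id := by funext z; exact fg z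
      rw [this]
      exact hasFDerivAt_id _
    have h3 := h1.unique h2
    have h4 := congrArg (fun L : Y →L[ℝ] Y => L y) h3
    simpa using h4
  have hkey : ∀ y : Y, ‖fderiv ℝ f x‖ * ‖fderiv ℝ g (f x) y‖ ≤ K * ‖y‖ := by
    intro y
    set w := fderiv ℝ g (f x) y with hw
    by_cases hw0 : w = 0
    · rw [hw0, norm_zero, mul_zero]
      positivity
    · have hwn : 0 < ‖w‖ := norm_pos_iff.mpr hw0
      have hv : ‖(‖w‖⁻¹ • w)‖ = 1 := by
        rw [norm_smul, norm_inv, norm_norm, inv_mul_cancel₀ hwn.ne']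
      have h1 : ‖fderiv ℝ f x‖ ≤ K * ‖fderiv ℝ f x (‖w‖⁻¹ • w)‖ := by
        apply ContinuousLinearMap.opNorm_le_of_unit_norm (by positivity)
        intro u hu
        exact hunit u _ hu hv
      rw [map_smul, hw, hcomp, norm_smul, norm_inv, norm_norm, ← hw] at h1
      calc ‖fderiv ℝ f x‖ * ‖w‖ ≤ (K * (‖w‖⁻¹ * ‖y‖)) * ‖w‖ :=
            mul_le_mul_of_nonneg_right h1 hwn.le
        _ = K * ‖y‖ * (‖w‖⁻¹ * ‖w‖) := by ring
        _ = K * ‖y‖ := by rw [inv_mul_cancel₀ hwn.ne', mul_one]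
  have hfin : ‖(‖fderiv ℝ f x‖ • fderiv ℝ g (f x))‖ ≤ K := by
    apply ContinuousLinearMap.opNorm_le_bound _ hK
    intro y
    rw [ContinuousLinearMap.smul_apply, norm_smul, norm_norm]
    exact hkey y
  rwa [norm_smul, norm_norm] at hfin

end DF88
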