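import Pool.Agent.H88.DF.B4

/-!
# Q1 : chains
Paper proof. Let `r = dist x b`. If `r = 0` then `dist x a ≤ 0`, `a = x`, trivial. `r > 0`: put
`x_i = x + (i/m) (a - x)`, `i = 0..m`; consecutive distances are all equal to
`d = dist x a / m ≤ r`. If `d = 0` then `a = x`, trivial. Let `β = ‖f b - f x‖`.
`‖f x_1 - f x_0‖ ≤ Lf f x r ≤ Q lf f x r ≤ Q β` (`norm_le_Lf`, `lf_le_norm`).
`‖f x_{i+1} - f x_i‖ ≤ Lf f x_i d ≤ Q lf f x_i d ≤ Q ‖f x_{i-1} - f x_i‖`. So
`‖f x_{i+1} - f x_i‖ ≤ Q^(i+1) β ≤ Q^m β` for `i < m`; sum of `m` terms.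
-/

set_option autoImplicit false

open MeasureTheory Set Metric Filter
open scoped ENNReal Topology NNReal

namespace DF88

theorem chain {n : ℕ} {f : E n → E n} {Q : ℝ} (hQ : 1 ≤ Q) (hf : Continuous f)
    (h : ∀ (z : E n) (r : ℝ), 0 < r → Lf f z r ≤ Q * lf f z r) (m : ℕ) (hm : 1 ≤ m)
    (x a b : E n) (hx : dist x a ≤ m * dist x b) :
    dist (f x) (f a) ≤ m * Q ^ m * dist (f x) (f b) := by
  have hQ0 : 0 ≤ Q := by linarith
  have hm0 : (0 : ℝ) < m := by exact_mod_cast hm
  have hR : 0 ≤ m * Q ^ m * dist (f x) (f b) := by positivity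
  by_cases hxa : x = a
  · rw [← hxa, dist_self]
    exact hR
  have hxa' : 0 < dist x a := dist_pos.2 hxa
  have hr : 0 < dist x b := by
    by_contra hcon
    have h0 : dist x b = 0 := le_antisymm (not_lt.1 hcon) dist_nonneg
    rw [h0, mul_zero] at hx
    linarith
  set v : E n := (1 / (m : ℝ)) • (a - x) with hv
  set p : ℕ → E n := fun i => x + (i : ℝ) • v with hp
  have hnv : ‖v‖ = dist x a / m := by
    rw [hv, norm_smul, Real.norm_of_nonneg (by positivity), dist_comm, dist_eq_norm]
    ring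
  have hd : 0 < ‖v‖ := by rw [hnv]; positivity
  have hdr : ‖v‖ ≤ dist x b := by
    rw [hnv, div_le_iff₀ hm0]
    linarith
  have hp0 : p 0 = x := by simp [hp]
  have hpm : p m = a := by
    simp only [hp, hv]
    rw [smul_smul, mul_one_div_cancel hm0.ne', one_smul, add_sub_cancel]
  have hstep : ∀ i, p (i + 1) - p i = v := by
    intro i
    simp only [hp]
    push_cast
    module
  have hdist : ∀ i, dist (p (i + 1)) (p i) = ‖v‖ := fun i => by
    rw [dist_eq_norm, hstep]
  have key : ∀ i, ‖f (p (i + 1)) - f (p i)‖ ≤ Q ^ (i + 1) * ‖f b - f x‖ := by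
    intro i
    induction i with
    | zero =>
      have h1 : ‖f (p 1) - f x‖ ≤ Lf f x (dist x b) := by
        apply norm_le_Lf hf
        have := hdist 0
        rw [hp0] at this
        rw [this]
        exact hdr
      have h2 := h x _ hr
      have h3 : lf f x (dist x b) ≤ ‖f b - f x‖ := lf_le_norm (dist_comm b x)
      have h4 := mul_le_mul_of_nonneg_left h3 hQ0
      rw [hp0, zero_add, pow_one]
      linarith
    | succ i ih =>
      have h1 : ‖f (p (i + 1 + 1)) - f (p (i + 1))‖ ≤ Lf f (p (i + 1)) ‖v‖ :=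
        norm_le_Lf hf (hdist (i + 1)).le
      have h2 := h (p (i + 1)) _ hd
      have h3 : lf f (p (i + 1)) ‖v‖ ≤ ‖f (p i) - f (p (i + 1))‖ := by
        apply lf_le_norm
        rw [dist_comm]
        exact hdist i
      rw [norm_sub_rev] at h3
      have h4 := mul_le_mul_of_nonneg_left (h3.trans ih) hQ0
      calc _ ≤ _ := h1
        _ ≤ _ := h2
        _ ≤ _ := h4
        _ = _ := by ring
  calc dist (f x) (f a) = dist (f (p 0)) (f (p m)) := by rw [hp0, hpm]
    _ ≤ ∑ i ∈ Finset.range m, dist (f (p i)) (f (p (i + 1))) :=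
        dist_le_range_sum_dist (fun i => f (p i)) m
    _ ≤ ∑ _i ∈ Finset.range m, Q ^ m * dist (f x) (f b) := by
        apply Finset.sum_le_sum
        intro i hi
        rw [Finset.mem_range] at hi
        rw [dist_comm (f x), dist_eq_norm (f b), dist_comm, dist_eq_norm]
        refine (key i).trans ?_
        apply mul_le_mul_of_nonneg_right _ (norm_nonneg _)
        exact pow_le_pow_right₀ hQ hi
    _ = m * Q ^ m * dist (f x) (f b) := by
        rw [Finset.sum_const, Finset.card_range, nsmul_eq_mul]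
        ring

end DF88
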