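import Pool.Agent.H88.DF.X1
import Pool.Agent.H88.DF.Q1
import Pool.Agent.H88.DF.Q2
import Pool.Agent.H88.DF.H0

/-!
# H1 : quasisymmetry in Euclidean and finite dimensional inner product spaces
Paper proof. `qs_euclidean`: `Q` from `dim_free_distortion K`, `η` from `exists_eta Q`; `chain` for
`f` and for `g` (`h.symm`).
`qs_fd`: let `η` be from `qs_euclidean (max K 0)` (or treat `K < 0`: then `dilat f x ≤ 0`, and
`norm_mul_norm_le_of_dilat` with `K = 0` shows `‖A‖ ‖B‖ ≤ 0`, impossible; simply use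
`K' = max K 0`, note `IsKQC K f → IsKQC K' f`). `n = finrank X = finrank Y` (the derivative at a point
is a linear isomorphism: `fderiv f x` and `fderiv g (f x)` are inverse to each other). Let
`eX = (stdOrthonormalBasis ℝ X).repr : X ≃ₗᵢ E n`, `eY` similarly for `Y` (reindex by `Fin n`);
`F = eY ∘ f ∘ eX.symm`, `G = eX ∘ f.symm ∘ eY.symm`. Then `KQ n K' F G` (derivatives are composed
with isometries, `norm_mul_norm_le_of_dilat`), so `IsQS η F`, and distances are preserved by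
`eX, eY`.
-/

set_option autoImplicit false

open MeasureTheory Set Metric Filter
open scoped ENNReal Topology NNReal

namespace DF88

theorem qs_euclidean (K : ℝ) : ∃ η : ℝ≥0 ≃ₜ ℝ≥0, ∀ (n : ℕ), 2 ≤ n → ∀ (f g : E n → E n),
    KQ n K f g → IsQS η f := by
  obtain ⟨Q, hQ, hD⟩ := dim_free_distortion K
  obtain ⟨η, hη⟩ := exists_eta Q hQ
  refine ⟨η, fun n hn f g h => ?_⟩
  exact hη (E n) f g h.gf
    (fun m hm x a b hx => chain hQ h.hf.continuous (hD n hn f g h) m hm x a b hx)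
    (fun m hm x a b hx => chain hQ h.hg.continuous (hD n hn g f h.symm) m hm x a b hx)

private theorem H1_norm_le {X Y X' Y' : Type*} [NormedAddCommGroup X] [InnerProductSpace ℝ X]
    [NormedAddCommGroup Y] [InnerProductSpace ℝ Y] [NormedAddCommGroup X']
    [InnerProductSpace ℝ X'] [NormedAddCommGroup Y'] [InnerProductSpace ℝ Y']
    (e : X ≃ₗᵢ[ℝ] X') (e' : Y ≃ₗᵢ[ℝ] Y') {f : X → Y} (hf : ContDiff ℝ 1 f) (x : X') :
    ‖fderiv ℝ (fun x => e' (f (e.symm x))) x‖ ≤ ‖fderiv ℝ f (e.symm x)‖ := by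
  have hd : DifferentiableAt ℝ f (e.symm x) := hf.differentiable (by norm_num) _
  have h1 : HasFDerivAt (fun x => e' (f (e.symm x)))
      ((e'.toContinuousLinearEquiv : Y →L[ℝ] Y').comp ((fderiv ℝ f (e.symm x)).comp
        (e.symm.toContinuousLinearEquiv : X' →L[ℝ] X))) x := by
    have h2 : HasFDerivAt (fun x => e.symm x) (e.symm.toContinuousLinearEquiv : X' →L[ℝ] X) x :=
      (e.symm.toContinuousLinearEquiv : X' →L[ℝ] X).hasFDerivAt
    have h3 : HasFDerivAt (fun x => f (e.symm x)) _ x := hd.hasFDerivAt.comp x h2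
    exact ((e'.toContinuousLinearEquiv : Y →L[ℝ] Y').hasFDerivAt).comp x h3
  rw [h1.fderiv]
  refine ContinuousLinearMap.opNorm_le_bound _ (norm_nonneg _) fun v => ?_
  calc ‖e' (fderiv ℝ f (e.symm x) (e.symm v))‖ = ‖fderiv ℝ f (e.symm x) (e.symm v)‖ :=
        e'.norm_map _
    _ ≤ ‖fderiv ℝ f (e.symm x)‖ * ‖e.symm v‖ := ContinuousLinearMap.le_opNorm _ _
    _ = ‖fderiv ℝ f (e.symm x)‖ * ‖v‖ := by rw [e.symm.norm_map]

private theorem H1_finrank {X Y : Type*} [NormedAddCommGroup X] [InnerProductSpace ℝ X]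
    [NormedAddCommGroup Y] [InnerProductSpace ℝ Y] (f : X → Y) (g : Y → X)
    (hf : ContDiff ℝ 1 f) (hg : ContDiff ℝ 1 g) (gf : ∀ x, g (f x) = x) (fg : ∀ y, f (g y) = y) :
    Module.finrank ℝ Y = Module.finrank ℝ X := by
  have hdf : ∀ x, HasFDerivAt f (fderiv ℝ f x) x := fun x =>
    (hf.differentiable (by norm_num) x).hasFDerivAt
  have hdg : ∀ x, HasFDerivAt g (fderiv ℝ g x) x := fun x =>
    (hg.differentiable (by norm_num) x).hasFDerivAt
  have h1 : (fderiv ℝ g (f 0)).comp (fderiv ℝ f 0) = ContinuousLinearMap.id ℝ X := by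
    have h2 : HasFDerivAt (fun x => g (f x)) ((fderiv ℝ g (f 0)).comp (fderiv ℝ f 0)) 0 :=
      (hdg (f 0)).comp 0 (hdf 0)
    have h3 : HasFDerivAt (fun x : X => g (f x)) (ContinuousLinearMap.id ℝ X) 0 := by
      simp only [gf]
      exact hasFDerivAt_id 0
    exact h2.unique h3
  have h4 : (fderiv ℝ f 0).comp (fderiv ℝ g (f 0)) = ContinuousLinearMap.id ℝ Y := by
    have h2 : HasFDerivAt (fun y => f (g y))
        ((fderiv ℝ f (g (f 0))).comp (fderiv ℝ g (f 0))) (f 0) := (hdf _).comp (f 0) (hdg (f 0))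
    rw [gf] at h2
    have h3 : HasFDerivAt (fun y : Y => f (g y)) (ContinuousLinearMap.id ℝ Y) (f 0) := by
      simp only [fg]
      exact hasFDerivAt_id (f 0)
    exact h2.unique h3
  refine (LinearEquiv.finrank_eq (LinearEquiv.ofLinearMap
    (fderiv ℝ f 0 : X →ₗ[ℝ] Y) (fderiv ℝ g (f 0) : Y →ₗ[ℝ] X) ?_ ?_)).symm
  · ext v
    exact congrArg (fun A : Y →L[ℝ] Y => A v) h4
  · ext v
    exact congrArg (fun A : X →L[ℝ] X => A v) h1

theorem qs_fd (K : ℝ) : ∃ η : ℝ≥0 ≃ₜ ℝ≥0, ∀ (X Y : Type) [NormedAddCommGroup X]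
    [InnerProductSpace ℝ X] [FiniteDimensional ℝ X] [NormedAddCommGroup Y]
    [InnerProductSpace ℝ Y] [FiniteDimensional ℝ Y], 2 ≤ Module.finrank ℝ X →
    ∀ f : X ≃ₜ Y, ContDiff ℝ 1 f → ContDiff ℝ 1 f.symm → IsKQC K f → IsQS η f := by
  obtain ⟨η, hη⟩ := qs_euclidean (max K 0)
  refine ⟨η, ?_⟩
  intro X Y _ _ _ _ _ _ hfin f hf hg hK
  have hrank := H1_finrank f f.symm hf hg f.symm_apply_apply f.apply_symm_apply
  set n := Module.finrank ℝ X with hn
  let eX : X ≃ₗᵢ[ℝ] E n := (stdOrthonormalBasis ℝ X).repr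
  let eY : Y ≃ₗᵢ[ℝ] E n := ((stdOrthonormalBasis ℝ Y).reindex (finCongr hrank)).repr
  have hKQ : KQ n (max K 0) (fun x => eY (f (eX.symm x))) (fun y => eX (f.symm (eY.symm y))) := by
    refine ⟨?_, ?_, ?_, ?_, ?_⟩
    · exact eY.contDiff.comp (hf.comp eX.symm.contDiff)
    · exact eX.contDiff.comp (hg.comp eY.symm.contDiff)
    · intro x
      simp
    · intro y
      simp
    · intro x
      have h1 := H1_norm_le eX eY hf x
      have h2 := H1_norm_le eY eX hg (eY (f (eX.symm x)))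
      rw [eY.symm_apply_apply] at h2
      have h3 : dilat f (eX.symm x) ≤ ENNReal.ofReal (max K 0) :=
        (hK (eX.symm x)).trans (ENNReal.ofReal_le_ofReal (le_max_left _ _))
      have h4 := norm_mul_norm_le_of_dilat (le_max_right K 0) hf hg f.symm_apply_apply
        f.apply_symm_apply (eX.symm x) h3
      exact (mul_le_mul h1 h2 (norm_nonneg _) (norm_nonneg _)).trans h4
  have hqs := hη n hfin _ _ hKQ
  intro t ht x a b hab
  have h5 := hqs t ht (eX x) (eX a) (eX b) (by rw [eX.dist_map, eX.dist_map]; exact hab)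
  simp only [eX.symm_apply_apply, eY.dist_map] at h5
  exact h5

end DF88
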