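import Pool.Agent.H88.DF.H1

/-!
# H2 : homeomorphisms of Hilbert space that are limits of finite dimensional ones
Paper proof. `η` from `qs_fd K`. Let `D` be the dense set. As `1 < rank H` and `D` is dense there are
linearly independent `d₁, d₂ ∈ D` (a dense set is not contained in a line; a line is closed and not
everything).
(1) Let `x, a, b ∈ D`, `t > 0`, `dist x a ≤ t dist x b`. For `ε > 0` apply the hypothesis to
`S = {x, a, b, d₁, d₂}`: `V ∋ d₁, d₂` has `finrank ≥ 2`, so `F` is `η`-quasisymmetric (`qs_fd` with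
`X = V`, `Y = W`), `‖F x - F a‖ ≤ η t ‖F x - F b‖`, hence
`‖f x - f a‖ ≤ 2ε + η t (‖f x - f b‖ + 2ε)`. Let `ε → 0`.
(2) Arbitrary `x, a, b ∈ H` with `dist x a ≤ t dist x b`: if `x = b` then `a = x`, trivial. Otherwise
for every `t' > t` choose `x', a', b' ∈ D` close to `x, a, b`; since
`dist x a ≤ t dist x b < t' dist x b` eventually `dist x' a' ≤ t' dist x' b'`, so by (1) and the
continuity of `f`: `dist (f x) (f a) ≤ η t' dist (f x) (f b)`; let `t' → t` (continuity of `η`).
-/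

set_option autoImplicit false

open MeasureTheory Set Metric Filter
open scoped ENNReal Topology NNReal

namespace DF88

/-- two independent vectors in a dense set -/
theorem H2_pair {H : Type} [NormedAddCommGroup H] [InnerProductSpace ℝ H]
    (hr : 1 < Module.rank ℝ H) {D : Set H} (hD : Dense D) :
    ∃ v : Fin 2 → H, (∀ i, v i ∈ D) ∧ LinearIndependent ℝ v := by
  have hnt : Nontrivial H := by
    rw [← rank_pos_iff_nontrivial (R := ℝ)]
    exact lt_trans zero_lt_one hr
  obtain ⟨x, hx⟩ := exists_ne (0 : H)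
  obtain ⟨y, hy⟩ := exists_linearIndependent_pair_of_one_lt_rank hr hx
  have hopen : IsOpen {v : Fin 2 → H | LinearIndependent ℝ v} := isOpen_setOf_linearIndependent
  have hdense : Dense (Set.pi univ fun _ : Fin 2 => D) := dense_pi univ fun _ _ => hD
  obtain ⟨v, hv1, hv2⟩ := hdense.inter_open_nonempty _ hopen ⟨![x, y], hy⟩
  exact ⟨v, fun i => hv2 i (mem_univ i), hv1⟩

/-- quasisymmetry on the dense set -/
theorem H2_dense {K : ℝ} {η : ℝ≥0 ≃ₜ ℝ≥0}
    (hη : ∀ (X Y : Type) [NormedAddCommGroup X]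
      [InnerProductSpace ℝ X] [FiniteDimensional ℝ X] [NormedAddCommGroup Y]
      [InnerProductSpace ℝ Y] [FiniteDimensional ℝ Y], 2 ≤ Module.finrank ℝ X →
      ∀ f : X ≃ₜ Y, ContDiff ℝ 1 f → ContDiff ℝ 1 f.symm → IsKQC K f → IsQS η f)
    {H : Type} [NormedAddCommGroup H] [InnerProductSpace ℝ H]
    (hr : 1 < Module.rank ℝ H) {f : H → H} {D : Set H} (hD : Dense D)
    (h : ∀ S : Finset H, (S : Set H) ⊆ D → ∀ ε : ℝ, 0 < ε →
      ∃ (V W : Submodule ℝ H) (F : V ≃ₜ W), FiniteDimensional ℝ V ∧ FiniteDimensional ℝ W ∧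
        ContDiff ℝ 1 F ∧ ContDiff ℝ 1 F.symm ∧ IsKQC K F ∧
        ∀ x ∈ S, ∃ hx : x ∈ V, ‖((F ⟨x, hx⟩ : W) : H) - f x‖ < ε)
    {t : ℝ≥0} (ht : 0 < t) {x a b : H} (hx : x ∈ D) (ha : a ∈ D) (hb : b ∈ D)
    (hd : dist x a ≤ t * dist x b) : dist (f x) (f a) ≤ η t * dist (f x) (f b) := by
  classical
  obtain ⟨v, hvD, hvi⟩ := H2_pair hr hD
  apply le_of_forall_pos_le_add
  intro δ hδ
  have hden : (0 : ℝ) < 2 + 2 * η t := by positivity
  set ε := δ / (2 + 2 * η t) with hε
  have hε0 : 0 < ε := div_pos hδ hden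
  set S : Finset H := {x, a, b, v 0, v 1} with hS
  have hSD : (S : Set H) ⊆ D := by
    intro y hy
    rw [hS] at hy
    simp only [Finset.coe_insert, Finset.coe_singleton, Set.mem_insert_iff,
      Set.mem_singleton_iff] at hy
    rcases hy with rfl | rfl | rfl | rfl | rfl
    · exact hx
    · exact ha
    · exact hb
    · exact hvD 0
    · exact hvD 1
  obtain ⟨V, W, F, hV, hW, hF1, hF2, hF3, hF4⟩ := h S hSD ε hε0
  obtain ⟨hxV, hx1⟩ := hF4 x (by rw [hS]; simp)
  obtain ⟨haV, ha1⟩ := hF4 a (by rw [hS]; simp)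
  obtain ⟨hbV, hb1⟩ := hF4 b (by rw [hS]; simp)
  obtain ⟨h0V, -⟩ := hF4 (v 0) (by rw [hS]; simp)
  obtain ⟨h1V, -⟩ := hF4 (v 1) (by rw [hS]; simp)
  have hvV : ∀ i, v i ∈ V := by
    intro i
    fin_cases i
    · exact h0V
    · exact h1V
  have hfin : 2 ≤ Module.finrank ℝ V := by
    have hli : LinearIndependent ℝ (fun i => (⟨v i, hvV i⟩ : V)) :=
      LinearIndependent.of_comp V.subtype hvi
    have := hli.fintype_card_le_finrank
    rwa [Fintype.card_fin] at this
  have hqs := hη V W hfin F hF1 hF2 hF3 t ht ⟨x, hxV⟩ ⟨a, haV⟩ ⟨b, hbV⟩ hd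
  have hqs' : dist ((F ⟨x, hxV⟩ : W) : H) ((F ⟨a, haV⟩ : W) : H)
      ≤ η t * dist ((F ⟨x, hxV⟩ : W) : H) ((F ⟨b, hbV⟩ : W) : H) := hqs
  rw [← dist_eq_norm] at hx1 ha1 hb1
  set X : H := ((F ⟨x, hxV⟩ : W) : H) with hXd
  set A : H := ((F ⟨a, haV⟩ : W) : H) with hAd
  set B : H := ((F ⟨b, hbV⟩ : W) : H) with hBd
  have h1 : dist (f x) (f a) ≤ dist X A + 2 * ε := by
    have e1 := dist_triangle (f x) X (f a)
    have e2 := dist_triangle X A (f a)
    rw [dist_comm (f x) X] at e1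
    linarith
  have h2 : dist X B ≤ dist (f x) (f b) + 2 * ε := by
    have e1 := dist_triangle X (f x) B
    have e2 := dist_triangle (f x) (f b) B
    rw [dist_comm (f b) B] at e2
    linarith
  have h3 : (η t : ℝ) * dist X B ≤ η t * (dist (f x) (f b) + 2 * ε) := by gcongr
  have h4 : (2 + 2 * η t) * ε = δ := by
    rw [hε]
    field_simp
  calc dist (f x) (f a) ≤ dist X A + 2 * ε := h1
    _ ≤ η t * (dist (f x) (f b) + 2 * ε) + 2 * ε := by linarith
    _ = η t * dist (f x) (f b) + (2 + 2 * η t) * ε := by ring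
    _ = _ := by rw [h4]

theorem qs_hilbert (K : ℝ) : ∃ η : ℝ≥0 ≃ₜ ℝ≥0, ∀ (H : Type) [NormedAddCommGroup H]
    [InnerProductSpace ℝ H], 1 < Module.rank ℝ H → ∀ f : H ≃ₜ H, FinApprox K f → IsQS η f := by
  obtain ⟨η, hη⟩ := qs_fd K
  refine ⟨η, fun H _ _ hr f hf => ?_⟩
  obtain ⟨D, hD, h⟩ := hf
  intro t ht x a b hd
  rcases eq_or_ne x b with hxb | hxb
  · have h1 : dist x a ≤ 0 := by
      rw [hxb, dist_self, mul_zero] at hd
      rw [hxb]
      exact hd
    have h2 : x = a := dist_le_zero.mp h1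
    rw [h2, dist_self]
    positivity
  · have hxb' : 0 < dist x b := dist_pos.mpr hxb
    have key : ∀ t' : ℝ≥0, t < t' → dist (f x) (f a) ≤ η t' * dist (f x) (f b) := by
      intro t' htt
      set U : Set (H × H × H) := {p | dist p.1 p.2.1 < t' * dist p.1 p.2.2} with hU
      have hUo : IsOpen U := isOpen_lt (by fun_prop) (by fun_prop)
      have hDD : Dense (D ×ˢ D ×ˢ D : Set (H × H × H)) := hD.prod (hD.prod hD)
      have hmem : (x, a, b) ∈ U := by
        rw [hU, Set.mem_setOf_eq]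
        have : (t : ℝ) < t' := by exact_mod_cast htt
        calc dist x a ≤ t * dist x b := hd
          _ < t' * dist x b := by gcongr
      have hcl := hDD.open_subset_closure_inter hUo hmem
      have hclosed : IsClosed {p : H × H × H | dist (f p.1) (f p.2.1) ≤ η t' * dist (f p.1) (f p.2.2)} := by
        have hfc := f.continuous
        exact isClosed_le (by fun_prop) (by fun_prop)
      refine closure_minimal ?_ hclosed hcl
      rintro ⟨x', a', b'⟩ ⟨hlt, hx', ha', hb'⟩
      exact H2_dense hη hr hD h (ht.trans htt) hx' ha' hb' (le_of_lt hlt)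
    have hlim : Tendsto (fun t' : ℝ≥0 => (η t' : ℝ) * dist (f x) (f b)) (𝓝[>] t)
        (𝓝 ((η t : ℝ) * dist (f x) (f b))) := by
      have hc : Continuous fun t' : ℝ≥0 => (η t' : ℝ) * dist (f x) (f b) :=
        (NNReal.continuous_coe.comp η.continuous).mul continuous_const
      exact (hc.tendsto t).mono_left nhdsWithin_le_nhds
    refine ge_of_tendsto hlim ?_
    filter_upwards [self_mem_nhdsWithin] with t' ht'
    exact key t' ht'

end DF88
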