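import Pool.Agent.H88.DF.Defs

/-!
# P1 : double integral Poincare inequality with exponent n (Mathlib only)
Paper proof. Let `B = ball z ρ`, `φ x = ‖fderiv u x‖ₑ ^ n`. For `x ∈ S`, `y ∈ T`:
`1 ≤ |u x - u y| ≤ ∫_0^1 ‖fderiv u (x + t (y - x))‖ * ‖y - x‖ dt ≤ 2 ρ ∫_0^1 ‖fderiv u (..)‖ dt`,
and by Jensen (Hoelder on `[0,1]`) `1 ≤ (2ρ)^n ∫_0^1 φ (x + t (y - x)) dt`. Integrate over
`S × T ⊆ B × B`:
`|S| |T| ≤ (2ρ)^n ∫_0^1 ∫_B ∫_B φ(x + t (y - x)) dx dy dt`.
For `t ∈ [1/2, 1]` fix `x ∈ B`: the map `y ↦ (1-t) x + t y` sends `B` into `B` (convexity) and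
multiplies volumes by `t^n ≥ 2^(-n)`, so `∫_B φ((1-t) x + t y) dy ≤ 2^n ∫_B φ`
(`MeasureTheory.Measure.setLIntegral_comp_smul`-type lemmas, or
`lintegral_image_eq_lintegral_abs_det_fderiv_mul`, or `Measure.addHaar_preimage_smul` after rewriting
as a translation and a homothety; write `φ' = B.indicator φ` and use
`lintegral` over the whole space: `∫⁻ y, φ' (a + t • y) = ofReal (t^n)⁻¹ * ∫⁻ φ'`).
For `t ∈ [0, 1/2]` exchange the roles of `x` and `y` (`1 - t ≥ 1/2`). So the triple integral is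
`≤ 2^n |B| ∫_B φ`, total constant `(2ρ)^n 2^n = (4ρ)^n`.
-/

set_option autoImplicit false

open MeasureTheory Set Metric Filter
open scoped ENNReal Topology NNReal

namespace DF88

/-- Lebesgue measure on the unit interval -/
private noncomputable def P1_I : Measure ℝ := volume.restrict (Ioc (0 : ℝ) 1)

private instance P1_prob : IsProbabilityMeasure P1_I := ⟨by simp [P1_I]⟩

private theorem P1_jensen {n : ℕ} (hn : 1 ≤ n) {h : ℝ → ℝ} (hh : Continuous h) :
    (∫⁻ t, ‖h t‖ₑ ∂P1_I) ^ n ≤ ∫⁻ t, ‖h t‖ₑ ^ n ∂P1_I := by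
  have h1 := eLpNorm_le_eLpNorm_of_exponent_le (μ := P1_I) (p := 1) (q := (n : ℝ≥0∞))
    (by exact_mod_cast hn) (hh.aestronglyMeasurable)
  have hn0 : (n : ℝ≥0∞) ≠ 0 := by
    have : n ≠ 0 := by omega
    exact_mod_cast this
  rw [eLpNorm_one_eq_lintegral_enorm, eLpNorm_eq_lintegral_rpow_enorm_toReal hn0 (by simp)] at h1
  have h2 := pow_le_pow_left' h1 n
  have hn1 : (n : ℝ) ≠ 0 := by
    have : n ≠ 0 := by omega
    exact_mod_cast this
  rw [← ENNReal.rpow_natCast (_ ^ (1 / _)) n, ← ENNReal.rpow_mul] at h2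
  simp only [ENNReal.toReal_natCast, one_div, ne_eq, hn1, not_false_eq_true, inv_mul_cancel₀,
    ENNReal.rpow_one, ENNReal.rpow_natCast] at h2
  exact h2

private theorem P1_line {n : ℕ} (hn : 1 ≤ n) {u : E n → ℝ} (hu : ContDiff ℝ 1 u) (z : E n)
    {ρ : ℝ} (hρ : 0 < ρ) {x y : E n} (hx : x ∈ ball z ρ) (hy : y ∈ ball z ρ)
    (h : 1 ≤ |u x - u y|) :
    1 ≤ ENNReal.ofReal ((2 * ρ) ^ n) *
      ∫⁻ t, (ball z ρ).indicator (fun w => ‖fderiv ℝ u w‖ₑ ^ n) ((1 - t) • x + t • y) ∂P1_I := by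
  have hc : Continuous (fun t : ℝ => (1 - t) • x + t • y) := by fun_prop
  have hdc : Continuous (fun t : ℝ => fderiv ℝ u ((1 - t) • x + t • y)) :=
    (hu.continuous_fderiv one_ne_zero).comp hc
  have hd : ∀ t : ℝ, HasDerivAt (fun t : ℝ => u ((1 - t) • x + t • y))
      (fderiv ℝ u ((1 - t) • x + t • y) (y - x)) t := by
    intro t
    have h1 : HasDerivAt (fun t : ℝ => (1 - t) • x + t • y) (y - x) t := by
      have h2 : HasDerivAt (fun t : ℝ => (1 - t) • x) ((-1 : ℝ) • x) t :=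
        ((hasDerivAt_id t).const_sub 1).smul_const x
      have h3 : HasDerivAt (fun t : ℝ => t • y) ((1 : ℝ) • y) t := (hasDerivAt_id t).smul_const y
      have h4 := h2.add h3
      have e : (-1 : ℝ) • x + (1 : ℝ) • y = y - x := by
        rw [neg_one_smul, one_smul]; abel
      rwa [e] at h4
    exact ((hu.differentiable (by norm_num)) _).hasFDerivAt.comp_hasDerivAt t h1
  have hint : ∫ t in (0 : ℝ)..1, fderiv ℝ u ((1 - t) • x + t • y) (y - x) = u y - u x := by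
    rw [intervalIntegral.integral_eq_sub_of_hasDerivAt (fun t _ => hd t)]
    · simp
    · exact (hdc.clm_apply continuous_const).intervalIntegrable _ _
  rw [intervalIntegral.integral_of_le zero_le_one] at hint
  have h1 : (1 : ℝ≥0∞) ≤ ‖u y - u x‖ₑ := by
    rw [Real.enorm_eq_ofReal_abs, abs_sub_comm, ← ENNReal.ofReal_one]
    exact ENNReal.ofReal_le_ofReal h
  have hxy : ‖y - x‖ ≤ 2 * ρ := by
    rw [← dist_eq_norm]
    have h2 := dist_triangle_right y x z
    have h3 := mem_ball.1 hx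
    have h4 := mem_ball.1 hy
    linarith
  have h2 : ‖u y - u x‖ₑ ≤ ENNReal.ofReal (2 * ρ) *
      ∫⁻ t, ‖‖fderiv ℝ u ((1 - t) • x + t • y)‖‖ₑ ∂P1_I := by
    rw [← hint]
    refine (enorm_integral_le_lintegral_enorm _).trans ?_
    rw [← lintegral_const_mul' _ _ ENNReal.ofReal_ne_top]
    refine lintegral_mono fun t => ?_
    simp only [enorm_norm]
    refine (ContinuousLinearMap.le_opENorm _ _).trans ?_
    rw [mul_comm]
    refine mul_le_mul_left ?_ _
    rw [← ofReal_norm]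
    exact ENNReal.ofReal_le_ofReal hxy
  have h3 := pow_le_pow_left' (h1.trans h2) n
  rw [one_pow, mul_pow] at h3
  have h4 := P1_jensen hn (h := fun t => ‖fderiv ℝ u ((1 - t) • x + t • y)‖) hdc.norm
  refine h3.trans ?_
  rw [← ENNReal.ofReal_pow (by positivity)]
  refine mul_le_mul_right (h4.trans ?_) _
  unfold P1_I
  refine setLIntegral_mono' measurableSet_Ioc fun t ht => ?_
  have hmem : (1 - t) • x + t • y ∈ ball z ρ :=
    (convex_ball z ρ) hx hy (by linarith [ht.2]) ht.1.le (by ring)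
  rw [indicator_of_mem hmem, enorm_norm]

private theorem P1_scale {n : ℕ} {φ : E n → ℝ≥0∞} (hφ : Measurable φ) (a : E n) {t : ℝ}
    (ht : 1 / 2 ≤ t) : ∫⁻ y, φ (a + t • y) ≤ 2 ^ n * ∫⁻ y, φ y := by
  have ht0 : t ≠ 0 := by linarith
  have hm : Measurable (fun w => φ (a + w)) := hφ.comp (measurable_const_add a)
  have h1 : ∫⁻ y, φ (a + t • y) = ∫⁻ w, φ (a + w) ∂(Measure.map (t • ·) (volume : Measure (E n))) := by
    rw [lintegral_map hm (measurable_const_smul t)]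
  rw [h1, Measure.map_addHaar_smul volume ht0, lintegral_smul_measure, lintegral_add_left_eq_self,
    smul_eq_mul]
  refine mul_le_mul_left ?_ _
  rw [finrank_euclideanSpace_fin]
  have h2 : |(t ^ n)⁻¹| ≤ 2 ^ n := by
    have h3 : 0 < t := by linarith
    rw [abs_of_pos (by positivity), ← inv_pow]
    refine pow_le_pow_left₀ (by positivity) ?_ n
    rw [inv_le_comm₀ h3 (by norm_num)]
    linarith
  calc ENNReal.ofReal |(t ^ n)⁻¹| ≤ ENNReal.ofReal (2 ^ n) := ENNReal.ofReal_le_ofReal h2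
    _ = 2 ^ n := by rw [ENNReal.ofReal_pow (by norm_num)]; simp

private theorem P1_fix {n : ℕ} {φ : E n → ℝ≥0∞} (hφ : Measurable φ) (z : E n) (ρ : ℝ) (t : ℝ) :
    ∫⁻ x in ball z ρ, ∫⁻ y in ball z ρ, φ ((1 - t) • x + t • y) ≤
      2 ^ n * volume (ball z ρ) * ∫⁻ y, φ y := by
  have key : ∀ s : ℝ, 1 / 2 ≤ s → ∫⁻ x in ball z ρ, ∫⁻ y in ball z ρ, φ ((1 - s) • x + s • y) ≤
      2 ^ n * volume (ball z ρ) * ∫⁻ y, φ y := by
    intro s hs
    calc ∫⁻ x in ball z ρ, ∫⁻ y in ball z ρ, φ ((1 - s) • x + s • y)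
        ≤ ∫⁻ x in ball z ρ, 2 ^ n * ∫⁻ y, φ y :=
          lintegral_mono fun x => (setLIntegral_le_lintegral _ _).trans (P1_scale hφ _ hs)
      _ = 2 ^ n * volume (ball z ρ) * ∫⁻ y, φ y := by
          rw [setLIntegral_const]; ring
  rcases le_total (1 / 2) t with h | h
  · exact key t h
  · have h2 := key (1 - t) (by linarith)
    refine le_trans (le_of_eq ?_) h2
    rw [lintegral_lintegral_swap]
    · refine lintegral_congr fun x => lintegral_congr fun y => ?_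
      congr 1
      rw [sub_sub_cancel, add_comm]
    · have : Measurable (fun p : E n × E n => φ ((1 - t) • p.1 + t • p.2)) :=
        hφ.comp (by fun_prop)
      exact this.aemeasurable

theorem mul_volume_le {n : ℕ} (hn : 1 ≤ n) {u : E n → ℝ} (hu : ContDiff ℝ 1 u) (z : E n)
    {ρ : ℝ} (hρ : 0 < ρ) {S T : Set (E n)} (hS : MeasurableSet S) (hT : MeasurableSet T)
    (hSb : S ⊆ ball z ρ) (hTb : T ⊆ ball z ρ)
    (hST : ∀ x ∈ S, ∀ y ∈ T, 1 ≤ |u x - u y|) :
    volume S * volume T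
      ≤ ENNReal.ofReal ((4 * ρ) ^ n) * volume (ball z ρ) *
        ∫⁻ x in ball z ρ, ‖fderiv ℝ u x‖ₑ ^ n := by
  set φ : E n → ℝ≥0∞ := (ball z ρ).indicator (fun w => ‖fderiv ℝ u w‖ₑ ^ n) with hφdef
  have hφ : Measurable φ := by
    refine Measurable.indicator ?_ measurableSet_ball
    exact ((hu.continuous_fderiv one_ne_zero).enorm.measurable).pow_const n
  have hG : Measurable (fun p : (E n × ℝ) × E n => φ ((1 - p.1.2) • p.1.1 + p.1.2 • p.2)) :=
    hφ.comp (by fun_prop)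
  have hG2 : Measurable (fun p : E n × (E n × ℝ) => φ ((1 - p.2.2) • p.1 + p.2.2 • p.2.1)) :=
    hφ.comp (by fun_prop)
  calc volume S * volume T = ∫⁻ x in S, ∫⁻ y in T, 1 := by
        simp [mul_comm]
    _ ≤ ∫⁻ x in S, ∫⁻ y in T, ENNReal.ofReal ((2 * ρ) ^ n) *
          ∫⁻ t, φ ((1 - t) • x + t • y) ∂P1_I := by
        refine setLIntegral_mono' hS fun x hx => setLIntegral_mono' hT fun y hy => ?_
        exact P1_line hn hu z hρ (hSb hx) (hTb hy) (hST x hx y hy)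
    _ ≤ ∫⁻ x in ball z ρ, ∫⁻ y in ball z ρ, ENNReal.ofReal ((2 * ρ) ^ n) *
          ∫⁻ t, φ ((1 - t) • x + t • y) ∂P1_I := by
        refine (lintegral_mono fun x => lintegral_mono_set hTb).trans (lintegral_mono_set hSb)
    _ = ENNReal.ofReal ((2 * ρ) ^ n) * ∫⁻ x in ball z ρ, ∫⁻ y in ball z ρ,
          ∫⁻ t, φ ((1 - t) • x + t • y) ∂P1_I := by
        rw [← lintegral_const_mul' _ _ ENNReal.ofReal_ne_top]
        refine lintegral_congr fun x => ?_
        rw [lintegral_const_mul' _ _ ENNReal.ofReal_ne_top]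
    _ = ENNReal.ofReal ((2 * ρ) ^ n) * ∫⁻ x in ball z ρ, ∫⁻ t, (∫⁻ y in ball z ρ,
          φ ((1 - t) • x + t • y)) ∂P1_I := by
        congr 1
        refine lintegral_congr fun x => ?_
        rw [lintegral_lintegral_swap]
        have : Measurable (fun p : E n × ℝ => φ ((1 - p.2) • x + p.2 • p.1)) :=
          hφ.comp (by fun_prop)
        exact this.aemeasurable
    _ = ENNReal.ofReal ((2 * ρ) ^ n) * ∫⁻ t, (∫⁻ x in ball z ρ, ∫⁻ y in ball z ρ,
          φ ((1 - t) • x + t • y)) ∂P1_I := by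
        congr 1
        rw [lintegral_lintegral_swap]
        exact (hG.lintegral_prod_right' (ν := volume.restrict (ball z ρ))).aemeasurable
    _ ≤ ENNReal.ofReal ((2 * ρ) ^ n) * ∫⁻ _, (2 ^ n * volume (ball z ρ) * ∫⁻ y, φ y) ∂P1_I := by
        refine mul_le_mul_right (lintegral_mono fun t => P1_fix hφ z ρ t) _
    _ = ENNReal.ofReal ((4 * ρ) ^ n) * volume (ball z ρ) *
        ∫⁻ x in ball z ρ, ‖fderiv ℝ u x‖ₑ ^ n := by
        rw [lintegral_const, measure_univ, mul_one, hφdef, lintegral_indicator measurableSet_ball]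
        have e : ENNReal.ofReal ((4 * ρ) ^ n) = ENNReal.ofReal ((2 * ρ) ^ n) * 2 ^ n := by
          have e1 : (4 * ρ) ^ n = (2 * ρ) ^ n * 2 ^ n := by rw [← mul_pow]; ring
          rw [e1, ENNReal.ofReal_mul (by positivity), ENNReal.ofReal_pow (by norm_num : (0:ℝ) ≤ 2)]
          simp
        rw [e]
        ring

end DF88
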