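import Pool.Agent.H88.DF.Defs

/-!
# W : quasisymmetric homeomorphisms map balls to quasiballs
-/

set_option autoImplicit false

open MeasureTheory Set Metric Filter
open scoped ENNReal Topology NNReal

namespace DF88

theorem quasiball_of_isQS {H : Type*} [NormedAddCommGroup H] [NormedSpace ℝ H] [Nontrivial H]
    {η : ℝ≥0 ≃ₜ ℝ≥0} (f : H ≃ₜ H) (hf : IsQS η f) (x : H) (r : ℝ) (hr : 0 < r) :
    ∃ (y : H) (s : ℝ), 0 < s ∧ ball y s ⊆ f '' ball x r ∧
      f '' ball x r ⊆ ball y ((η 1 + 1) * s) := by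
  have hsph : (sphere x r).Nonempty := NormedSpace.sphere_nonempty.2 hr.le
  set Z : Set ℝ := (fun b => dist (f x) (f b)) '' sphere x r with hZ
  have hZne : Z.Nonempty := hsph.image _
  have hZb : BddBelow Z := ⟨0, by rintro _ ⟨b, _, rfl⟩; exact dist_nonneg⟩
  have key : ∀ a, dist a x ≤ r → ∀ b ∈ sphere x r, dist (f x) (f a) ≤ η 1 * dist (f x) (f b) := by
    intro a ha b hb
    have := hf 1 one_pos x a b (by
      rw [NNReal.coe_one, one_mul, dist_comm x a, dist_comm x b, mem_sphere.1 hb]; exact ha)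
    exact this
  set l := sInf Z with hl
  obtain ⟨b₀, hb₀⟩ := hsph
  have hb₀x : b₀ ≠ x := by
    rintro rfl
    rw [mem_sphere, dist_self] at hb₀
    exact hr.ne hb₀
  have hpos : 0 < dist (f x) (f b₀) := by
    rw [dist_pos]; exact fun h => hb₀x (f.injective h).symm
  have hη : (0 : ℝ) < η 1 := by
    have h1 := key b₀ (mem_sphere.1 hb₀).le b₀ hb₀
    by_contra hcon
    push Not at hcon
    nlinarith
  have hle : ∀ a, dist a x ≤ r → dist (f x) (f a) ≤ η 1 * l := by
    intro a ha
    rw [← div_le_iff₀' hη]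
    apply le_csInf hZne
    rintro _ ⟨b, hb, rfl⟩
    rw [div_le_iff₀' hη]
    exact key a ha b hb
  have hlpos : 0 < l := by
    have := hle b₀ (mem_sphere.1 hb₀).le
    by_contra hcon
    push Not at hcon
    nlinarith
  refine ⟨f x, l, hlpos, ?_, ?_⟩
  · intro y hy
    refine ⟨f.symm y, ?_, f.apply_symm_apply y⟩
    by_contra hcon
    rw [mem_ball, not_lt] at hcon
    set φ : ℝ → ℝ := fun t => dist (f.symm (f x + t • (y - f x))) x with hφ
    have hφc : ContinuousOn φ (Icc 0 1) := by
      apply Continuous.continuousOn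
      apply Continuous.dist _ continuous_const
      apply f.symm.continuous.comp
      fun_prop
    have h0 : φ 0 = 0 := by simp [hφ]
    have h1 : φ 1 = dist (f.symm y) x := by simp [hφ]
    obtain ⟨t, ht, htr⟩ := intermediate_value_Icc zero_le_one hφc
      (show r ∈ Icc (φ 0) (φ 1) by rw [h0, h1]; exact ⟨hr.le, hcon⟩)
    have h2 : l ≤ dist (f x) (f (f.symm (f x + t • (y - f x)))) :=
      csInf_le hZb ⟨_, mem_sphere.2 htr, rfl⟩
    rw [f.apply_symm_apply, dist_eq_norm, sub_add_cancel_left, norm_neg, norm_smul,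
      Real.norm_of_nonneg ht.1] at h2
    rw [mem_ball, dist_eq_norm] at hy
    have h3 : t * ‖y - f x‖ ≤ 1 * ‖y - f x‖ := by
      gcongr; exact ht.2
    linarith
  · rintro _ ⟨a, ha, rfl⟩
    rw [mem_ball, dist_comm]
    calc dist (f x) (f a) ≤ η 1 * l := hle a (mem_ball.1 ha).le
      _ < (η 1 + 1) * l := by nlinarith

end DF88
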