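import Pool.Agent.H88.DF.B4
import Pool.Agent.H88.DF.G6
import Pool.Agent.H88.DF.A3
import Pool.Agent.H88.DF.FL
import Pool.Agent.H88.DF.F1

/-!
# X1 : dimension-free distortion
Paper proof. `K ≥ 1` (else vacuous, `Q = 1`). `A ≥ 2` from `growth`, `C ≥ 1` from `Lf_le_vr`. Choose
naturals `k, m, p` with `2^k > 2 C`, `2^m ≥ 4 C`, `2^p > 2 C * 4 * A^k`. Put `c = A^(-p)`,
`c' = min (1/C) (c/2) / (2 A^m)`, `N₀` from `fat_loewner K c'`, and `Q₀ = 2^(N₀+5)`.
Fix `n ≥ 2`, `f, g`. Let `Q` be the supremum of the ratios `Lf f z r / lf f z r` over all `z` and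
`r > 0`; it is finite by `finite_distortion` and `≥ 1` (`lf ≤ Lf`, `lf > 0`).
Claim `Q ≤ Q₀`. Choose `(z, r)` with `Lf f z r ≥ (Q/2) lf f z r`. Put `w = f z`,
`l = lf f z r`, `L = Lf f z r`; let `a` with `dist a z ≤ r`, `‖f a - w‖ = L` and `b` with
`dist b z = r`, `‖f b - w‖ = l`. For all `ρ > 0`: `Lf f z ρ ≤ Q * lf f z ρ`.   (*)
Write `R U = vr U`.
(i) `r = ‖g (f b) - g w‖ ≤ Lf g w l ≤ C R(g '' ball w (2l))` (`Lf_le_vr` for `g`, `h.symm`).
(ii) `Lf f z (2r) ≤ 4 A^k L`. Otherwise by (*) `lf f z (2r) ≥ 4 A^k L / Q ≥ 2 A^k l`, so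
`g '' ball w (A^k * (2 l)) ⊆ ball z (2r)` (`KQ.image_inv_ball_subset`), and `growth` for `g` iterated
`k` times gives `2r ≥ R(g '' ball w (A^k (2l))) ≥ 2^k R(g '' ball w (2l)) ≥ 2^k r/C`, contradiction.
(iii) Put `ρ₁ = 2 A^m r`. `Lf f z ρ₁ ≥ R(f '' ball z ρ₁) ≥ 2^m R(f '' ball z (2r)) ≥ 2^m L/C ≥ 4 L`
(`vr_le_Lf`, `growth`, `Lf_le_vr`), so by (*) `lf f z ρ₁ ≥ 4L/Q ≥ 2l`, hence
`S := g '' ball w (2l) ⊆ ball z ρ₁`, and `R S ≥ r/C` by (i).
(iv) `R(f '' ball a (c r)) ≤ L/(2C)`: otherwise `growth` iterated `p` times gives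
`R(f '' ball a r) ≥ 2^p L/(2C) > 4 A^k L`, but `ball a r ⊆ ball z (2r)` and so
`R(f '' ball a r) ≤ Lf f z (2r) ≤ 4 A^k L`, contradiction. By `Lf_le_vr` at `a`:
`Lf f a (c r/2) ≤ C R(f '' ball a (c r)) ≤ L/2`. So `T := ball a (c r/2)` satisfies
`dist (f x) w ≥ L/2` for `x ∈ T`, `T ⊆ ball z (2r) ⊆ ball z ρ₁`, `R T = c r/2`.
(v) Both radii are `≥ c' ρ₁`. If `2^N * (2l) ≤ L/2` then `fat_loewner` (radius `ρ₁`, `a := 2l`;
`S` is open hence measurable) gives `N ≤ N₀`. So `L/2 < 2^(N₀+1) (2l)`, i.e. `L < 2^(N₀+3) l`, and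
with `L ≥ (Q/2) l`: `Q < 2^(N₀+4)`.
-/

set_option autoImplicit false

open MeasureTheory Set Metric Filter
open scoped ENNReal Topology NNReal

namespace DF88

theorem X1_iter {A : ℝ} (hA : 2 ≤ A) {n : ℕ} {f : E n → E n}
    (h : ∀ (z : E n) (ρ : ℝ), 0 < ρ → 2 * vr (f '' ball z ρ) ≤ vr (f '' ball z (A * ρ)))
    (k : ℕ) (z : E n) (ρ : ℝ) (hρ : 0 < ρ) :
    2 ^ k * vr (f '' ball z ρ) ≤ vr (f '' ball z (A ^ k * ρ)) := by
  induction k with
  | zero => simp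
  | succ k ih =>
    have hA0 : 0 < A := by linarith
    have h1 := h z (A ^ k * ρ) (by positivity)
    have h2 : A * (A ^ k * ρ) = A ^ (k + 1) * ρ := by ring
    rw [h2] at h1
    calc 2 ^ (k + 1) * vr (f '' ball z ρ) = 2 * (2 ^ k * vr (f '' ball z ρ)) := by ring
      _ ≤ 2 * vr (f '' ball z (A ^ k * ρ)) := by linarith
      _ ≤ _ := h1

/-- the main step: near-extremal pairs have bounded ratio -/
theorem X1_core (K : ℝ) : ∃ Q₀ : ℝ, 1 ≤ Q₀ ∧ ∀ (n : ℕ), 2 ≤ n → ∀ (f g : E n → E n),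
    KQ n K f g → ∀ (Q : ℝ), 1 ≤ Q → (∀ (z : E n) (ρ : ℝ), 0 < ρ → Lf f z ρ ≤ Q * lf f z ρ) →
    ∀ (z : E n) (r : ℝ), 0 < r → Q / 2 * lf f z r ≤ Lf f z r → Q ≤ Q₀ := by
  obtain ⟨A, hA, hgr⟩ := growth K
  obtain ⟨C, hC, hLv⟩ := Lf_le_vr K
  have hA0 : 0 < A := by linarith
  have hA1 : 1 ≤ A := by linarith
  obtain ⟨k, hk⟩ := pow_unbounded_of_one_lt (2 * C) (one_lt_two)
  obtain ⟨m, hm⟩ := pow_unbounded_of_one_lt (4 * C) (one_lt_two)
  obtain ⟨p, hp⟩ := pow_unbounded_of_one_lt (2 * C * (4 * A ^ k)) (one_lt_two)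
  set c : ℝ := (A ^ p)⁻¹ with hc
  have hAp : 1 ≤ A ^ p := one_le_pow₀ hA1
  have hAm : 1 ≤ A ^ m := one_le_pow₀ hA1
  have hc0 : 0 < c := by positivity
  have hc1 : c ≤ 1 := by
    rw [hc]; exact inv_le_one_of_one_le₀ hAp
  set c' : ℝ := min (1 / C) (c / 2) / (2 * A ^ m) with hc'
  have hc'0 : 0 < c' := by
    have : 0 < min (1 / C) (c / 2) := lt_min (by positivity) (by positivity)
    positivity
  obtain ⟨N₀, hN₀⟩ := fat_loewner K c' hc'0
  refine ⟨2 ^ (N₀ + 5), one_le_pow₀ one_le_two, ?_⟩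
  intro n hn f g h Q hQ hstar z r hr hnear
  have hn1 : 1 ≤ n := by omega
  have hfc := h.hf.continuous
  have hgc := h.hg.continuous
  set w := f z with hw
  obtain ⟨a, haz, haL⟩ := exists_Lf hfc z hr.le
  obtain ⟨b, hbz, hbl⟩ := exists_lf hn1 hfc z hr.le
  set l := lf f z r with hl
  set L := Lf f z r with hL
  have hl0 : 0 < l := h.lf_pos hn1 z hr
  have hL0 : 0 < L := lt_of_lt_of_le (by positivity) hnear
  have hQ0 : 0 < Q := by linarith
  -- (i)
  have hi : r ≤ C * vr (g '' ball w (2 * l)) := by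
    have h1 : ‖g (f b) - g w‖ ≤ Lf g w l := by
      apply norm_le_Lf hgc
      rw [dist_eq_norm]
      exact hbl.le
    rw [h.gf, hw, h.gf, ← dist_eq_norm, hbz] at h1
    exact h1.trans (hLv n hn g f h.symm w l hl0)
  have hRS : r / C ≤ vr (g '' ball w (2 * l)) := by
    rw [div_le_iff₀ (by linarith)]
    linarith
  -- (ii)
  have hii : Lf f z (2 * r) ≤ 4 * A ^ k * L := by
    by_contra hcon
    push Not at hcon
    have h2r := hstar z (2 * r) (by positivity)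
    have h1 : A ^ k * (2 * l) ≤ lf f z (2 * r) := by
      have h3 : 4 * A ^ k * (Q / 2 * l) ≤ Q * lf f z (2 * r) := by
        calc 4 * A ^ k * (Q / 2 * l) ≤ 4 * A ^ k * L := by gcongr
          _ ≤ Lf f z (2 * r) := hcon.le
          _ ≤ _ := h2r
      have h4 : Q * (A ^ k * (2 * l)) ≤ Q * lf f z (2 * r) := by
        calc Q * (A ^ k * (2 * l)) = 4 * A ^ k * (Q / 2 * l) := by ring
          _ ≤ _ := h3
      exact le_of_mul_le_mul_left h4 hQ0
    have h2 := h.image_inv_ball_subset z (r := 2 * r) (by positivity) h1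
    have h3 : vr (g '' ball w (A ^ k * (2 * l))) ≤ 2 * r := by
      rw [← vr_ball hn1 z (r := 2 * r) (by positivity)]
      apply vr_mono h2
      exact measure_ball_lt_top.ne
    have h4 := X1_iter hA (hgr n hn g f h.symm) k w (2 * l) (by positivity)
    have h5 : 2 ^ k * (r / C) ≤ 2 * r := by
      calc 2 ^ k * (r / C) ≤ 2 ^ k * vr (g '' ball w (2 * l)) := by gcongr
        _ ≤ _ := h4.trans h3
    have h6 : 2 ^ k * r ≤ 2 * r * C := by
      rw [mul_div_assoc', div_le_iff₀ (by linarith)] at h5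
      exact h5
    nlinarith
  -- (iii)
  set ρ₁ : ℝ := A ^ m * (2 * r) with hρ₁
  have hρ₁0 : 0 < ρ₁ := by positivity
  have hρ₁2 : 2 * r ≤ ρ₁ := by
    rw [hρ₁]; nlinarith
  have hiii : 2 * l ≤ lf f z ρ₁ := by
    have h1 : 4 * L ≤ Lf f z ρ₁ := by
      have h2 := vr_le_Lf hn1 hfc z hρ₁0.le
      have h3 := X1_iter hA (hgr n hn f g h) m z (2 * r) (by positivity)
      have h4 := hLv n hn f g h z r hr
      have h5 : L / C ≤ vr (f '' ball z (2 * r)) := by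
        rw [div_le_iff₀ (by linarith)]; linarith
      calc 4 * L = (4 * C) * (L / C) := by field_simp
        _ ≤ 2 ^ m * (L / C) := by gcongr
        _ ≤ 2 ^ m * vr (f '' ball z (2 * r)) := by gcongr
        _ ≤ _ := h3.trans h2
    have h2 := hstar z ρ₁ hρ₁0
    have h3 : Q * (2 * l) ≤ Q * lf f z ρ₁ := by
      calc Q * (2 * l) = 4 * (Q / 2 * l) := by ring
        _ ≤ 4 * L := by gcongr
        _ ≤ _ := h1.trans h2
    exact le_of_mul_le_mul_left h3 hQ0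
  have hSsub : g '' ball w (2 * l) ⊆ ball z ρ₁ := h.image_inv_ball_subset z hρ₁0 hiii
  -- (iv)
  have haball : ball a r ⊆ ball z (2 * r) := by
    apply ball_subset_ball'
    linarith
  have hiv : vr (f '' ball a (c * r)) ≤ L / (2 * C) := by
    by_contra hcon
    push Not at hcon
    have h1 := X1_iter hA (hgr n hn f g h) p a (c * r) (by positivity)
    have h2 : A ^ p * (c * r) = r := by
      rw [hc]; field_simp
    rw [h2] at h1
    have h3 : vr (f '' ball a r) ≤ vr (f '' ball z (2 * r)) :=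
      vr_mono (image_mono haball) (volume_image_ball_ne_top hfc z _)
    have h4 := vr_le_Lf hn1 hfc z (r := 2 * r) (by positivity)
    have h5 : 2 ^ p * (L / (2 * C)) ≤ 4 * A ^ k * L := by
      calc 2 ^ p * (L / (2 * C)) ≤ 2 ^ p * vr (f '' ball a (c * r)) := by gcongr
        _ ≤ _ := h1.trans (h3.trans (h4.trans hii))
    have h6 : 2 ^ p * L ≤ 4 * A ^ k * L * (2 * C) := by
      rw [mul_div_assoc', div_le_iff₀ (by positivity)] at h5
      exact h5
    have h7 : 2 ^ p * L ≤ (2 * C * (4 * A ^ k)) * L := by linarith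
    have h8 := le_of_mul_le_mul_right h7 hL0
    linarith
  have hT0 : Lf f a (c * r / 2) ≤ L / 2 := by
    have h1 := hLv n hn f g h a (c * r / 2) (by positivity)
    have h2 : 2 * (c * r / 2) = c * r := by ring
    rw [h2] at h1
    calc Lf f a (c * r / 2) ≤ C * vr (f '' ball a (c * r)) := h1
      _ ≤ C * (L / (2 * C)) := by gcongr
      _ = L / 2 := by field_simp
  have hTsub : ball a (c * r / 2) ⊆ ball z ρ₁ := by
    refine (ball_subset_ball ?_).trans (haball.trans (ball_subset_ball hρ₁2))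
    nlinarith
  have hTdist : ∀ x ∈ ball a (c * r / 2), L / 2 ≤ dist (f x) w := by
    intro x hx
    have h1 : ‖f x - f a‖ ≤ L / 2 := (norm_le_Lf hfc (mem_ball.1 hx).le).trans hT0
    have h2 : L ≤ dist (f x) w + ‖f x - f a‖ := by
      rw [← haL, dist_eq_norm]
      have : f a - f z = (f x - w) - (f x - f a) := by rw [hw]; abel
      rw [this]
      exact norm_sub_le _ _
    linarith
  have hSdist : ∀ x ∈ g '' ball w (2 * l), dist (f x) w ≤ 2 * l := by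
    rintro _ ⟨y, hy, rfl⟩
    rw [h.fg]
    exact (mem_ball.1 hy).le
  -- (v)
  have hcρ : c' * ρ₁ = min (1 / C) (c / 2) * r := by
    rw [hc', hρ₁]
    field_simp
  have hvS : c' * ρ₁ ≤ vr (g '' ball w (2 * l)) := by
    rw [hcρ]
    calc min (1 / C) (c / 2) * r ≤ 1 / C * r := by
          gcongr; exact min_le_left _ _
      _ = r / C := by ring
      _ ≤ _ := hRS
  have hvT : c' * ρ₁ ≤ vr (ball a (c * r / 2)) := by
    rw [hcρ, vr_ball hn1 a (by positivity)]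
    calc min (1 / C) (c / 2) * r ≤ c / 2 * r := by
          gcongr; exact min_le_right _ _
      _ = _ := by ring
  have hfin : L / 2 < 2 ^ (N₀ + 1) * (2 * l) := by
    by_contra hcon
    push Not at hcon
    have := hN₀ n hn f g h z w ρ₁ (2 * l) (N₀ + 1) (g '' ball w (2 * l)) (ball a (c * r / 2))
      hρ₁0 (by positivity) (h.symm.isOpen_image isOpen_ball).measurableSet
      measurableSet_ball hSsub hTsub hvS hvT hSdist
      (fun x hx => hcon.trans (hTdist x hx))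
    omega
  have h9 : Q / 2 * l < 2 ^ (N₀ + 1) * 4 * l := by
    calc Q / 2 * l ≤ L := hnear
      _ < 2 ^ (N₀ + 1) * 4 * l := by linarith
  have h10 := lt_of_mul_lt_mul_right h9 hl0.le
  have h11 : (2 : ℝ) ^ (N₀ + 5) = 2 ^ (N₀ + 1) * 16 := by ring
  rw [h11]
  have : (0 : ℝ) < 2 ^ (N₀ + 1) := by positivity
  linarith

theorem dim_free_distortion (K : ℝ) : ∃ Q : ℝ, 1 ≤ Q ∧ ∀ (n : ℕ), 2 ≤ n →
    ∀ (f g : E n → E n), KQ n K f g → ∀ (z : E n) (r : ℝ), 0 < r →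
      Lf f z r ≤ Q * lf f z r := by
  obtain ⟨Q₀, hQ₀, hcore⟩ := X1_core K
  refine ⟨Q₀, hQ₀, ?_⟩
  intro n hn f g h
  have hn1 : 1 ≤ n := by omega
  have hfc := h.hf.continuous
  obtain ⟨Q₁, hQ₁⟩ := finite_distortion hn K
  -- the supremum of the ratios
  set R : Set ℝ := {q | ∃ (z : E n) (r : ℝ), 0 < r ∧ q = Lf f z r / lf f z r} with hR
  have hbdd : BddAbove R := by
    refine ⟨Q₁, ?_⟩
    rintro q ⟨z, r, hr, rfl⟩
    rw [div_le_iff₀ (h.lf_pos hn1 z hr)]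
    exact hQ₁ f g h z r hr
  have hne : R.Nonempty := ⟨_, 0, 1, one_pos, rfl⟩
  have hone : ∀ q ∈ R, 1 ≤ q := by
    rintro q ⟨z, r, hr, rfl⟩
    rw [one_le_div (h.lf_pos hn1 z hr)]
    obtain ⟨b, hb, hb2⟩ := exists_lf hn1 hfc z hr.le
    rw [← hb2]
    exact norm_le_Lf hfc hb.le
  set Q := sSup R with hQdef
  have hQ1 : 1 ≤ Q := by
    obtain ⟨q, hq⟩ := hne
    exact (hone q hq).trans (le_csSup hbdd hq)
  have hstar : ∀ (z : E n) (ρ : ℝ), 0 < ρ → Lf f z ρ ≤ Q * lf f z ρ := by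
    intro z ρ hρ
    rw [← div_le_iff₀ (h.lf_pos hn1 z hρ)]
    exact le_csSup hbdd ⟨z, ρ, hρ, rfl⟩
  obtain ⟨q, ⟨z, r, hr, rfl⟩, hq⟩ := exists_lt_of_lt_csSup hne (show Q / 2 < sSup R by
    rw [← hQdef]; linarith)
  have hnear : Q / 2 * lf f z r ≤ Lf f z r := by
    rw [← le_div_iff₀ (h.lf_pos hn1 z hr)]
    exact hq.le
  have hQle : Q ≤ Q₀ := hcore n hn f g h Q hQ1 hstar z r hr hnear
  intro z' r' hr'
  calc Lf f z' r' ≤ Q * lf f z' r' := hstar z' r' hr'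
    _ ≤ Q₀ * lf f z' r' := by
      have := (h.lf_pos hn1 z' hr').le
      gcongr

end DF88
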